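import Pool.Agent.H17.MCG.Defs

/-!
# Bounded orbits and the theta lemma
-/

namespace Pool.Agent.H17MCG

open Cardinal Set

universe u

private theorem Theta_ias {X : Type u} (e : Equiv.Perm X) (x : X) : e⁻¹ (e x) = x :=
  e.symm_apply_apply x

private theorem Theta_ais {X : Type u} (e : Equiv.Perm X) (x : X) : e (e⁻¹ x) = x :=
  e.apply_symm_apply x

private theorem Theta_lift {X : Type u} (T : Set (Equiv.Perm X)) (B : ℕ) (S : Set X)
    (hS : S.Finite) (hB : S.ncard ≤ B) (hinv : ∀ g ∈ T, ∀ y, g y ∈ S ↔ y ∈ S) :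
    ∃ ρ : T → Equiv.Perm (Fin B), ∃ e : S ↪ Fin B, ∀ w : FreeGroup T, ∀ s : S,
      ∃ h : (FreeGroup.lift (fun t : T => (t : Equiv.Perm X)) w) s ∈ S,
        FreeGroup.lift ρ w (e s) = e ⟨_, h⟩ := by
  classical
  have hfin : Fintype S := hS.fintype
  have hcard : Fintype.card S ≤ Fintype.card (Fin B) := by
    rw [Fintype.card_fin, ← Nat.card_eq_fintype_card, Nat.card_coe_set_eq]
    exact hB
  obtain ⟨e⟩ := Function.Embedding.nonempty_of_card_le hcard
  let ρ : T → Equiv.Perm (Fin B) := fun t =>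
    ((t : Equiv.Perm X).subtypePerm (p := (· ∈ S)) (hinv t t.2)).viaEmbedding e
  refine ⟨ρ, e, fun w => ?_⟩
  have hof : ∀ (t : T) (s : S), ∃ h : (t : Equiv.Perm X) s ∈ S, ρ t (e s) = e ⟨_, h⟩ := by
    intro t s
    refine ⟨(hinv t t.2 s).2 s.2, ?_⟩
    exact Equiv.Perm.viaEmbedding_apply _ _ _
  induction w using FreeGroup.induction_on with
  | C1 =>
    intro s
    refine ⟨by rw [map_one]; exact s.2, ?_⟩
    rw [map_one]
    rfl
  | of t =>
    intro s
    obtain ⟨h, hh⟩ := hof t s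
    refine ⟨by rw [FreeGroup.lift_apply_of]; exact h, ?_⟩
    rw [FreeGroup.lift_apply_of, hh]
    congr 1
  | inv_of t _ =>
    intro s
    have h1 : (t : Equiv.Perm X)⁻¹ s ∈ S := by
      rw [← hinv t t.2, Theta_ais]
      exact s.2
    refine ⟨by rw [map_inv, FreeGroup.lift_apply_of]; exact h1, ?_⟩
    obtain ⟨h, hh⟩ := hof t ⟨_, h1⟩
    rw [map_inv, FreeGroup.lift_apply_of, Equiv.Perm.inv_eq_iff_eq]
    have h2 : (⟨(FreeGroup.lift (fun t : T => (t : Equiv.Perm X)) (FreeGroup.of t)⁻¹) s,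
        by rw [map_inv, FreeGroup.lift_apply_of]; exact h1⟩ : S) = ⟨_, h1⟩ := by
      apply Subtype.ext
      show (FreeGroup.lift (fun t : T => (t : Equiv.Perm X)) (FreeGroup.of t)⁻¹) s = _
      rw [map_inv, FreeGroup.lift_apply_of]
    rw [h2, hh]
    congr 1
    apply Subtype.ext
    show (s : X) = (t : Equiv.Perm X) ((t : Equiv.Perm X)⁻¹ s)
    rw [Theta_ais]
  | mul a b iha ihb =>
    intro s
    obtain ⟨h1, h2⟩ := ihb s
    obtain ⟨h3, h4⟩ := iha ⟨_, h1⟩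
    refine ⟨by rw [map_mul, Equiv.Perm.mul_apply]; exact h3, ?_⟩
    rw [map_mul, Equiv.Perm.mul_apply, h2, h4]
    congr 1
    apply Subtype.ext
    show _ = (FreeGroup.lift (fun t : T => (t : Equiv.Perm X)) (a * b)) s
    rw [map_mul, Equiv.Perm.mul_apply]

/-- A finitely generated group of permutations such that every point lies in an invariant set of
size at most `B` is finite. -/
theorem finite_of_bounded {X : Type u} (T : Set (Equiv.Perm X)) (hT : T.Finite) (B : ℕ)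
    (h : ∀ x, ∃ S : Set X, x ∈ S ∧ S.Finite ∧ S.ncard ≤ B ∧ ∀ g ∈ T, ∀ y, g y ∈ S ↔ y ∈ S) :
    (Subgroup.closure T : Set (Equiv.Perm X)).Finite := by
  classical
  have hT' : Finite T := hT.to_subtype
  let L : FreeGroup T →* Equiv.Perm X := FreeGroup.lift (fun t : T => (t : Equiv.Perm X))
  let F : FreeGroup T → (T → Equiv.Perm (Fin B)) → Equiv.Perm (Fin B) :=
    fun w ρ => FreeGroup.lift ρ w
  have key : ∀ w w', F w = F w' → L w = L w' := by
    intro w w' hw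
    ext x
    obtain ⟨S, hxS, hS, hSB, hinv⟩ := h x
    obtain ⟨ρ, e, H⟩ := Theta_lift T B S hS hSB hinv
    obtain ⟨h1, h2⟩ := H w ⟨x, hxS⟩
    obtain ⟨h3, h4⟩ := H w' ⟨x, hxS⟩
    have h5 : FreeGroup.lift ρ w = FreeGroup.lift ρ w' := congrFun hw ρ
    rw [h5, h4] at h2
    have h6 := e.injective h2
    exact (congrArg Subtype.val h6).symm
  let G : ((T → Equiv.Perm (Fin B)) → Equiv.Perm (Fin B)) → Equiv.Perm X :=
    fun c => if h : ∃ w, F w = c then L h.choose else 1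
  have hsub : (Subgroup.closure T : Set (Equiv.Perm X)) ⊆ Set.range G := by
    intro g hg
    rw [SetLike.mem_coe, FreeGroup.closure_eq_range] at hg
    obtain ⟨w, rfl⟩ := hg
    refine ⟨F w, ?_⟩
    have hex : ∃ w', F w' = F w := ⟨w, rfl⟩
    show (if h : ∃ w', F w' = F w then L h.choose else 1) = _
    rw [dif_pos hex]
    exact key _ _ hex.choose_spec
  exact (Set.finite_range G).subset hsub

/-- the involution -/
private theorem Theta_ex {X Γ : Type u} [Group Γ] (ψ : Γ →* Equiv.Perm X) (j : Γ → X)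
    (hj : Function.Injective j) (hψj : ∀ g l, ψ g (j l) = j (g * l)) (E : Subgroup Γ) (f : Γ)
    (hf : f ∉ E) (x y : X) (hx : x ∉ range j) (hy : y ∉ range j)
    (hxf : ∀ e ∈ E, ψ e x = x → e = 1) (hyf : ∀ e ∈ E, ψ e y = y → e = 1)
    (hxy : ∀ e ∈ E, ψ e x ≠ y) :
    ∃ th : X → X, (∀ e ∈ E, th (ψ e x) = j e) ∧ (∀ e ∈ E, th (ψ e y) = j (e * f)) ∧
      (∀ e ∈ E, th (j e) = ψ e x) ∧ (∀ e ∈ E, th (j (e * f)) = ψ e y) ∧
      (∀ z, (∀ e ∈ E, ψ e x ≠ z) → (∀ e ∈ E, ψ e y ≠ z) → (∀ e ∈ E, j e ≠ z) →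
        (∀ e ∈ E, j (e * f) ≠ z) → th z = z) := by
  classical
  have hxj : ∀ e l, ψ e x ≠ j l := by
    intro e l h
    apply hx
    refine ⟨e⁻¹ * l, ?_⟩
    rw [← hψj, ← h, map_inv, Theta_ias]
  have hyj : ∀ e l, ψ e y ≠ j l := by
    intro e l h
    apply hy
    refine ⟨e⁻¹ * l, ?_⟩
    rw [← hψj, ← h, map_inv, Theta_ias]
  have hxx : ∀ e ∈ E, ∀ e' ∈ E, ψ e x = ψ e' x → e = e' := by
    intro e he e' he' h
    have h1 : ψ (e'⁻¹ * e) x = x := by
      rw [map_mul, Equiv.Perm.mul_apply, h, map_inv, Theta_ias]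
    have h2 := hxf _ (mul_mem (inv_mem he') he) h1
    exact (inv_mul_eq_one.1 h2).symm
  have hyy : ∀ e ∈ E, ∀ e' ∈ E, ψ e y = ψ e' y → e = e' := by
    intro e he e' he' h
    have h1 : ψ (e'⁻¹ * e) y = y := by
      rw [map_mul, Equiv.Perm.mul_apply, h, map_inv, Theta_ias]
    have h2 := hyf _ (mul_mem (inv_mem he') he) h1
    exact (inv_mul_eq_one.1 h2).symm
  have hxy' : ∀ e ∈ E, ∀ e' ∈ E, ψ e x ≠ ψ e' y := by
    intro e he e' he' h
    apply hxy _ (mul_mem (inv_mem he') he)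
    rw [map_mul, Equiv.Perm.mul_apply, h, map_inv, Theta_ias]
  have hjj : ∀ e ∈ E, ∀ e' ∈ E, j e ≠ j (e' * f) := by
    intro e he e' he' h
    apply hf
    have h1 := hj h
    rw [show f = e'⁻¹ * e by rw [h1]; group]
    exact mul_mem (inv_mem he') he
  let th : X → X := fun z =>
    if h : ∃ e ∈ E, ψ e x = z then j h.choose
    else if h : ∃ e ∈ E, ψ e y = z then j (h.choose * f)
    else if h : ∃ e ∈ E, j e = z then ψ h.choose x
    else if h : ∃ e ∈ E, j (e * f) = z then ψ h.choose y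
    else z
  refine ⟨th, ?_, ?_, ?_, ?_, ?_⟩
  · intro e he
    have h : ∃ e' ∈ E, ψ e' x = ψ e x := ⟨e, he, rfl⟩
    show dite _ _ _ = _
    rw [dif_pos h]
    rw [hxx _ h.choose_spec.1 _ he h.choose_spec.2]
  · intro e he
    have h0 : ¬ ∃ e' ∈ E, ψ e' x = ψ e y := fun ⟨e', he', h⟩ => hxy' e' he' e he h
    have h : ∃ e' ∈ E, ψ e' y = ψ e y := ⟨e, he, rfl⟩
    show dite _ _ _ = _
    rw [dif_neg h0, dif_pos h]
    rw [hyy _ h.choose_spec.1 _ he h.choose_spec.2]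
  · intro e he
    have h0 : ¬ ∃ e' ∈ E, ψ e' x = j e := fun ⟨e', he', h⟩ => hxj _ _ h
    have h1 : ¬ ∃ e' ∈ E, ψ e' y = j e := fun ⟨e', he', h⟩ => hyj _ _ h
    have h : ∃ e' ∈ E, j e' = j e := ⟨e, he, rfl⟩
    show dite _ _ _ = _
    rw [dif_neg h0, dif_neg h1, dif_pos h]
    rw [hj h.choose_spec.2]
  · intro e he
    have h0 : ¬ ∃ e' ∈ E, ψ e' x = j (e * f) := fun ⟨e', he', h⟩ => hxj _ _ h
    have h1 : ¬ ∃ e' ∈ E, ψ e' y = j (e * f) := fun ⟨e', he', h⟩ => hyj _ _ h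
    have h2 : ¬ ∃ e' ∈ E, j e' = j (e * f) := fun ⟨e', he', h⟩ => hjj e' he' e he h
    have h : ∃ e' ∈ E, j (e' * f) = j (e * f) := ⟨e, he, rfl⟩
    show dite _ _ _ = _
    rw [dif_neg h0, dif_neg h1, dif_neg h2, dif_pos h]
    rw [mul_right_cancel (hj h.choose_spec.2)]
  · intro z h1 h2 h3 h4
    show dite _ _ _ = _
    rw [dif_neg (fun ⟨e, he, h⟩ => h1 e he h), dif_neg (fun ⟨e, he, h⟩ => h2 e he h),
      dif_neg (fun ⟨e, he, h⟩ => h3 e he h), dif_neg (fun ⟨e, he, h⟩ => h4 e he h)]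

/-- the invariant sets -/
private theorem Theta_bdd {X Γ : Type u} [Group Γ] (ψ : Γ →* Equiv.Perm X) (j : Γ → X)
    (hj : Function.Injective j) (hψj : ∀ g l, ψ g (j l) = j (g * l)) (E : Subgroup Γ) (f : Γ)
    (hpr : ∀ u ∈ E, ∀ w ∈ E, f * u * f⁻¹ = w → u = 1) (x y : X) (hx : x ∉ range j)
    (hy : y ∉ range j) (th : X → X)
    (t1 : ∀ e ∈ E, th (ψ e x) = j e) (t2 : ∀ e ∈ E, th (ψ e y) = j (e * f))
    (t3 : ∀ e ∈ E, th (j e) = ψ e x) (t4 : ∀ e ∈ E, th (j (e * f)) = ψ e y)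
    (t5 : ∀ z, (∀ e ∈ E, ψ e x ≠ z) → (∀ e ∈ E, ψ e y ≠ z) → (∀ e ∈ E, j e ≠ z) →
        (∀ e ∈ E, j (e * f) ≠ z) → th z = z)
    (F : Subgroup Γ) (hF : (F : Set Γ).Finite) :
    ∃ B : ℕ, ∀ z, ∃ S : Set X, z ∈ S ∧ S.Finite ∧ S.ncard ≤ B ∧
      (∀ g ∈ F, ∀ w ∈ S, ψ g w ∈ S) ∧ (∀ w ∈ S, th w ∈ S) := by
  classical
  -- the finite set `C`
  let FF : Finset Γ := hF.toFinset
  have hFF : ∀ g, g ∈ FF ↔ g ∈ F := fun g => hF.mem_toFinset
  let ε : Γ → Γ := fun h => if H : ∃ e ∈ E, ∃ e' ∈ E, e' * f * e⁻¹ = h then H.choose else 1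
  have hε : ∀ e ∈ E, ∀ e' ∈ E, ε (e' * f * e⁻¹) = e := by
    intro e he e' he'
    have H : ∃ e1 ∈ E, ∃ e1' ∈ E, e1' * f * e1⁻¹ = e' * f * e⁻¹ := ⟨e, he, e', he', rfl⟩
    have h1 : ε (e' * f * e⁻¹) = H.choose := by
      show dite _ _ _ = _
      rw [dif_pos H]
    rw [h1]
    obtain ⟨h2, e1', h3, h4⟩ := H.choose_spec
    have h5 : f * (H.choose⁻¹ * e) * f⁻¹ = e1'⁻¹ * e' := by
      have h6 : f * H.choose⁻¹ = e1'⁻¹ * (e' * f * e⁻¹) := by
        rw [eq_inv_mul_iff_mul_eq, ← mul_assoc]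
        exact h4
      calc f * (H.choose⁻¹ * e) * f⁻¹ = (f * H.choose⁻¹) * e * f⁻¹ := by group
        _ = e1'⁻¹ * (e' * f * e⁻¹) * e * f⁻¹ := by rw [h6]
        _ = e1'⁻¹ * e' := by group
    have h7 := hpr _ (mul_mem (inv_mem h2) he) _ (mul_mem (inv_mem h3) he') h5
    exact inv_mul_eq_one.1 h7
  let Cs : Finset Γ := (Finset.image₂ (fun g h => g * ε h) FF FF).filter
    (fun c => (∃ g ∈ F, ∃ e ∈ E, c = g * e) ∧ (∃ g ∈ F, ∃ e ∈ E, c = g * (e * f)))
  have hC : ∀ c, c ∈ Cs ↔ (∃ g ∈ F, ∃ e ∈ E, c = g * e) ∧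
      (∃ g ∈ F, ∃ e ∈ E, c = g * (e * f)) := by
    intro c
    rw [Finset.mem_filter]
    constructor
    · exact fun h => h.2
    · intro h
      refine ⟨?_, h⟩
      obtain ⟨⟨g, hg, e, he, h1⟩, ⟨g', hg', e', he', h2⟩⟩ := h
      rw [Finset.mem_image₂]
      refine ⟨g, (hFF g).2 hg, g'⁻¹ * g, (hFF _).2 (mul_mem (inv_mem hg') hg), ?_⟩
      have h3 : g'⁻¹ * g = e' * f * e⁻¹ := by
        have h4 : g * e = g' * (e' * f) := by rw [← h1, h2]
        calc g'⁻¹ * g = g'⁻¹ * (g * e) * e⁻¹ := by group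
          _ = g'⁻¹ * (g' * (e' * f)) * e⁻¹ := by rw [h4]
          _ = e' * f * e⁻¹ := by group
      rw [h3, hε e he e' he', h1]
  have hCF : ∀ g ∈ F, ∀ c ∈ Cs, g * c ∈ Cs := by
    intro g hg c hc
    rw [hC] at hc ⊢
    obtain ⟨⟨g1, hg1, e, he, h1⟩, ⟨g', hg', e', he', h2⟩⟩ := hc
    exact ⟨⟨g * g1, mul_mem hg hg1, e, he, by rw [h1, mul_assoc]⟩,
      ⟨g * g', mul_mem hg hg', e', he', by rw [h2, mul_assoc]⟩⟩
  have hcCs : Cs.card ≤ FF.card * FF.card :=
    (Finset.card_filter_le _ _).trans (Finset.card_image₂_le _ _ _)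
  -- the set `T_C`
  let TC : Finset X := (Finset.image₂ (fun g c => ψ g (th (j c))) FF Cs).filter
    (fun z => z ∉ range j)
  have hTC : ∀ z, z ∈ TC ↔ (∃ g ∈ F, ∃ c ∈ Cs, ψ g (th (j c)) = z) ∧ z ∉ range j := by
    intro z
    rw [Finset.mem_filter, Finset.mem_image₂]
    constructor
    · rintro ⟨⟨g, hg, c, hc, h⟩, h2⟩
      exact ⟨⟨g, (hFF g).1 hg, c, hc, h⟩, h2⟩
    · rintro ⟨⟨g, hg, c, hc, h⟩, h2⟩
      exact ⟨⟨g, (hFF g).2 hg, c, hc, h⟩, h2⟩
  have hcTC : TC.card ≤ FF.card * (FF.card * FF.card) :=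
    (Finset.card_filter_le _ _).trans ((Finset.card_image₂_le _ _ _).trans
      (Nat.mul_le_mul_left _ hcCs))
  have hrj : ∀ g z, ψ g z ∈ range j → z ∈ range j := by
    rintro g z ⟨l, hl⟩
    refine ⟨g⁻¹ * l, ?_⟩
    rw [← hψj, hl, map_inv, Theta_ias]
  -- the invariant set of a finite `T`
  have main : ∀ T : Finset X, (∀ g ∈ F, ∀ t ∈ T, ψ g t ∈ T) → (∀ t ∈ T, t ∉ range j) →
      T.card ≤ FF.card → ∀ S : Set X,
      S = {z | z ∈ T ∨ z ∈ TC ∨ (∃ c ∈ Cs, j c = z) ∨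
        (∃ g ∈ F, ∃ t, (t ∈ T ∨ t ∈ TC) ∧ ψ g (th t) = z)} →
      S.Finite ∧ S.ncard ≤ (FF.card + FF.card * (FF.card * FF.card)) + FF.card * FF.card +
        FF.card * (FF.card + FF.card * (FF.card * FF.card)) ∧
      (∀ g ∈ F, ∀ w ∈ S, ψ g w ∈ S) ∧ (∀ w ∈ S, th w ∈ S) := by
    intro T hTF hTj hTc S hSdef
    let SS : Finset X := ((T ∪ TC) ∪ Cs.image j) ∪
      Finset.image₂ (fun g t => ψ g (th t)) FF (T ∪ TC)
    have hSS : S = ↑SS := by
      rw [hSdef]
      ext z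
      rw [Set.mem_ofPred_eq, Finset.mem_coe, Finset.mem_union, Finset.mem_union,
        Finset.mem_union, Finset.mem_image, Finset.mem_image₂]
      constructor
      · rintro (h | h | ⟨c, hc, h⟩ | ⟨g, hg, t, ht, h⟩)
        · exact Or.inl (Or.inl (Or.inl h))
        · exact Or.inl (Or.inl (Or.inr h))
        · exact Or.inl (Or.inr ⟨c, hc, h⟩)
        · exact Or.inr ⟨g, (hFF g).2 hg, t, Finset.mem_union.2 ht, h⟩
      · rintro (((h | h) | ⟨c, hc, h⟩) | ⟨g, hg, t, ht, h⟩)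
        · exact Or.inl h
        · exact Or.inr (Or.inl h)
        · exact Or.inr (Or.inr (Or.inl ⟨c, hc, h⟩))
        · exact Or.inr (Or.inr (Or.inr ⟨g, (hFF g).1 hg, t, Finset.mem_union.1 ht, h⟩))
    have hTT : (T ∪ TC).card ≤ FF.card + FF.card * (FF.card * FF.card) :=
      (Finset.card_union_le _ _).trans (Nat.add_le_add hTc hcTC)
    -- `th (j c)` is in the set
    have hjc : ∀ c ∈ Cs, th (j c) ∈ S := by
      intro c hc
      rw [hSdef]
      by_cases h1 : th (j c) ∈ range j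
      · have h2 : th (j c) = j c := by
          by_cases h3 : ∃ e ∈ E, j e = j c
          · obtain ⟨e, he, h4⟩ := h3
            rw [← h4, t3 e he] at h1
            exact absurd (hrj _ _ h1) hx
          · by_cases h5 : ∃ e ∈ E, j (e * f) = j c
            · obtain ⟨e, he, h4⟩ := h5
              rw [← h4, t4 e he] at h1
              exact absurd (hrj _ _ h1) hy
            · apply t5
              · intro e he h6
                exact hx (hrj e x (h6 ▸ ⟨c, rfl⟩))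
              · intro e he h6
                exact hy (hrj e y (h6 ▸ ⟨c, rfl⟩))
              · exact fun e he h6 => h3 ⟨e, he, h6⟩
              · exact fun e he h6 => h5 ⟨e, he, h6⟩
        exact Or.inr (Or.inr (Or.inl ⟨c, hc, h2.symm⟩))
      · refine Or.inr (Or.inl ((hTC _).2 ⟨⟨1, one_mem F, c, hc, ?_⟩, h1⟩))
        rw [map_one]
        rfl
    have hTF' : ∀ g ∈ F, ∀ t, (t ∈ T ∨ t ∈ TC) → (ψ g t ∈ T ∨ ψ g t ∈ TC) := by
      rintro g hg t (ht | ht)
      · exact Or.inl (hTF g hg t ht)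
      · right
        rw [hTC] at ht ⊢
        obtain ⟨⟨g1, hg1, c, hc, h⟩, h2⟩ := ht
        refine ⟨⟨g * g1, mul_mem hg hg1, c, hc, ?_⟩, fun h3 => h2 (hrj _ _ h3)⟩
        rw [map_mul, Equiv.Perm.mul_apply, h]
    have hTj' : ∀ t, (t ∈ T ∨ t ∈ TC) → t ∉ range j := by
      rintro t (ht | ht)
      · exact hTj t ht
      · exact ((hTC t).1 ht).2
    have hTS : ∀ t, (t ∈ T ∨ t ∈ TC) → t ∈ S := by
      rintro t (ht | ht)
      · rw [hSdef]; exact Or.inl ht
      · rw [hSdef]; exact Or.inr (Or.inl ht)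
    have hFS : ∀ g ∈ F, ∀ t, (t ∈ T ∨ t ∈ TC) → ψ g (th t) ∈ S := by
      intro g hg t ht
      rw [hSdef]
      exact Or.inr (Or.inr (Or.inr ⟨g, hg, t, ht, rfl⟩))
    refine ⟨?_, ?_, ?_, ?_⟩
    · rw [hSS]
      exact SS.finite_toSet
    · rw [hSS, Set.ncard_coe_finset]
      refine (Finset.card_union_le _ _).trans (Nat.add_le_add ?_ ?_)
      · refine (Finset.card_union_le _ _).trans (Nat.add_le_add hTT ?_)
        exact Finset.card_image_le.trans hcCs
      · exact (Finset.card_image₂_le _ _ _).trans (Nat.mul_le_mul_left _ hTT)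
    · intro g hg w hw
      rw [hSdef] at hw
      rcases hw with h | h | ⟨c, hc, h⟩ | ⟨g1, hg1, t, ht, h⟩
      · exact hTS _ (hTF' g hg w (Or.inl h))
      · exact hTS _ (hTF' g hg w (Or.inr h))
      · rw [← h, hψj, hSdef]
        exact Or.inr (Or.inr (Or.inl ⟨g * c, hCF g hg c hc, rfl⟩))
      · rw [← h, ← Equiv.Perm.mul_apply, ← map_mul]
        exact hFS _ (mul_mem hg hg1) t ht
    · intro w hw
      rw [hSdef] at hw
      have hfirst : ∀ t, (t ∈ T ∨ t ∈ TC) → th t ∈ S := by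
        intro t ht
        have := hFS 1 (one_mem F) t ht
        rw [map_one] at this
        exact this
      rcases hw with h | h | ⟨c, hc, h⟩ | ⟨g, hg, t, ht, h⟩
      · exact hfirst w (Or.inl h)
      · exact hfirst w (Or.inr h)
      · rw [← h]
        exact hjc c hc
      · rw [← h]
        by_cases h1 : ∃ e ∈ E, ψ e x = t
        · obtain ⟨e, he, h2⟩ := h1
          rw [← h2, t1 e he, hψj]
          by_cases h3 : g * e ∈ E
          · rw [t3 _ h3, map_mul, Equiv.Perm.mul_apply, h2]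
            exact hTS _ (hTF' g hg t ht)
          · by_cases h4 : ∃ e' ∈ E, g * e = e' * f
            · obtain ⟨e', he', h5⟩ := h4
              apply hjc
              rw [hC]
              exact ⟨⟨g, hg, e, he, rfl⟩, ⟨1, one_mem F, e', he', by rw [one_mul, h5]⟩⟩
            · rw [t5 (j (g * e)) (fun e' he' h6 => hx (hrj e' x (h6 ▸ ⟨_, rfl⟩)))
                (fun e' he' h6 => hy (hrj e' y (h6 ▸ ⟨_, rfl⟩)))
                (fun e' he' h6 => h3 (hj h6 ▸ he'))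
                (fun e' he' h6 => h4 ⟨e', he', (hj h6).symm⟩), ← hψj, ← t1 e he, h2]
              exact hFS g hg t ht
        · by_cases h1' : ∃ e ∈ E, ψ e y = t
          · obtain ⟨e, he, h2⟩ := h1'
            rw [← h2, t2 e he, hψj]
            by_cases h3 : g * (e * f) ∈ E
            · apply hjc
              rw [hC]
              exact ⟨⟨1, one_mem F, _, h3, by rw [one_mul]⟩, ⟨g, hg, e, he, rfl⟩⟩
            · by_cases h4 : ∃ e' ∈ E, g * (e * f) = e' * f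
              · obtain ⟨e', he', h5⟩ := h4
                have h6 : g * e = e' := by
                  rw [← mul_assoc] at h5
                  exact mul_right_cancel h5
                rw [h5, t4 _ he', ← h6, map_mul, Equiv.Perm.mul_apply, h2]
                exact hTS _ (hTF' g hg t ht)
              · rw [t5 (j (g * (e * f))) (fun e' he' h6 => hx (hrj e' x (h6 ▸ ⟨_, rfl⟩)))
                  (fun e' he' h6 => hy (hrj e' y (h6 ▸ ⟨_, rfl⟩)))
                  (fun e' he' h6 => h3 (hj h6 ▸ he'))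
                  (fun e' he' h6 => h4 ⟨e', he', (hj h6).symm⟩), ← hψj, ← t2 e he, h2]
                exact hFS g hg t ht
          · have h7 : th t = t := by
              apply t5
              · exact fun e he h => h1 ⟨e, he, h⟩
              · exact fun e he h => h1' ⟨e, he, h⟩
              · exact fun e he h => hTj' t ht ⟨e, h⟩
              · exact fun e he h => hTj' t ht ⟨e * f, h⟩
            rw [h7]
            exact hfirst _ (hTF' g hg t ht)
  -- orbits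
  have horb : ∀ t, t ∉ range j → ∃ T : Finset X, (∀ g ∈ F, ∀ t ∈ T, ψ g t ∈ T) ∧
      (∀ t ∈ T, t ∉ range j) ∧ T.card ≤ FF.card ∧ t ∈ T := by
    intro t ht
    refine ⟨FF.image (fun g => ψ g t), ?_, ?_, Finset.card_image_le, ?_⟩
    · intro g hg s hs
      rw [Finset.mem_image] at hs ⊢
      obtain ⟨g1, hg1, rfl⟩ := hs
      refine ⟨g * g1, (hFF _).2 (mul_mem hg ((hFF _).1 hg1)), ?_⟩
      rw [map_mul, Equiv.Perm.mul_apply]
    · intro s hs
      rw [Finset.mem_image] at hs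
      obtain ⟨g1, hg1, rfl⟩ := hs
      exact fun h => ht (hrj _ _ h)
    · rw [Finset.mem_image]
      exact ⟨1, (hFF _).2 (one_mem F), by rw [map_one]; rfl⟩
  refine ⟨(FF.card + FF.card * (FF.card * FF.card)) + FF.card * FF.card +
        FF.card * (FF.card + FF.card * (FF.card * FF.card)), ?_⟩
  intro z
  by_cases hz : z ∈ range j
  · obtain ⟨l, hl⟩ := hz
    by_cases h1 : ∃ g ∈ F, ∃ e ∈ E, l = g * e
    · obtain ⟨g, hg, e, he, h2⟩ := h1
      obtain ⟨T, a1, a2, a3, a4⟩ := horb (ψ e x) (fun h => hx (hrj _ _ h))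
      obtain ⟨b1, b2, b3, b4⟩ := main T a1 a2 a3 _ rfl
      refine ⟨_, ?_, b1, b2, b3, b4⟩
      refine Or.inr (Or.inr (Or.inr ⟨g, hg, ψ e x, Or.inl a4, ?_⟩))
      rw [t1 e he, hψj, ← h2, hl]
    · by_cases h1' : ∃ g ∈ F, ∃ e ∈ E, l = g * (e * f)
      · obtain ⟨g, hg, e, he, h2⟩ := h1'
        obtain ⟨T, a1, a2, a3, a4⟩ := horb (ψ e y) (fun h => hy (hrj _ _ h))
        obtain ⟨b1, b2, b3, b4⟩ := main T a1 a2 a3 _ rfl
        refine ⟨_, ?_, b1, b2, b3, b4⟩
        refine Or.inr (Or.inr (Or.inr ⟨g, hg, ψ e y, Or.inl a4, ?_⟩))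
        rw [t2 e he, hψj, ← h2, hl]
      · refine ⟨↑(FF.image (fun g => j (g * l))), ?_, Finset.finite_toSet _, ?_, ?_, ?_⟩
        · rw [Finset.mem_coe, Finset.mem_image]
          exact ⟨1, (hFF _).2 (one_mem F), by rw [one_mul, hl]⟩
        · rw [Set.ncard_coe_finset]
          have : (FF.image (fun g => j (g * l))).card ≤ FF.card := Finset.card_image_le
          omega
        · intro g hg w hw
          rw [Finset.mem_coe, Finset.mem_image] at hw ⊢
          obtain ⟨g1, hg1, rfl⟩ := hw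
          refine ⟨g * g1, (hFF _).2 (mul_mem hg ((hFF _).1 hg1)), ?_⟩
          rw [hψj, mul_assoc]
        · intro w hw
          rw [Finset.mem_coe, Finset.mem_image] at hw
          obtain ⟨g1, hg1, rfl⟩ := hw
          have hg1' := (hFF _).1 hg1
          rw [t5 (j (g1 * l)) (fun e' he' h6 => hx (hrj e' x (h6 ▸ ⟨_, rfl⟩)))
            (fun e' he' h6 => hy (hrj e' y (h6 ▸ ⟨_, rfl⟩)))
            (fun e' he' h6 => h1 ⟨g1⁻¹, inv_mem hg1', e', he', by rw [hj h6]; group⟩)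
            (fun e' he' h6 => h1' ⟨g1⁻¹, inv_mem hg1', e', he', by rw [hj h6]; group⟩)]
          rw [Finset.mem_coe, Finset.mem_image]
          exact ⟨g1, hg1, rfl⟩
  · obtain ⟨T, a1, a2, a3, a4⟩ := horb z hz
    obtain ⟨b1, b2, b3, b4⟩ := main T a1 a2 a3 _ rfl
    exact ⟨_, Or.inl a4, b1, b2, b3, b4⟩

theorem theta {X Γ : Type u} [Group Γ] (hΓ : LocFin Γ) (ψ : Γ →* Equiv.Perm X) (j : Γ → X)
    (hj : Function.Injective j) (hψj : ∀ g l, ψ g (j l) = j (g * l)) (E : Subgroup Γ) (f : Γ)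
    (hf : f ∉ E) (hpr : ∀ u ∈ E, ∀ w ∈ E, f * u * f⁻¹ = w → u = 1)
    (x y : X) (hx : x ∉ range j) (hy : y ∉ range j)
    (hxf : ∀ e ∈ E, ψ e x = x → e = 1) (hyf : ∀ e ∈ E, ψ e y = y → e = 1)
    (hxy : ∀ e ∈ E, ψ e x ≠ y) :
    ∃ θ : Equiv.Perm X, (∀ e ∈ E, ∀ z, θ (ψ e z) = ψ e (θ z)) ∧ (∀ z, θ (θ z) = z) ∧
      θ (ψ f (θ x)) = y ∧
      (∀ z ∉ range j, (∀ e ∈ E, ψ e x ≠ z) → (∀ e ∈ E, ψ e y ≠ z) → θ z = z) ∧
      LocFin (Subgroup.closure (Set.range ψ ∪ {θ})) := by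
  classical
  obtain ⟨th, t1, t2, t3, t4, t5⟩ := Theta_ex ψ j hj hψj E f hf x y hx hy hxf hyf hxy
  have hcase : ∀ z, (∃ e ∈ E, ψ e x = z) ∨ (∃ e ∈ E, ψ e y = z) ∨ (∃ e ∈ E, j e = z) ∨
      (∃ e ∈ E, j (e * f) = z) ∨ ((∀ e ∈ E, ψ e x ≠ z) ∧ (∀ e ∈ E, ψ e y ≠ z) ∧
        (∀ e ∈ E, j e ≠ z) ∧ (∀ e ∈ E, j (e * f) ≠ z)) := by
    intro z
    by_cases h1 : ∃ e ∈ E, ψ e x = z
    · exact Or.inl h1
    by_cases h2 : ∃ e ∈ E, ψ e y = z
    · exact Or.inr (Or.inl h2)
    by_cases h3 : ∃ e ∈ E, j e = z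
    · exact Or.inr (Or.inr (Or.inl h3))
    by_cases h4 : ∃ e ∈ E, j (e * f) = z
    · exact Or.inr (Or.inr (Or.inr (Or.inl h4)))
    · exact Or.inr (Or.inr (Or.inr (Or.inr ⟨fun e he h => h1 ⟨e, he, h⟩,
        fun e he h => h2 ⟨e, he, h⟩, fun e he h => h3 ⟨e, he, h⟩, fun e he h => h4 ⟨e, he, h⟩⟩)))
  have hinv : Function.Involutive th := by
    intro z
    rcases hcase z with ⟨e, he, rfl⟩ | ⟨e, he, rfl⟩ | ⟨e, he, rfl⟩ | ⟨e, he, rfl⟩ |
      ⟨h1, h2, h3, h4⟩
    · rw [t1 e he, t3 e he]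
    · rw [t2 e he, t4 e he]
    · rw [t3 e he, t1 e he]
    · rw [t4 e he, t2 e he]
    · rw [t5 z h1 h2 h3 h4, t5 z h1 h2 h3 h4]
  have hmv : ∀ e z w, ψ e z = w → z = ψ e⁻¹ w := by
    intro e z w h
    rw [← h, map_inv, Theta_ias]
  refine ⟨hinv.toPerm, ?_, hinv, ?_, ?_, ?_⟩
  · intro e he z
    show th (ψ e z) = ψ e (th z)
    rcases hcase z with ⟨e', he', rfl⟩ | ⟨e', he', rfl⟩ | ⟨e', he', rfl⟩ | ⟨e', he', rfl⟩ |
      ⟨h1, h2, h3, h4⟩
    · rw [t1 e' he', ← Equiv.Perm.mul_apply, ← map_mul, t1 _ (mul_mem he he'), hψj]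
    · rw [t2 e' he', ← Equiv.Perm.mul_apply, ← map_mul, t2 _ (mul_mem he he'), hψj, mul_assoc]
    · rw [t3 e' he', hψj, t3 _ (mul_mem he he'), map_mul, Equiv.Perm.mul_apply]
    · rw [t4 e' he', hψj, ← mul_assoc, t4 _ (mul_mem he he'), map_mul, Equiv.Perm.mul_apply]
    · rw [t5 z h1 h2 h3 h4]
      apply t5
      · intro e' he' h
        apply h1 _ (mul_mem (inv_mem he) he')
        rw [map_mul, Equiv.Perm.mul_apply, h, map_inv, Theta_ias]
      · intro e' he' h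
        apply h2 _ (mul_mem (inv_mem he) he')
        rw [map_mul, Equiv.Perm.mul_apply, h, map_inv, Theta_ias]
      · intro e' he' h
        apply h3 _ (mul_mem (inv_mem he) he')
        rw [← hψj, h, map_inv, Theta_ias]
      · intro e' he' h
        apply h4 _ (mul_mem (inv_mem he) he')
        rw [mul_assoc, ← hψj, h, map_inv, Theta_ias]
  · show th (ψ f (th x)) = y
    have h1 := t1 1 (one_mem E)
    rw [map_one] at h1
    have h1' : th x = j 1 := h1
    have h2 := t4 1 (one_mem E)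
    rw [map_one, one_mul] at h2
    rw [h1', hψj, mul_one, h2]
    rfl
  · intro z hz h1 h2
    exact t5 z h1 h2 (fun e he h => hz ⟨e, h⟩) (fun e he h => hz ⟨e * f, h⟩)
  · -- local finiteness
    set θ : Equiv.Perm X := hinv.toPerm with hθ
    have hex : ∀ g ∈ Subgroup.closure (Set.range ψ ∪ {θ}), ∃ F0 : Set Γ, F0.Finite ∧
        g ∈ Subgroup.closure (ψ '' F0 ∪ {θ}) := by
      intro g hg
      induction hg using Subgroup.closure_induction with
      | mem g hg =>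
        rcases hg with ⟨γ, rfl⟩ | hg
        · exact ⟨{γ}, Set.finite_singleton γ, Subgroup.subset_closure
            (Or.inl ⟨γ, rfl, rfl⟩)⟩
        · exact ⟨∅, Set.finite_empty, Subgroup.subset_closure (Or.inr hg)⟩
      | one => exact ⟨∅, Set.finite_empty, one_mem _⟩
      | mul a b _ _ iha ihb =>
        obtain ⟨F1, h1, h2⟩ := iha
        obtain ⟨F2, h3, h4⟩ := ihb
        refine ⟨F1 ∪ F2, h1.union h3, mul_mem ?_ ?_⟩
        · exact Subgroup.closure_mono (Set.union_subset_union_left _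
            (Set.image_mono Set.subset_union_left)) h2
        · exact Subgroup.closure_mono (Set.union_subset_union_left _
            (Set.image_mono Set.subset_union_right)) h4
      | inv a _ iha =>
        obtain ⟨F1, h1, h2⟩ := iha
        exact ⟨F1, h1, inv_mem h2⟩
    intro T hT
    choose! F0 hF0 hF0' using hex
    let FU : Set Γ := ⋃ g ∈ T, F0 g
    have hFU : FU.Finite := hT.biUnion fun g _ => hF0 g g.2
    have hFUfin := hΓ FU hFU
    obtain ⟨B, hB⟩ := Theta_bdd ψ j hj hψj E f hpr x y hx hy th t1 t2 t3 t4 t5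
      (Subgroup.closure FU) hFUfin
    have hDT : (ψ '' (Subgroup.closure FU : Set Γ) ∪ {θ}).Finite :=
      (hFUfin.image ψ).union (Set.finite_singleton θ)
    have hD := finite_of_bounded (ψ '' (Subgroup.closure FU : Set Γ) ∪ {θ}) hDT B (by
      intro z
      obtain ⟨S, h1, h2, h3, h4, h5⟩ := hB z
      refine ⟨S, h1, h2, h3, ?_⟩
      rintro g (⟨γ, hγ, rfl⟩ | hg) w
      · constructor
        · intro h
          have h6 := h4 γ⁻¹ (inv_mem hγ) _ h
          rw [map_inv, Theta_ias] at h6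
          exact h6
        · exact h4 γ hγ w
      · rw [Set.mem_singleton_iff] at hg
        rw [hg]
        show th w ∈ S ↔ w ∈ S
        constructor
        · intro h
          have h6 := h5 _ h
          rw [hinv] at h6
          exact h6
        · exact h5 w)
    have hsub : ∀ g ∈ Subgroup.closure T,
        (g : Equiv.Perm X) ∈ Subgroup.closure (ψ '' (Subgroup.closure FU : Set Γ) ∪ {θ}) := by
      intro g hg
      induction hg using Subgroup.closure_induction with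
      | mem g hg =>
        refine Subgroup.closure_mono (Set.union_subset_union_left _ (Set.image_mono ?_))
          (hF0' g g.2)
        intro γ hγ
        exact Subgroup.subset_closure (Set.mem_biUnion hg hγ)
      | one => exact one_mem _
      | mul a b _ _ iha ihb => exact mul_mem iha ihb
      | inv a _ iha => exact inv_mem iha
    refine Set.Finite.of_finite_image (f := Subtype.val) (hD.subset ?_)
      Subtype.val_injective.injOn
    rintro _ ⟨g, hg, rfl⟩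
    exact hsub g hg

end Pool.Agent.H17MCG
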