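import Pool.Agent.H17.MCG.Defs

/-!
# The twist group `(L/Z →₀ ZMod 2) ⋊ L`
-/

namespace Pool.Agent.H17MCG

open Cardinal Set

universe u

/-- the twist group -/
@[ext] structure Tw (L : Type u) [Group L] (Z : Subgroup L) where
  /-- first coordinate -/
  a : L ⧸ Z →₀ ZMod 2
  /-- second coordinate -/
  l : L

namespace Tw

variable {L : Type u} [Group L] {Z : Subgroup L}

/-- action of `L` on finitely supported functions -/
noncomputable def act (l : L) (a : L ⧸ Z →₀ ZMod 2) : L ⧸ Z →₀ ZMod 2 :=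
  Finsupp.equivMapDomain (MulAction.toPerm l) a

@[simp] lemma act_apply (l : L) (a : L ⧸ Z →₀ ZMod 2) (c : L ⧸ Z) :
    act l a c = a (l⁻¹ • c) := rfl

lemma act_one (a : L ⧸ Z →₀ ZMod 2) : act 1 a = a := by
  ext c; simp

lemma act_mul (l m : L) (a : L ⧸ Z →₀ ZMod 2) : act (l * m) a = act l (act m a) := by
  ext c; simp [mul_smul]

lemma act_add (l : L) (a b : L ⧸ Z →₀ ZMod 2) : act l (a + b) = act l a + act l b := by
  ext c; simp

lemma act_zero (l : L) : act l (0 : L ⧸ Z →₀ ZMod 2) = 0 := by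
  ext c; simp

lemma act_single (l m : L) :
    act l (Finsupp.single (m : L ⧸ Z) (1 : ZMod 2)) = Finsupp.single ((l * m : L) : L ⧸ Z) 1 := by
  rw [act, Finsupp.equivMapDomain_single]
  rfl

lemma add_self (a : L ⧸ Z →₀ ZMod 2) : a + a = 0 := by
  ext c; simp [CharTwo.add_self_eq_zero]

noncomputable instance : Mul (Tw L Z) := ⟨fun x y => ⟨x.a + act x.l y.a, x.l * y.l⟩⟩
noncomputable instance : One (Tw L Z) := ⟨⟨0, 1⟩⟩
noncomputable instance : Inv (Tw L Z) := ⟨fun x => ⟨act x.l⁻¹ x.a, x.l⁻¹⟩⟩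

lemma mul_a (x y : Tw L Z) : (x * y).a = x.a + act x.l y.a := rfl
lemma mul_l (x y : Tw L Z) : (x * y).l = x.l * y.l := rfl
lemma one_a : (1 : Tw L Z).a = 0 := rfl
lemma one_l : (1 : Tw L Z).l = 1 := rfl
lemma inv_a (x : Tw L Z) : x⁻¹.a = act x.l⁻¹ x.a := rfl
lemma inv_l (x : Tw L Z) : x⁻¹.l = x.l⁻¹ := rfl

noncomputable instance : Group (Tw L Z) := Group.ofLeftAxioms
  (by
    intro x y z
    refine Tw.ext ?_ ?_
    · simp only [mul_a, mul_l, act_add, act_mul, add_assoc]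
    · simp only [mul_l, mul_assoc])
  (by
    intro x
    refine Tw.ext ?_ ?_
    · simp only [mul_a, one_a, one_l, act_one, zero_add]
    · simp only [mul_l, one_l, one_mul])
  (by
    intro x
    refine Tw.ext ?_ ?_
    · simp only [mul_a, inv_a, inv_l, one_a, add_self]
    · simp only [mul_l, inv_l, one_l, inv_mul_cancel])

/-- projection -/
noncomputable def proj : Tw L Z →* L where
  toFun x := x.l
  map_one' := rfl
  map_mul' _ _ := rfl

/-- inclusion -/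
noncomputable def inc : L →* Tw L Z where
  toFun l := ⟨0, l⟩
  map_one' := rfl
  map_mul' x y := by
    refine Tw.ext ?_ ?_
    · simp only [mul_a, act_zero, add_zero]
    · simp only [mul_l]

/-- the twisting involution -/
noncomputable def v : Tw L Z := ⟨Finsupp.single ((1 : L) : L ⧸ Z) 1, 1⟩

lemma inc_a (l : L) : (inc l : Tw L Z).a = 0 := rfl
lemma inc_l (l : L) : (inc l : Tw L Z).l = l := rfl
lemma v_a : (v : Tw L Z).a = Finsupp.single ((1 : L) : L ⧸ Z) 1 := rfl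
lemma v_l : (v : Tw L Z).l = 1 := rfl

lemma v_mul_v : (v : Tw L Z) * v = 1 := by
  refine Tw.ext ?_ ?_
  · simp only [mul_a, v_a, v_l, act_one, add_self, one_a]
  · simp only [mul_l, v_l, one_l, one_mul]

lemma v_inv : (v : Tw L Z)⁻¹ = v := inv_eq_of_mul_eq_one_left v_mul_v

/-- the shape of a conjugate by `v` -/
lemma conj_a (x : Tw L Z) : (v * x * v⁻¹).a =
    Finsupp.single ((1 : L) : L ⧸ Z) 1 + x.a + Finsupp.single ((x.l : L) : L ⧸ Z) 1 := by
  rw [v_inv]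
  simp only [mul_a, mul_l, v_a, v_l, act_one, one_mul, act_single, mul_one]

lemma conj_l (x : Tw L Z) : (v * x * v⁻¹).l = x.l := by
  rw [v_inv]
  simp only [mul_l, v_l, one_mul, mul_one]

/-- elements with second coordinate in `F` and first coordinate supported on `S` -/
def box (F : Subgroup L) (S : Set (L ⧸ Z)) (hS : ∀ g ∈ F, ∀ c ∈ S, g • c ∈ S) :
    Subgroup (Tw L Z) where
  carrier := {x | x.l ∈ F ∧ ∀ c, x.a c ≠ 0 → c ∈ S}
  mul_mem' := by
    rintro x y ⟨hx, hx'⟩ ⟨hy, hy'⟩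
    refine ⟨mul_mem hx hy, ?_⟩
    intro c hc
    rw [mul_a, Finsupp.add_apply, act_apply] at hc
    by_cases h : x.a c = 0
    · rw [h, zero_add] at hc
      have := hS _ hx _ (hy' _ hc)
      rwa [smul_inv_smul] at this
    · exact hx' _ h
  one_mem' := ⟨one_mem _, fun c hc => absurd rfl hc⟩
  inv_mem' := by
    rintro x ⟨hx, hx'⟩
    refine ⟨inv_mem hx, ?_⟩
    intro c hc
    rw [inv_a, act_apply, inv_inv] at hc
    have := hS _ (inv_mem hx) _ (hx' _ hc)
    rwa [inv_smul_smul] at this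

lemma box_finite {F : Subgroup L} {S : Set (L ⧸ Z)} (hS : ∀ g ∈ F, ∀ c ∈ S, g • c ∈ S)
    (hF : (F : Set L).Finite) (hS' : S.Finite) : (box F S hS : Set (Tw L Z)).Finite := by
  haveI : Finite F := hF.to_subtype
  haveI : Finite S := hS'.to_subtype
  have hinj : Function.Injective (fun x : box F S hS =>
      (((fun c : S => x.1.a c), (⟨x.1.l, x.2.1⟩ : F)) : (S → ZMod 2) × F)) := by
    rintro ⟨x, hx⟩ ⟨y, hy⟩ h
    simp only [Prod.mk.injEq, Subtype.mk.injEq] at h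
    refine Subtype.ext (Tw.ext ?_ h.2)
    ext c
    by_cases hc : c ∈ S
    · exact congrFun h.1 ⟨c, hc⟩
    · have h1 : x.a c = 0 := by
        by_contra h0
        exact hc (hx.2 c h0)
      have h2 : y.a c = 0 := by
        by_contra h0
        exact hc (hy.2 c h0)
      rw [h1, h2]
  haveI : Finite (box F S hS) := Finite.of_injective _ hinj
  exact Set.toFinite _

/-- the cosets meeting a subgroup `K` -/
def cos (Z K : Subgroup L) : Set (L ⧸ Z) := {c | ∃ k ∈ K, (k : L ⧸ Z) = c}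

lemma cos_inv (K : Subgroup L) : ∀ g ∈ K, ∀ c ∈ cos Z K, g • c ∈ cos Z K := by
  rintro g hg _ ⟨k, hk, rfl⟩
  exact ⟨g * k, mul_mem hg hk, rfl⟩

/-- translates by an element outside are disjoint -/
lemma cos_disj {K : Subgroup L} (hZ : Z ≤ K) {f : L} (hf : f ∉ K) {c : L ⧸ Z}
    (hc : c ∈ cos Z K) (hc' : f⁻¹ • c ∈ cos Z K) : False := by
  obtain ⟨k, hk, rfl⟩ := hc
  obtain ⟨k', hk', h⟩ := hc'
  have h1 : ((k' : L) : L ⧸ Z) = ((f⁻¹ * k : L) : L ⧸ Z) := h
  rw [QuotientGroup.eq] at h1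
  apply hf
  have h2 : k'⁻¹ * (f⁻¹ * k) ∈ K := hZ h1
  have h3 : f⁻¹ * k ∈ K := by
    have := mul_mem hk' h2
    rwa [mul_inv_cancel_left] at this
  have h4 : f⁻¹ ∈ K := by
    have := mul_mem h3 (inv_mem hk)
    rwa [mul_inv_cancel_right] at this
  simpa using inv_mem h4

/-- projecting first coordinates to `L ⧸ R` -/
lemma map_act {R : Subgroup L} (h : Z ≤ R) (l : L) (a : L ⧸ Z →₀ ZMod 2) :
    Finsupp.mapDomain (Subgroup.quotientMapOfLE h) (act l a) =
      act l (Finsupp.mapDomain (Subgroup.quotientMapOfLE h) a) := by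
  rw [act, act, Finsupp.equivMapDomain_eq_mapDomain, Finsupp.equivMapDomain_eq_mapDomain,
    ← Finsupp.mapDomain_comp, ← Finsupp.mapDomain_comp]
  congr 1
  funext c
  induction c using QuotientGroup.induction_on with
  | H z => rfl

/-- elements whose first coordinate dies in `F2[L/R]` -/
noncomputable def kerR (R : Subgroup L) (h : Z ≤ R) : Subgroup (Tw L Z) where
  carrier := {x | Finsupp.mapDomain (Subgroup.quotientMapOfLE h) x.a = 0}
  mul_mem' := by
    intro x y hx hy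
    simp only [mem_setOf_eq] at hx hy ⊢
    rw [mul_a, Finsupp.mapDomain_add, map_act, hx, hy, act_zero, zero_add]
  one_mem' := by
    simp only [mem_setOf_eq]
    rw [one_a, Finsupp.mapDomain_zero]
  inv_mem' := by
    intro x hx
    simp only [mem_setOf_eq] at hx ⊢
    rw [inv_a, map_act, hx, act_zero]

lemma mem_kerR {R : Subgroup L} (h : Z ≤ R) (x : Tw L Z) :
    x ∈ kerR R h ↔ Finsupp.mapDomain (Subgroup.quotientMapOfLE h) x.a = 0 := Iff.rfl

lemma conj_inc_mem_kerR {R : Subgroup L} (h : Z ≤ R) (q : L) :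
    (v : Tw L Z) * inc q * v⁻¹ ∈ kerR R h ↔ q ∈ R := by
  rw [mem_kerR, conj_a, inc_a, inc_l, add_zero, Finsupp.mapDomain_add,
    Finsupp.mapDomain_single, Finsupp.mapDomain_single]
  have e1 : Subgroup.quotientMapOfLE h ((1 : L) : L ⧸ Z) = ((1 : L) : L ⧸ R) := rfl
  have e2 : Subgroup.quotientMapOfLE h ((q : L) : L ⧸ Z) = ((q : L) : L ⧸ R) := rfl
  rw [e1, e2]
  constructor
  · intro h0
    by_contra hq
    have hne : ((1 : L) : L ⧸ R) ≠ ((q : L) : L ⧸ R) := by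
      intro he
      rw [QuotientGroup.eq] at he
      simp only [inv_one, one_mul] at he
      exact hq he
    have := DFunLike.congr_fun h0 ((1 : L) : L ⧸ R)
    rw [Finsupp.add_apply, Finsupp.single_eq_same, Finsupp.single_eq_of_ne hne] at this
    simp at this
  · intro hq
    have he : ((1 : L) : L ⧸ R) = ((q : L) : L ⧸ R) := by
      rw [QuotientGroup.eq]
      simpa using hq
    rw [← he]
    exact add_self _

lemma le_kerR {R : Subgroup L} (h : Z ≤ R) :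
    (inc : L →* Tw L Z).range ⊔ R.map ((MulAut.conj (v : Tw L Z)).toMonoidHom.comp inc) ≤
      kerR R h := by
  rw [sup_le_iff]
  constructor
  · rintro _ ⟨l, rfl⟩
    rw [mem_kerR, inc_a, Finsupp.mapDomain_zero]
  · rintro _ ⟨r, hr, rfl⟩
    exact (conj_inc_mem_kerR h r).2 hr

/-- (b) -/
lemma partB {R : Subgroup L} (h : Z ≤ R) (q : L) (hq : (v : Tw L Z) * inc q * v⁻¹ ∈
    (inc : L →* Tw L Z).range ⊔ R.map ((MulAut.conj (v : Tw L Z)).toMonoidHom.comp inc)) :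
    q ∈ R :=
  (conj_inc_mem_kerR h q).1 (le_kerR h hq)

lemma single_mem_box {K : Subgroup L} {k : L} (hk : k ∈ K) (c : L ⧸ Z)
    (hc : (Finsupp.single (k : L ⧸ Z) (1 : ZMod 2)) c ≠ 0) : c ∈ cos Z K := by
  by_cases h : (k : L ⧸ Z) = c
  · exact ⟨k, hk, h⟩
  · exact absurd (Finsupp.single_eq_of_ne (fun h' => h h'.symm)) hc

lemma v_mem_box (K : Subgroup L) : (v : Tw L Z) ∈ box K (cos Z K) (cos_inv K) :=
  ⟨one_mem K, fun c hc => single_mem_box (one_mem K) c hc⟩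

lemma inc_mem_box {K : Subgroup L} {k : L} (hk : k ∈ K) :
    (inc k : Tw L Z) ∈ box K (cos Z K) (cos_inv K) :=
  ⟨hk, fun _ hc => absurd rfl hc⟩

/-- conjugation by `inc f` moves the box away -/
lemma key {K : Subgroup L} (hZ : Z ≤ K) {f : L} (hf : f ∉ K) {x y : Tw L Z}
    (hx : x ∈ box K (cos Z K) (cos_inv K)) (hy : y ∈ box K (cos Z K) (cos_inv K))
    (h : inc f * x * (inc f)⁻¹ = y) : x.a = 0 ∧ y.a = 0 := by
  have h1 : act f x.a = y.a := by
    rw [← h]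
    simp only [mul_a, mul_l, inc_a, inc_l, inv_a, act_zero, zero_add, add_zero]
  have h2 : ∀ c, y.a c = 0 := by
    intro c
    by_contra hc
    refine cos_disj hZ hf (hy.2 c hc) (hx.2 _ ?_)
    rw [← act_apply, h1]
    exact hc
  have h3 : y.a = 0 := by
    ext c
    rw [h2 c]
    rfl
  refine ⟨?_, h3⟩
  rw [← act_one x.a, ← inv_mul_cancel f, act_mul, h1, h3, act_zero]

/-- (c) -/
lemma partC (P R : Subgroup L) (hZ : Z ≤ R) (f : L) (hf : f ∉ P ⊔ R)
    (hp : ∀ u ∈ R, ∀ w ∈ R, f * u * f⁻¹ = w → u = 1) (g : Tw L Z)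
    (hg : g ∈ P.map inc ⊔ R.map ((MulAut.conj (v : Tw L Z)).toMonoidHom.comp inc))
    (g' : Tw L Z)
    (hg' : g' ∈ P.map inc ⊔ R.map ((MulAut.conj (v : Tw L Z)).toMonoidHom.comp inc))
    (h : (v * inc f * v⁻¹) * g * (v * inc f * v⁻¹)⁻¹ = g') : g = 1 := by
  have hZK : Z ≤ P ⊔ R := hZ.trans le_sup_right
  have hle : P.map inc ⊔ R.map ((MulAut.conj (v : Tw L Z)).toMonoidHom.comp inc) ≤
      box (P ⊔ R) (cos Z (P ⊔ R)) (cos_inv (P ⊔ R)) := by
    rw [sup_le_iff]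
    constructor
    · rintro _ ⟨p, hp', rfl⟩
      exact inc_mem_box (Subgroup.mem_sup_left hp')
    · rintro _ ⟨r, hr, rfl⟩
      exact mul_mem (mul_mem (v_mem_box _) (inc_mem_box (Subgroup.mem_sup_right hr)))
        (inv_mem (v_mem_box _))
  have hle2 : P.map inc ⊔ R.map ((MulAut.conj (v : Tw L Z)).toMonoidHom.comp inc) ≤
      (inc : L →* Tw L Z).range ⊔ R.map ((MulAut.conj (v : Tw L Z)).toMonoidHom.comp inc) :=
    sup_le_sup_right (by
      rintro _ ⟨p, _, rfl⟩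
      exact ⟨p, rfl⟩) _
  have hvv : (v : Tw L Z)⁻¹ = v := v_inv
  have h1 : inc f * (v * g * v⁻¹) * (inc f)⁻¹ = v * g' * v⁻¹ := by
    rw [← h]
    simp only [mul_inv_rev, inv_inv, mul_assoc, hvv]
    rw [← mul_assoc v v, v_mul_v, one_mul]
    simp only [mul_assoc, v_mul_v, mul_one]
  obtain ⟨h2, h3⟩ := key hZK hf
    (mul_mem (mul_mem (v_mem_box _) (hle hg)) (inv_mem (v_mem_box _)))
    (mul_mem (mul_mem (v_mem_box _) (hle hg')) (inv_mem (v_mem_box _))) h1
  have h4 : ∀ x : Tw L Z, (v * x * v⁻¹).a = 0 → x = v * inc x.l * v⁻¹ := by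
    intro x hx
    have e : v * x * v⁻¹ = inc x.l := by
      refine Tw.ext ?_ ?_
      · rw [hx, inc_a]
      · rw [conj_l, inc_l]
    rw [← e, hvv]
    simp only [mul_assoc, v_mul_v, mul_one]
    rw [← mul_assoc, v_mul_v, one_mul]
  have h5 := h4 g h2
  have h6 := h4 g' h3
  have h7 : g.l ∈ R := partB hZ g.l (by rw [← h5]; exact hle2 hg)
  have h8 : g'.l ∈ R := partB hZ g'.l (by rw [← h6]; exact hle2 hg')
  have h9 : f * g.l * f⁻¹ = g'.l := by
    have := congrArg Tw.l h1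
    rw [conj_l] at this
    rw [← this]
    simp only [mul_l, inv_l, inc_l, v_l, one_mul, inv_one, mul_one]
  have h10 := hp _ h7 _ h8 h9
  rw [h5, h10, map_one, mul_one, mul_inv_cancel]

/-- (d) -/
lemma partD (R : Subgroup L) (hZ : Z ≤ R) (f : L) (hf : f ∉ R)
    (hp : ∀ u ∈ R, ∀ w ∈ R, f * u * f⁻¹ = w → u = 1) (g : Tw L Z)
    (hg : g ∈ R.map inc ⊔ Subgroup.zpowers v) (g' : Tw L Z)
    (hg' : g' ∈ R.map inc ⊔ Subgroup.zpowers v)
    (h : inc f * g * (inc f)⁻¹ = g') : g = 1 := by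
  have hle : R.map inc ⊔ Subgroup.zpowers v ≤ box R (cos Z R) (cos_inv R) := by
    rw [sup_le_iff]
    constructor
    · rintro _ ⟨p, hp', rfl⟩
      exact inc_mem_box hp'
    · rw [Subgroup.zpowers_le]
      exact v_mem_box _
  obtain ⟨h2, h3⟩ := key hZ hf (hle hg) (hle hg') h
  have h9 : f * g.l * f⁻¹ = g'.l := by
    rw [← h]
    simp only [mul_l, inv_l, inc_l]
  have h10 := hp _ (hle hg).1 _ (hle hg').1 h9
  exact Tw.ext h2 h10

lemma locFin (hL : LocFin L) : LocFin (Tw L Z) := by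
  intro T hT
  have hF := hL (Tw.l '' T) (hT.image _)
  set F := Subgroup.closure (Tw.l '' T) with hFdef
  let S0 : Set (L ⧸ Z) := ⋃ x ∈ T, (x.a.support : Set (L ⧸ Z))
  have hS0 : S0.Finite := hT.biUnion (fun x _ => Finset.finite_toSet _)
  let S : Set (L ⧸ Z) := Set.image2 (fun g c => g • c) (F : Set L) S0
  have hSf : S.Finite := hF.image2 _ hS0
  have hS : ∀ g ∈ F, ∀ c ∈ S, g • c ∈ S := by
    rintro g hg _ ⟨k, hk, c, hc, rfl⟩
    exact ⟨g * k, mul_mem hg hk, c, hc, mul_smul _ _ _⟩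
  refine (box_finite hS hF hSf).subset ?_
  have : Subgroup.closure T ≤ box F S hS := by
    rw [Subgroup.closure_le]
    intro x hx
    refine ⟨Subgroup.subset_closure ⟨x, hx, rfl⟩, ?_⟩
    intro c hc
    refine ⟨1, one_mem _, c, ?_, one_smul _ _⟩
    exact Set.mem_biUnion hx (Finsupp.mem_support_iff.2 hc)
  exact this

lemma card_le : #(Tw L Z) ≤ max ℵ₀ #L := by
  have h1 : #(Tw L Z) ≤ #(Finset (L ⧸ Z) × L) := by
    refine Cardinal.mk_le_of_injective (f := fun x : Tw L Z => (x.a.support, x.l)) ?_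
    intro x y h
    simp only [Prod.mk.injEq] at h
    refine Tw.ext ?_ h.2
    ext c
    have h2 : ∀ t : ZMod 2, t = 0 ∨ t = 1 := by decide
    have h3 : (x.a c ≠ 0) ↔ (y.a c ≠ 0) := by
      rw [← Finsupp.mem_support_iff, ← Finsupp.mem_support_iff, h.1]
    rcases h2 (x.a c) with hx | hx <;> rcases h2 (y.a c) with hy | hy <;>
      simp [hx, hy] at h3 ⊢
  have h2 : #(Finset (L ⧸ Z)) ≤ max ℵ₀ #L := by
    by_cases hfin : Finite (L ⧸ Z)
    · exact (Cardinal.lt_aleph0_of_finite _).le.trans (le_max_left _ _)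
    · haveI : Infinite (L ⧸ Z) := not_finite_iff_infinite.1 hfin
      rw [Cardinal.mk_finset_of_infinite]
      exact (Cardinal.mk_le_of_surjective
        (f := fun l : L => (l : L ⧸ Z)) Quotient.mk_surjective).trans (le_max_right _ _)
  refine h1.trans ?_
  rw [Cardinal.mk_prod, Cardinal.lift_id, Cardinal.lift_id]
  refine (mul_le_mul' h2 (le_max_right ℵ₀ #L)).trans ?_
  rw [Cardinal.mul_eq_self (le_max_left _ _)]

end Tw

/-- Lemma T (single twist). `M = (L ⧸ Z →₀ ZMod 2) ⋊ L`, `ι l = (0,l)`, `v = (δ_Z,1)`. -/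
theorem twist {L : Type u} [Group L] (hL : LocFin L) (Z : Subgroup L) :
    ∃ (M : Type u) (_ : Group M) (π : M →* L) (ι : L →* M) (v : M),
      LocFin M ∧ #M ≤ max ℵ₀ #L ∧ (∀ x, π (ι x) = x) ∧ π v = 1 ∧ v * v = 1 ∧
      (∀ z ∈ Z, v * ι z = ι z * v) ∧
      (∀ l l', v * ι l * v⁻¹ = ι l' → l ∈ Z ∧ l = l') ∧
      (∀ R : Subgroup L, Z ≤ R → ∀ q, v * ι q * v⁻¹ ∈
        ι.range ⊔ R.map ((MulAut.conj v).toMonoidHom.comp ι) → q ∈ R) ∧
      (∀ P R : Subgroup L, Z ≤ R → ∀ f, f ∉ P ⊔ R →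
        (∀ u ∈ R, ∀ w ∈ R, f * u * f⁻¹ = w → u = 1) →
        ∀ g ∈ P.map ι ⊔ R.map ((MulAut.conj v).toMonoidHom.comp ι),
        ∀ g' ∈ P.map ι ⊔ R.map ((MulAut.conj v).toMonoidHom.comp ι),
        (v * ι f * v⁻¹) * g * (v * ι f * v⁻¹)⁻¹ = g' → g = 1) ∧
      (∀ R : Subgroup L, Z ≤ R → ∀ f, f ∉ R →
        (∀ u ∈ R, ∀ w ∈ R, f * u * f⁻¹ = w → u = 1) →
        ∀ g ∈ R.map ι ⊔ Subgroup.zpowers v, ∀ g' ∈ R.map ι ⊔ Subgroup.zpowers v,
        ι f * g * (ι f)⁻¹ = g' → g = 1) ∧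
      v ∉ ι.range := by
  refine ⟨Tw L Z, inferInstance, Tw.proj, Tw.inc, Tw.v, Tw.locFin hL, Tw.card_le,
    fun _ => rfl, rfl, Tw.v_mul_v, ?_, ?_, fun R h q hq => Tw.partB h q hq,
    fun P R hZ f hf hp g hg g' hg' h => Tw.partC P R hZ f hf hp g hg g' hg' h,
    fun R hZ f hf hp g hg g' hg' h => Tw.partD R hZ f hf hp g hg g' hg' h, ?_⟩
  · intro z hz
    refine Tw.ext ?_ ?_
    · simp only [Tw.mul_a, Tw.inc_a, Tw.inc_l, Tw.act_zero, add_zero, zero_add, Tw.v_a,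
        Tw.act_single, mul_one]
      have : ((1 : L) : L ⧸ Z) = ((z : L) : L ⧸ Z) := by
        rw [QuotientGroup.eq]
        simpa using hz
      rw [this]
    · simp only [Tw.mul_l, Tw.v_l, one_mul, mul_one]
  · intro l l' h
    have h1 := congrArg Tw.l h
    rw [Tw.conj_l, Tw.inc_l, Tw.inc_l] at h1
    refine ⟨?_, h1⟩
    refine (Tw.conj_inc_mem_kerR (le_refl Z) l).1 ?_
    rw [h, Tw.mem_kerR, Tw.inc_a, Finsupp.mapDomain_zero]
  · rintro ⟨l, hl⟩
    have h1 := congrArg Tw.a hl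
    rw [Tw.inc_a, Tw.v_a] at h1
    have := DFunLike.congr_fun h1 ((1 : L) : L ⧸ Z)
    rw [Finsupp.single_eq_same] at this
    simp at this

/-- Lemma D (double twist). -/
theorem doubleTwist {K : Type u} [Group K] (hK : LocFin K) (Z : Subgroup K) :
    ∃ (M : Type u) (_ : Group M) (π : M →* K) (iP iQ : K →* M),
      LocFin M ∧ #M ≤ max ℵ₀ #K ∧ (∀ x, π (iP x) = x) ∧ (∀ x, π (iQ x) = x) ∧
      (∀ z ∈ Z, iP z = iQ z) ∧
      ∀ R : Subgroup K, Z ≤ R → ∀ f, f ∉ R →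
        (∀ u ∈ R, ∀ w ∈ R, f * u * f⁻¹ = w → u = 1) →
        iQ f ∉ iP.range ⊔ R.map iQ ∧
        ∀ g ∈ iP.range ⊔ R.map iQ, ∀ g' ∈ iP.range ⊔ R.map iQ,
          iQ f * g * (iQ f)⁻¹ = g' → g = 1 := by
  obtain ⟨M1, _, π1, ι1, v1, lf1, card1, sec1, πv1, vv1, comm1, -, b1, -, -, -⟩ := twist hK Z
  obtain ⟨M, _, π2, ι2, v2, lf2, card2, sec2, πv2, vv2, comm2, -, b2, c2, -, -⟩ :=
    twist lf1 (Z.map ι1)
  let j1 : K →* M1 := (MulAut.conj v1).toMonoidHom.comp ι1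
  let j2 : M1 →* M := (MulAut.conj v2).toMonoidHom.comp ι2
  have hj1 : ∀ x, j1 x = v1 * ι1 x * v1⁻¹ := fun _ => rfl
  have hj2 : ∀ x, j2 x = v2 * ι2 x * v2⁻¹ := fun _ => rfl
  refine ⟨M, inferInstance, π1.comp π2, ι2.comp ι1, j2.comp j1, lf2, ?_, ?_, ?_, ?_, ?_⟩
  · refine card2.trans (max_le (le_max_left _ _) card1)
  · intro x
    simp only [MonoidHom.comp_apply, sec2, sec1]
  · intro x
    simp only [MonoidHom.comp_apply, hj1, hj2, map_mul, map_inv, sec2, sec1, πv2, πv1, one_mul,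
      inv_one, mul_one, map_one]
  · intro z hz
    simp only [MonoidHom.comp_apply, hj1, hj2]
    rw [comm1 z hz, mul_inv_cancel_right, comm2 (ι1 z) ⟨z, hz, rfl⟩, mul_inv_cancel_right]
  · intro R hZR f hf hp
    have hf1 : j1 f ∉ ι1.range ⊔ R.map j1 := fun h => hf (b1 R hZR f h)
    have hZ1 : Z.map ι1 ≤ R.map j1 := by
      rintro _ ⟨z, hz, rfl⟩
      refine ⟨z, hZR hz, ?_⟩
      rw [hj1, comm1 z hz, mul_inv_cancel_right]
    have hrange : (ι2.comp ι1).range = ι1.range.map ι2 := by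
      rw [MonoidHom.range_comp]
    have hmap : R.map (j2.comp j1) = (R.map j1).map j2 := by
      rw [Subgroup.map_map]
    rw [hrange, hmap]
    constructor
    · intro h
      refine hf1 (Subgroup.mem_sup_right (b2 (R.map j1) hZ1 (j1 f) ?_))
      have hle : ι1.range.map ι2 ≤ ι2.range := by
        rintro _ ⟨p, _, rfl⟩
        exact ⟨p, rfl⟩
      exact sup_le_sup_right hle _ h
    · refine c2 ι1.range (R.map j1) hZ1 (j1 f) hf1 ?_
      rintro _ ⟨u, hu, rfl⟩ _ ⟨w, hw, rfl⟩ h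
      have hu1 : u = 1 := by
        refine hp u hu w hw ?_
        have h1 : j1 (f * u * f⁻¹) = j1 w := by
          rw [map_mul, map_mul, map_inv]
          exact h
        have h2 := congrArg π1 h1
        simpa only [hj1, map_mul, map_inv, sec1, πv1, one_mul, inv_one, mul_one] using h2
      rw [hu1, map_one]

end Pool.Agent.H17MCG
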