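import Pool.Agent.H17.MCG.Build
import Pool.Agent.H17.MCG.Twist
import Pool.Agent.H17.MCG.Theta

/-!
# The amalgamation lemma
-/

namespace Pool.Agent.H17MCG

open Cardinal Set

universe u

theorem card_closure_lt {G : Type u} [Group G] {κ : Cardinal.{u}} (hκ : ℵ₀ < κ) (T : Set G)
    (hT : #T < κ) : #(Subgroup.closure T) < κ := by
  have h1 : Subgroup.closure T = (FreeGroup.lift (Subtype.val : T → G)).range := by
    rw [FreeGroup.range_lift_eq_closure, Subtype.range_coe]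
  have h2 : #(Subgroup.closure T) ≤ #(FreeGroup T) := by
    rw [h1]
    exact mk_range_le
  refine lt_of_le_of_lt h2 ?_
  rcases isEmpty_or_nonempty T with h | h
  · exact lt_of_le_of_lt (mk_le_aleph0) hκ
  · rw [mk_freeGroup]
    exact max_lt hT hκ

theorem eqOn_W {Λ G : Type*} [Group G] {t : Set Λ} {a b : FreeGroup Λ →* G}
    (h : ∀ i ∈ t, a (FreeGroup.of i) = b (FreeGroup.of i)) {u : FreeGroup Λ} (hu : u ∈ W t) :
    a u = b u := by
  refine MonoidHom.eqOn_closure (s := FreeGroup.of '' t) ?_ hu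
  rintro _ ⟨i, hi, rfl⟩
  exact h i hi

theorem W_le_iff {Λ : Type*} {t : Set Λ} {H : Subgroup (FreeGroup Λ)} :
    W t ≤ H ↔ ∀ i ∈ t, FreeGroup.of i ∈ H := by
  rw [W, Subgroup.closure_le]
  constructor
  · intro h i hi
    exact h ⟨i, hi, rfl⟩
  · rintro h _ ⟨i, hi, rfl⟩
    exact h i hi

theorem amalgamate {κ : Cardinal.{u}} {Λ X : Type u} [LinearOrder Λ] (hκ : ℵ₀ < κ) (hX : #X = κ)
    (a q q' : Cond κ Λ X) (haq : a ≤ q') (hA : q.A = q'.A) (α : Λ) (hα : α ∈ q.s)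
    (ha : ∀ i ∈ a.s, i < α) (σ : Λ → Λ) (hσ0 : ∀ i ∈ q.s, i < α → σ i = i)
    (hσ1 : ∀ i ∈ q.s, σ i ∈ q'.s) (hσf : ∀ i ∈ q.s, q'.f (σ i) = q.f i)
    (x y : X) (hx : x ∈ a.A) (hxq : x ∉ q.A) (hy : y ∈ a.A) (hyq : y ∉ q.A)
    (hxy : ∀ u ∈ W (q.s ∩ Iio α), a.φ u x ≠ y) :
    ∃ r, r ≤ a ∧ r ≤ q ∧ x ∈ r.A ∧ α ∈ r.s ∧ r.f α x = y := by
  classical
  set s₀ : Set Λ := q.s ∩ Iio α with hs₀
  have hs₀q' : s₀ ⊆ q'.s := by
    rintro i ⟨hi, hi'⟩
    rw [← hσ0 i hi hi']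
    exact hσ1 i hi
  have hs₀a : s₀ ⊆ a.s := hs₀q'.trans haq.1
  have hs₀q : s₀ ⊆ q.s := inter_subset_left
  let S : FreeGroup Λ →* FreeGroup Λ := FreeGroup.map σ
  -- facts on words
  have F1 : ∀ u ∈ W q.s, q'.φ (S u) = q.φ u := by
    intro u hu
    refine eqOn_W (a := q'.φ.comp S) (b := q.φ) ?_ hu
    intro i hi
    simp [S, hσf i hi]
  have F2 : ∀ u ∈ W q.s, S u ∈ W q'.s := by
    have : W q.s ≤ (W q'.s).comap S := by
      rw [W_le_iff]
      intro i hi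
      rw [Subgroup.mem_comap]
      simpa [S] using of_mem_W (hσ1 i hi)
    exact this
  have F3 : ∀ u ∈ W s₀, S u = u := by
    intro u hu
    refine eqOn_W (a := S) (b := MonoidHom.id _) ?_ hu
    intro i hi
    simp [S, hσ0 i hi.1 hi.2]
  have F4 : ∀ u ∈ W q.s, (a.φ (S u) = 1 ↔ q.φ u = 1) := by
    intro u hu
    rw [← F1 u hu]
    exact haq.ker (F2 u hu)
  -- the group Γ
  let Γ := a.φ.range
  let ρ : FreeGroup Λ →* Γ := a.φ.rangeRestrict
  have hρ : ∀ u, ((ρ u : Γ) : Equiv.Perm X) = a.φ u := fun u => rfl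
  have hρ1 : ∀ u, ρ u = 1 ↔ a.φ u = 1 := by
    intro u
    rw [Subtype.ext_iff]; rfl
  let E : Subgroup Γ := (W s₀).map ρ
  let f : Γ := ρ (FreeGroup.of (σ α))
  have hαW : FreeGroup.of α ∈ W q.s := of_mem_W hα
  have hSα : S (FreeGroup.of α) = FreeGroup.of (σ α) := by simp [S]
  obtain ⟨j, hj, hjA⟩ := exists_emb hκ.le hX (a.card_range hκ) a.A a.hA
  have hΓsupp : ∀ g : Γ, Γ.subtype g ∈ suppIn a.A := by
    rintro ⟨_, u, rfl⟩
    exact a.φ_mem u
  obtain ⟨ψ₀, hψ1, hψ2, hψ3⟩ := exists_combined_action a.A Γ.subtype hΓsupp j hj hjA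
  have hψ1' : ∀ u, ∀ z ∈ a.A, ψ₀ (ρ u) z = a.φ u z := fun u z hz => hψ1 (ρ u) z hz
  have hψinj : Function.Injective ψ₀ := by
    rw [injective_iff_map_eq_one]
    intro m hm
    have h1 := hψ2 m 1
    rw [hm] at h1
    have h2 := hj h1
    simpa using h2.symm
  have hfE : f ∉ E := by
    rintro ⟨u, hu, huf⟩
    have h1 : a.φ (S (FreeGroup.of α * u⁻¹)) = 1 := by
      rw [map_mul, map_inv, F3 u hu, hSα, ← hρ1, map_mul, map_inv, huf, mul_inv_cancel]
    rw [F4 _ (mul_mem hαW (inv_mem (W_mono hs₀q hu))), map_mul, map_inv, mul_inv_eq_one,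
      Cond.φ_of] at h1
    exact q.pr1 α hα u hu h1
  have hpr : ∀ u ∈ E, ∀ w ∈ E, f * u * f⁻¹ = w → u = 1 := by
    rintro _ ⟨u, hu, rfl⟩ _ ⟨w, hw, rfl⟩ h
    have h1 : a.φ (S (FreeGroup.of α * u * (FreeGroup.of α)⁻¹ * w⁻¹)) = 1 := by
      rw [← hρ1]
      simp only [map_mul, map_inv]
      rw [F3 u hu, F3 w hw, hSα, mul_inv_eq_one]
      exact h
    have huq := W_mono hs₀q hu
    have hwq := W_mono hs₀q hw
    rw [F4 _ (mul_mem (mul_mem (mul_mem hαW huq) (inv_mem hαW)) (inv_mem hwq)), map_mul, map_mul,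
      map_mul, map_inv, map_inv, mul_inv_eq_one, Cond.φ_of] at h1
    have h2 := q.pr2 α hα u hu w hw h1
    have h3 := (F4 u huq).2 h2
    rw [F3 u hu] at h3
    exact (hρ1 u).2 h3
  have hfreeE : ∀ z ∈ a.A, z ∉ q.A → ∀ g ∈ E, ψ₀ g z = z → g = 1 := by
    rintro z hz hzq _ ⟨u, hu, rfl⟩ h
    rw [hψ1' u z hz] at h
    have hu' := W_mono hs₀q' hu
    rw [haq.2.2.2 u hu' z hz (hA ▸ hzq), ← haq.ker hu'] at h
    exact (hρ1 u).2 h
  have hxr : x ∉ range j := by rintro ⟨g, rfl⟩; exact hjA g hx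
  have hyr : y ∉ range j := by rintro ⟨g, rfl⟩; exact hjA g hy
  obtain ⟨θ, hθ1, hθ2, hθ3, hθ4, hθ5⟩ := theta (Cond.locFin_range a) ψ₀ j hj hψ2 E f hfE hpr x y
    hxr hyr (hfreeE x hx hxq) (hfreeE y hy hyq)
    (by
      rintro _ ⟨u, hu, rfl⟩ h
      rw [hψ1' u x hx] at h
      exact hxy u hu h)
  -- θ fixes q.A and is supported on A₁
  set A₁ : Set X := a.A ∪ range j with hA₁
  have hqA : q.A ⊆ a.A := by rw [hA]; exact haq.2.1
  have hEq : ∀ g ∈ E, ∀ z ∈ a.A, z ∉ q.A → ψ₀ g z ∉ q.A := by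
    rintro _ ⟨u, hu, rfl⟩ z hz hzq h
    rw [hψ1' u z hz] at h
    have hu' := inv_mem (W_mono hs₀q' hu)
    have h1 := haq.agree hu' (hA ▸ h)
    have h2 : a.φ u⁻¹ (a.φ u z) = z := by rw [map_inv]; simp
    rw [h2] at h1
    have h3 : q'.φ u⁻¹ (a.φ u z) ∈ q'.A := (q'.φ_mem_iff _ _).2 (hA ▸ h)
    rw [← h1, ← hA] at h3
    exact hzq h3
  have hθq : ∀ z ∈ q.A, θ z = z := by
    intro z hz
    apply hθ4
    · rintro ⟨g, rfl⟩; exact hjA g (hqA hz)
    · intro g hg h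
      exact hEq g hg x hx hxq (h ▸ hz)
    · intro g hg h
      exact hEq g hg y hy hyq (h ▸ hz)
  have hψ₀A : ∀ g, ψ₀ g ∈ suppIn A₁ := by
    intro g z hz
    rw [hA₁, mem_union, not_or] at hz
    exact hψ3 g z hz.1 hz.2
  have hψ₀a : ∀ g, ∀ z ∈ a.A, ψ₀ g z ∈ a.A := by
    rintro ⟨_, u, rfl⟩ z hz
    have := hψ1' u z hz
    have h2 := (a.φ_mem_iff u z).2 hz
    rw [← this] at h2
    exact h2
  have hθA : θ ∈ suppIn A₁ := by
    intro z hz
    rw [hA₁, mem_union, not_or] at hz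
    apply hθ4 z hz.2
    · intro g _ h
      exact hz.1 (h ▸ hψ₀a g x hx)
    · intro g _ h
      exact hz.1 (h ▸ hψ₀a g y hy)
  -- the group K
  let K : Subgroup (Equiv.Perm X) := Subgroup.closure (Set.range ψ₀ ∪ {θ})
  have hKA : K ≤ suppIn A₁ := by
    show Subgroup.closure _ ≤ _
    rw [Subgroup.closure_le]
    rintro _ (⟨g, rfl⟩ | h)
    · exact hψ₀A g
    · rw [mem_singleton_iff] at h
      rw [h]; exact hθA
  have hKcard : #K < κ := by
    apply card_closure_lt hκ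
    refine lt_of_le_of_lt (mk_union_le _ _) (add_lt_of_lt hκ.le ?_ ?_)
    · exact lt_of_le_of_lt mk_range_le (a.card_range hκ)
    · rw [mk_singleton]; exact lt_trans one_lt_aleph0 hκ
  let pK : Γ →* K := ψ₀.codRestrict K (fun g => Subgroup.subset_closure (Or.inl ⟨g, rfl⟩))
  have hpK : ∀ g, ((pK g : K) : Equiv.Perm X) = ψ₀ g := fun g => rfl
  have hpKinj : Function.Injective pK := by
    intro g g' h
    apply hψinj
    rw [← hpK, ← hpK, h]
  let θK : K := ⟨θ, Subgroup.subset_closure (Or.inr rfl)⟩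
  let FK : FreeGroup Λ →* K := (MulAut.conj θK).toMonoidHom.comp (pK.comp (ρ.comp S))
  have hFK : ∀ u, FK u = θK * pK (ρ (S u)) * θK⁻¹ := fun u => rfl
  have hFK0 : ∀ u ∈ W s₀, FK u = pK (ρ u) := by
    intro u hu
    rw [hFK, F3 u hu, mul_inv_eq_iff_eq_mul]
    apply Subtype.ext
    ext z
    exact hθ1 (ρ u) ⟨u, hu, rfl⟩ z
  have hFKker : ∀ u ∈ W q.s, (FK u = 1 ↔ q.φ u = 1) := by
    intro u hu
    rw [hFK, conj_eq_one_iff, ← F4 u hu, ← hρ1]
    exact map_eq_one_iff pK hpKinj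
  let Z : Subgroup K := E.map pK
  obtain ⟨M, _, π, iP, iQ, hMlf, hMc, hπP, hπQ, hPQ, hD⟩ := doubleTwist hθ5 Z
  have hMcard : #M < κ := lt_of_le_of_lt hMc (max_lt hκ hKcard)
  have hiP : Function.Injective iP := Function.LeftInverse.injective hπP
  have hiQ : Function.Injective iQ := Function.LeftInverse.injective hπQ
  let e : Λ → M := fun i => if i ∈ a.s then iP (pK (ρ (FreeGroup.of i))) else
    if i ∈ q.s then iQ (FK (FreeGroup.of i)) else 1
  have he0 : ∀ i ∉ a.s ∪ q.s, e i = 1 := by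
    intro i hi
    rw [mem_union, not_or] at hi
    simp only [e, if_neg hi.1, if_neg hi.2]
  have he1 : ∀ i ∈ a.s, e i = iP (pK (ρ (FreeGroup.of i))) := by
    intro i hi
    simp only [e, if_pos hi]
  have he2 : ∀ i ∈ q.s, e i = iQ (FK (FreeGroup.of i)) := by
    intro i hi
    by_cases hia : i ∈ a.s
    · have hi0 : i ∈ s₀ := ⟨hi, ha i hia⟩
      rw [he1 i hia, hFK0 _ (of_mem_W hi0)]
      apply hPQ
      exact ⟨ρ (FreeGroup.of i), ⟨_, of_mem_W hi0, rfl⟩, rfl⟩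
    · simp only [e, if_neg hia, if_pos hi]
  have hl1 : ∀ u ∈ W a.s, FreeGroup.lift e u = iP (pK (ρ u)) := by
    intro u hu
    refine eqOn_W (a := FreeGroup.lift e) (b := iP.comp (pK.comp ρ)) ?_ hu
    intro i hi
    rw [FreeGroup.lift_apply_of, he1 i hi]; rfl
  have hl2 : ∀ u ∈ W q.s, FreeGroup.lift e u = iQ (FK u) := by
    intro u hu
    refine eqOn_W (a := FreeGroup.lift e) (b := iQ.comp FK) ?_ hu
    intro i hi
    rw [FreeGroup.lift_apply_of, he2 i hi]; rfl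
  have hk1 : ∀ u ∈ W a.s, (FreeGroup.lift e u = 1 ↔ a.φ u = 1) := by
    intro u hu
    rw [hl1 u hu, map_eq_one_iff iP hiP, map_eq_one_iff pK hpKinj, hρ1]
  have hk2 : ∀ u ∈ W q.s, (FreeGroup.lift e u = 1 ↔ q.φ u = 1) := by
    intro u hu
    rw [hl2 u hu, map_eq_one_iff iQ hiQ, hFKker u hu]
  -- the promises
  have hlow : ∀ b ∈ a.s, (a.s ∪ q.s) ∩ Iio b ⊆ a.s ∩ Iio b := by
    rintro b hb i ⟨hi | hi, hib⟩
    · exact ⟨hi, hib⟩
    · exact ⟨hs₀a ⟨hi, lt_trans hib (ha b hb)⟩, hib⟩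
  have hhigh : ∀ b ∈ q.s, b ∉ a.s → α ≤ b := by
    intro b hb hba
    by_contra h
    exact hba (hs₀a ⟨hb, not_le.1 h⟩)
  have hDb : ∀ b ∈ q.s, b ∉ a.s →
      (∀ w ∈ W ((a.s ∪ q.s) ∩ Iio b), FreeGroup.lift e w ∈
        iP.range ⊔ ((W (q.s ∩ Iio b)).map FK).map iQ) ∧
      iQ (FK (FreeGroup.of b)) ∉ iP.range ⊔ ((W (q.s ∩ Iio b)).map FK).map iQ ∧
        ∀ g ∈ iP.range ⊔ ((W (q.s ∩ Iio b)).map FK).map iQ,
        ∀ g' ∈ iP.range ⊔ ((W (q.s ∩ Iio b)).map FK).map iQ,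
          iQ (FK (FreeGroup.of b)) * g * (iQ (FK (FreeGroup.of b)))⁻¹ = g' → g = 1 := by
    intro b hb hba
    have hαb := hhigh b hb hba
    refine ⟨?_, ?_⟩
    · have : W ((a.s ∪ q.s) ∩ Iio b) ≤
          (iP.range ⊔ ((W (q.s ∩ Iio b)).map FK).map iQ).comap (FreeGroup.lift e) := by
        rw [W_le_iff]
        rintro i ⟨hi, hib⟩
        rw [Subgroup.mem_comap, FreeGroup.lift_apply_of]
        rcases hi with hi | hi
        · rw [he1 i hi]
          exact Subgroup.mem_sup_left ⟨_, rfl⟩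
        · rw [he2 i hi]
          exact Subgroup.mem_sup_right ⟨_, ⟨_, of_mem_W ⟨hi, hib⟩, rfl⟩, rfl⟩
      exact this
    · apply hD
      · rintro _ ⟨_, ⟨u, hu, rfl⟩, rfl⟩
        refine ⟨u, W_mono ?_ hu, hFK0 u hu⟩
        rintro i ⟨hi, hi'⟩
        exact ⟨hi, lt_of_lt_of_le hi' hαb⟩
      · rintro ⟨u, hu, h⟩
        have hu' : u ∈ W q.s := W_mono inter_subset_left hu
        have h1 : FK (FreeGroup.of b * u⁻¹) = 1 := by
          rw [map_mul, map_inv, h, mul_inv_cancel]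
        rw [hFKker _ (mul_mem (of_mem_W hb) (inv_mem hu')), map_mul, map_inv, mul_inv_eq_one,
          Cond.φ_of] at h1
        exact q.pr1 b hb u hu h1
      · rintro _ ⟨u, hu, rfl⟩ _ ⟨w, hw, rfl⟩ h
        have hu' : u ∈ W q.s := W_mono inter_subset_left hu
        have hw' : w ∈ W q.s := W_mono inter_subset_left hw
        have h1 : FK (FreeGroup.of b * u * (FreeGroup.of b)⁻¹ * w⁻¹) = 1 := by
          rw [map_mul, map_mul, map_mul, map_inv, map_inv, h, mul_inv_cancel]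
        rw [hFKker _ (mul_mem (mul_mem (mul_mem (of_mem_W hb) hu') (inv_mem (of_mem_W hb)))
          (inv_mem hw')), map_mul, map_mul, map_mul, map_inv, map_inv, mul_inv_eq_one,
          Cond.φ_of] at h1
        exact (hFKker u hu').2 (q.pr2 b hb u hu w hw h1)
  have hpr1 : ∀ b ∈ a.s ∪ q.s, ∀ u ∈ W ((a.s ∪ q.s) ∩ Iio b), e b ≠ FreeGroup.lift e u := by
    intro b hb u hu h
    by_cases hba : b ∈ a.s
    · have hu' := W_mono (hlow b hba) hu
      have hu'' : u ∈ W a.s := W_mono inter_subset_left hu'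
      have h1 : FreeGroup.lift e (FreeGroup.of b * u⁻¹) = 1 := by
        rw [map_mul, map_inv, FreeGroup.lift_apply_of, h, mul_inv_cancel]
      rw [hk1 _ (mul_mem (of_mem_W hba) (inv_mem hu'')), map_mul, map_inv, mul_inv_eq_one,
          Cond.φ_of] at h1
      exact a.pr1 b hba u hu' h1
    · have hbq : b ∈ q.s := hb.resolve_left hba
      obtain ⟨h1, h2, _⟩ := hDb b hbq hba
      apply h2
      rw [← he2 b hbq, h]
      exact h1 u hu
  have hpr2 : ∀ b ∈ a.s ∪ q.s, ∀ u ∈ W ((a.s ∪ q.s) ∩ Iio b),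
      ∀ v ∈ W ((a.s ∪ q.s) ∩ Iio b), e b * FreeGroup.lift e u * (e b)⁻¹ = FreeGroup.lift e v →
      FreeGroup.lift e u = 1 := by
    intro b hb u hu w hw h
    by_cases hba : b ∈ a.s
    · have hu' := W_mono (hlow b hba) hu
      have hu'' : u ∈ W a.s := W_mono inter_subset_left hu'
      have hw' := W_mono (hlow b hba) hw
      have hw'' : w ∈ W a.s := W_mono inter_subset_left hw'
      have hbW : FreeGroup.of b ∈ W a.s := of_mem_W hba
      have h1 : FreeGroup.lift e (FreeGroup.of b * u * (FreeGroup.of b)⁻¹ * w⁻¹) = 1 := by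
        rw [map_mul, map_mul, map_mul, map_inv, map_inv, FreeGroup.lift_apply_of, h,
          mul_inv_cancel]
      rw [hk1 _ (mul_mem (mul_mem (mul_mem hbW hu'') (inv_mem hbW)) (inv_mem hw'')), map_mul,
        map_mul, map_mul, map_inv, map_inv, mul_inv_eq_one, Cond.φ_of] at h1
      exact (hk1 u hu'').2 (a.pr2 b hba u hu' w hw' h1)
    · have hbq : b ∈ q.s := hb.resolve_left hba
      obtain ⟨h1, _, h3⟩ := hDb b hbq hba
      rw [he2 b hbq] at h
      exact h3 _ (h1 u hu) _ (h1 w hw) h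
  -- the action
  let ψ : M →* Equiv.Perm X := K.subtype.comp π
  have hψ : ∀ m, ψ m ∈ suppIn A₁ := fun m => hKA (π m).2
  have hψP : ∀ g z, ψ (iP (pK g)) z = ψ₀ g z := by
    intro g z
    show ((π (iP (pK g)) : K) : Equiv.Perm X) z = _
    rw [hπP]; rfl
  have hψQ : ∀ u z, ψ (iQ (FK u)) z = θ (ψ₀ (ρ (S u)) (θ z)) := by
    intro u z
    show ((π (iQ (FK u)) : K) : Equiv.Perm X) z = _
    rw [hπQ, hFK]
    have hinv : θ⁻¹ z = θ z := by rw [Equiv.Perm.inv_eq_iff_eq, hθ2]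
    show θ (ψ₀ (ρ (S u)) (θ⁻¹ z)) = _
    rw [hinv]
  have hA₁c : #A₁ < κ := by
    refine lt_of_le_of_lt (mk_union_le _ _) (add_lt_of_lt hκ.le a.hA ?_)
    exact lt_of_le_of_lt mk_range_le (a.card_range hκ)
  obtain ⟨j', hj', hj'A⟩ := exists_emb hκ.le hX hMcard A₁ hA₁c
  have hsc : #(a.s ∪ q.s : Set Λ) < κ :=
    lt_of_le_of_lt (mk_union_le _ _) (add_lt_of_lt hκ.le a.hs q.hs)
  obtain ⟨r, hrs, hrA, hr1, hr2, hr3⟩ := build hκ.le hMlf hMcard (a.s ∪ q.s) hsc e he0 A₁ hA₁c ψ hψ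
    j' hj' hj'A hpr1 hpr2
  have haA₁ : a.A ⊆ A₁ := subset_union_left
  refine ⟨r, ?_, ?_, ?_, ?_, ?_⟩
  · refine build_le hj' hrA hr1 hr2 (by rw [hrs]; exact subset_union_left) haA₁ ?_ hk1 ?_
    · intro i hi z hz
      rw [he1 i hi, hψP, hψ1' _ z hz, Cond.φ_of]
    · intro u hu z hz hza
      rw [hl1 u hu, hψP]
      rcases hz with hz | ⟨g, rfl⟩
      · exact absurd hz hza
      · rw [hψ2, hj.eq_iff, ← hρ1]
        constructor
        · intro h
          exact mul_right_cancel (h.trans (one_mul g).symm)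
        · intro h
          rw [h, one_mul]
  · refine build_le hj' hrA hr1 hr2 (by rw [hrs]; exact subset_union_right)
      (hqA.trans haA₁) ?_ hk2 ?_
    · intro i hi z hz
      rw [he2 i hi, hψQ, hθq z hz, hψ1' _ z (hqA hz)]
      have h1 : a.φ (S (FreeGroup.of i)) z = q.f i z := by
        rw [haq.agree (F2 _ (of_mem_W hi)) (hA ▸ hz), F1 _ (of_mem_W hi), Cond.φ_of]
      rw [h1]
      apply hθq
      have := (q.φ_mem_iff (FreeGroup.of i) z).2 hz
      rwa [Cond.φ_of] at this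
    · intro u hu z hz hzq
      rw [hl2 u hu, hψQ]
      have hz1 : θ z ∈ A₁ := (suppIn_mem_iff hθA z).2 hz
      have hz2 : θ z ∉ q.A := by
        intro h
        have := hθq _ h
        rw [hθ2] at this
        rw [← this] at h
        exact hzq h
      have hz3 : θ (ψ₀ (ρ (S u)) (θ z)) = z ↔ ψ₀ (ρ (S u)) (θ z) = θ z := by
        constructor
        · intro h
          have := congrArg θ h
          rwa [hθ2] at this
        · intro h
          rw [h, hθ2]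
      rw [hz3]
      rcases hz1 with hz1 | ⟨g, hg⟩
      · rw [hψ1' _ _ hz1, haq.2.2.2 _ (F2 u hu) _ hz1 (hA ▸ hz2), F1 u hu]
      · rw [← hg, hψ2, hj.eq_iff, ← F4 u hu, ← hρ1]
        constructor
        · intro h
          exact mul_right_cancel (h.trans (one_mul g).symm)
        · intro h
          rw [h, one_mul]
  · rw [hrA]
    exact Or.inl (haA₁ hx)
  · rw [hrs]
    exact Or.inr hα
  · have h1 := hr1 (FreeGroup.of α) x (haA₁ hx)
    rw [Cond.φ_of] at h1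
    rw [h1, FreeGroup.lift_apply_of, he2 α hα, hψQ, hSα]
    exact hθ3

end Pool.Agent.H17MCG
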