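import Pool.Agent.H17.MCG.Order

/-!
# The build lemma, adding points
-/

namespace Pool.Agent.H17MCG

open Cardinal Set

universe u

theorem exists_emb {X M : Type u} {κ : Cardinal.{u}} (hκ : ℵ₀ ≤ κ) (hX : #X = κ) (hM : #M < κ)
    (B : Set X) (hB : #B < κ) : ∃ j : M → X, Function.Injective j ∧ ∀ m, j m ∉ B := by
  have h1 : #(Bᶜ : Set X) = κ := by
    have : Infinite X := by rw [infinite_iff, hX]; exact hκ
    rw [mk_compl_of_infinite B (by rw [hX]; exact hB), hX]
  have h2 : #M ≤ #(Bᶜ : Set X) := by rw [h1]; exact hM.le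
  obtain ⟨g⟩ := h2
  exact ⟨fun m => (g m : X), fun a b hab => g.injective (Subtype.ext hab), fun m => (g m).2⟩

theorem exists_emb' {X M : Type u} {κ : Cardinal.{u}} (hκ : ℵ₀ ≤ κ) (hX : #X = κ) (hM : #M < κ)
    (B : Set X) (hB : #B < κ) (m₀ : M) (x : X) (hx : x ∉ B) :
    ∃ j : M → X, Function.Injective j ∧ (∀ m, j m ∉ B) ∧ j m₀ = x := by
  classical
  obtain ⟨j, hj, hjB⟩ := exists_emb hκ hX hM B hB
  refine ⟨fun m => Equiv.swap (j m₀) x (j m), (Equiv.injective _).comp hj, ?_, ?_⟩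
  · intro m
    show Equiv.swap (j m₀) x (j m) ∉ B
    by_cases h1 : j m = j m₀
    · rw [h1, Equiv.swap_apply_left]; exact hx
    · by_cases h2 : j m = x
      · rw [h2, Equiv.swap_apply_right]; exact hjB _
      · rw [Equiv.swap_apply_of_ne_of_ne h1 h2]; exact hjB _
  · simp

theorem build {κ : Cardinal.{u}} {Λ X : Type u} [LinearOrder Λ] (hκ : ℵ₀ ≤ κ)
    {M : Type u} [Group M] (hM : LocFin M) (hMc : #M < κ)
    (s : Set Λ) (hs : #s < κ) (e : Λ → M) (he : ∀ i ∉ s, e i = 1)
    (A : Set X) (hA : #A < κ) (ψ : M →* Equiv.Perm X) (hψ : ∀ m, ψ m ∈ suppIn A)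
    (j : M → X) (hj : Function.Injective j) (hjA : ∀ m, j m ∉ A)
    (pr1 : ∀ b ∈ s, ∀ u ∈ W (s ∩ Iio b), e b ≠ FreeGroup.lift e u)
    (pr2 : ∀ b ∈ s, ∀ u ∈ W (s ∩ Iio b), ∀ v ∈ W (s ∩ Iio b),
      e b * FreeGroup.lift e u * (e b)⁻¹ = FreeGroup.lift e v → FreeGroup.lift e u = 1) :
    ∃ r : Cond κ Λ X, r.s = s ∧ r.A = A ∪ range j ∧
      (∀ u, ∀ x ∈ A, r.φ u x = ψ (FreeGroup.lift e u) x) ∧
      (∀ u m, r.φ u (j m) = j (FreeGroup.lift e u * m)) ∧
      (∀ u, r.φ u = 1 ↔ FreeGroup.lift e u = 1) := by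
  obtain ⟨Ψ, h1, h2, h3⟩ := exists_combined_action A ψ hψ j hj hjA
  have hinj : Function.Injective Ψ := by
    rw [injective_iff_map_eq_one]
    intro m hm
    have := h2 m 1
    rw [hm] at this
    have := hj this
    simpa using this.symm
  have hlift : ∀ u, FreeGroup.lift (fun i => Ψ (e i)) u = Ψ (FreeGroup.lift e u) := by
    intro u
    have : FreeGroup.lift (fun i => Ψ (e i)) = Ψ.comp (FreeGroup.lift e) := by
      ext i
      simp
    rw [this]; rfl
  let r : Cond κ Λ X :=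
    { s := s
      A := A ∪ range j
      f := fun i => Ψ (e i)
      hs := hs
      hA := by
        refine lt_of_le_of_lt (mk_union_le _ _) (add_lt_of_lt hκ hA ?_)
        exact lt_of_le_of_lt mk_range_le hMc
      off := by
        intro i hi
        rw [he i hi, map_one]
      fix := by
        intro i x hx
        rw [mem_union, not_or] at hx
        exact h3 _ x hx.1 hx.2
      lf := by
        intro T hT _
        have hfin := hM ((FreeGroup.lift e) '' T) (hT.image _)
        have heq : ((Subgroup.closure T).map (FreeGroup.lift fun i => Ψ (e i)) : Set (Equiv.Perm X))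
            = Ψ '' (Subgroup.closure ((FreeGroup.lift e) '' T) : Set M) := by
          have : FreeGroup.lift (fun i => Ψ (e i)) = Ψ.comp (FreeGroup.lift e) := by
            ext i
            simp
          rw [this, ← Subgroup.map_map, MonoidHom.map_closure, Subgroup.coe_map]
        rw [heq]
        exact hfin.image _
      pr1 := by
        intro b hb u hu h
        rw [hlift] at h
        exact pr1 b hb u hu (hinj h)
      pr2 := by
        intro b hb u hu v hv h
        rw [hlift, hlift, ← map_mul, ← map_inv, ← map_mul] at h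
        rw [hlift, pr2 b hb u hu v hv (hinj h), map_one] }
  have hφ : ∀ u, r.φ u = Ψ (FreeGroup.lift e u) := hlift
  refine ⟨r, rfl, rfl, ?_, ?_, ?_⟩
  · intro u x hx
    rw [hφ, h1 _ x hx]
  · intro u m
    rw [hφ, h2]
  · intro u
    rw [hφ, ← map_one Ψ]
    exact hinj.eq_iff

theorem build_le {κ : Cardinal.{u}} {Λ X : Type u} [LinearOrder Λ]
    {M : Type u} [Group M] {e : Λ → M} {A : Set X} {ψ : M →* Equiv.Perm X} {j : M → X}
    (hj : Function.Injective j) {p r : Cond κ Λ X}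
    (hrA : r.A = A ∪ range j) (hr1 : ∀ u, ∀ x ∈ A, r.φ u x = ψ (FreeGroup.lift e u) x)
    (hr2 : ∀ u m, r.φ u (j m) = j (FreeGroup.lift e u * m))
    (hs : p.s ⊆ r.s) (hA : p.A ⊆ A)
    (hag : ∀ i ∈ p.s, ∀ x ∈ p.A, ψ (e i) x = p.f i x)
    (hker : ∀ u ∈ W p.s, FreeGroup.lift e u = 1 ↔ p.φ u = 1)
    (hfree : ∀ u ∈ W p.s, ∀ x ∈ A, x ∉ p.A → (ψ (FreeGroup.lift e u) x = x ↔ p.φ u = 1)) :
    r ≤ p := by
  refine ⟨hs, ?_, ?_, ?_⟩
  · rw [hrA]; exact hA.trans subset_union_left
  · intro i hi x hx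
    have := hr1 (FreeGroup.of i) x (hA hx)
    rw [Cond.φ_of] at this
    rw [this]
    simpa using hag i hi x hx
  · intro u hu x hx hxp
    rw [hrA] at hx
    rcases hx with hx | ⟨m, rfl⟩
    · rw [hr1 u x hx]
      exact hfree u hu x hx hxp
    · rw [hr2, hj.eq_iff, ← hker u hu]
      constructor
      · intro h
        exact mul_right_cancel (h.trans (one_mul m).symm)
      · intro h
        rw [h, one_mul]

namespace Cond

variable {κ : Cardinal.{u}} {Λ X : Type u} [LinearOrder Λ]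

theorem range_eq (p : Cond κ Λ X) : p.φ.range = (W p.s).map p.φ := by
  apply le_antisymm
  · rw [φ, FreeGroup.range_lift_eq_closure, Subgroup.closure_le]
    rintro _ ⟨i, rfl⟩
    by_cases hi : i ∈ p.s
    · exact ⟨FreeGroup.of i, of_mem_W hi, by simp⟩
    · rw [p.off i hi]; exact one_mem _
  · rintro _ ⟨u, _, rfl⟩
    exact ⟨u, rfl⟩

theorem locFin_range (p : Cond κ Λ X) : LocFin p.φ.range := by
  intro T hT
  classical
  have h1 : ∀ t : p.φ.range, ∃ u : FreeGroup Λ, u ∈ W p.s ∧ p.φ u = t := by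
    intro t
    have h : (t : Equiv.Perm X) ∈ (W p.s).map p.φ := (range_eq p).le t.2
    exact h
  choose w hw0 hw using h1
  have h2 := p.lf (w '' T) (hT.image _) (by rintro _ ⟨t, _, rfl⟩; exact hw0 t)
  have h3 : ((Subgroup.closure T).map p.φ.range.subtype : Set (Equiv.Perm X)) ⊆
      ((Subgroup.closure (w '' T)).map (FreeGroup.lift p.f) : Set (Equiv.Perm X)) := by
    rw [MonoidHom.map_closure, MonoidHom.map_closure]
    apply Subgroup.closure_mono
    rintro _ ⟨t, ht, rfl⟩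
    exact ⟨w t, ⟨t, ht, rfl⟩, hw t⟩
  have h4 := h2.subset h3
  rw [Subgroup.coe_map] at h4
  exact Set.Finite.of_finite_image h4 (Subtype.val_injective.injOn)

omit [LinearOrder Λ] in
theorem card_W {s : Set Λ} (hκ : ℵ₀ < κ) (hs : #s < κ) : #(W s) < κ := by
  have h1 : (W s : Subgroup (FreeGroup Λ)) = (FreeGroup.map (Subtype.val : s → Λ)).range := by
    rw [FreeGroup.range_map, Subtype.range_coe, W]
  have h2 : #(W s) ≤ #(FreeGroup s) := by
    rw [h1]
    exact mk_range_le
  refine lt_of_le_of_lt h2 ?_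
  rcases isEmpty_or_nonempty s with h | h
  · exact lt_of_le_of_lt (mk_le_aleph0) hκ
  · rw [mk_freeGroup]
    exact max_lt hs hκ

theorem card_range (p : Cond κ Λ X) (hκ : ℵ₀ < κ) : #p.φ.range < κ := by
  rw [range_eq]
  refine lt_of_le_of_lt ?_ (card_W hκ p.hs)
  have : (((W p.s).map p.φ : Subgroup (Equiv.Perm X)) : Set (Equiv.Perm X)) = p.φ '' (W p.s) := rfl
  show #((((W p.s).map p.φ : Subgroup (Equiv.Perm X)) : Set (Equiv.Perm X))) ≤ _
  rw [this]
  exact mk_image_le

/-- the corestriction of the letters to the range -/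
def e (p : Cond κ Λ X) (i : Λ) : p.φ.range := ⟨p.f i, FreeGroup.of i, p.φ_of i⟩

theorem lift_e (p : Cond κ Λ X) (u : FreeGroup Λ) :
    ((FreeGroup.lift p.e u : p.φ.range) : Equiv.Perm X) = p.φ u := by
  have : p.φ.range.subtype.comp (FreeGroup.lift p.e) = p.φ := by
    ext i
    simp [e]
  exact DFunLike.congr_fun this u

theorem lift_e_eq (p : Cond κ Λ X) (u : FreeGroup Λ) :
    FreeGroup.lift p.e u = ⟨p.φ u, u, rfl⟩ := Subtype.ext (p.lift_e u)

/-- adding a point -/
theorem add_point (hκ : ℵ₀ < κ) (hX : #X = κ) (p : Cond κ Λ X) (x : X) :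
    ∃ q ≤ p, q.s = p.s ∧ x ∈ q.A := by
  by_cases hx : x ∈ p.A
  · exact ⟨p, le_rfl, rfl, hx⟩
  obtain ⟨j, hj, hjA, hj1⟩ := exists_emb' hκ.le hX (p.card_range hκ) p.A p.hA 1 x hx
  have hψ : ∀ m, p.φ.range.subtype m ∈ suppIn p.A := by
    rintro ⟨_, u, rfl⟩
    exact p.φ_mem u
  obtain ⟨r, hrs, hrA, hr1, hr2, hr3⟩ := build hκ.le (locFin_range p) (p.card_range hκ) p.s p.hs p.e
    (fun i hi => Subtype.ext (p.off i hi)) p.A p.hA p.φ.range.subtype hψ j hj hjA
    (by
      intro b hb u hu h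
      apply p.pr1 b hb u hu
      have := congrArg Subtype.val h
      rw [lift_e] at this
      exact this)
    (by
      intro b hb u hu v hv h
      have := congrArg Subtype.val h
      rw [Subgroup.coe_mul, Subgroup.coe_mul, Subgroup.coe_inv, lift_e, lift_e] at this
      apply Subtype.ext
      rw [lift_e]
      exact p.pr2 b hb u hu v hv this)
  refine ⟨r, ?_, hrs, ?_⟩
  · refine build_le hj hrA hr1 hr2 hrs.ge subset_rfl ?_ ?_ ?_
    · intro i _ x _
      rfl
    · intro u _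
      rw [Subtype.ext_iff, lift_e]; rfl
    · intro u _ x hx hx'
      exact absurd hx hx'
  · rw [hrA, ← hj1]
    exact Or.inr ⟨1, rfl⟩

end Cond

end Pool.Agent.H17MCG
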