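import Pool.Agent.H17.MCG.Defs

/-!
# Combinatorial lemmas: distributivity, closing off, counting small subsets
-/

namespace Pool.Agent.H17MCG

open Cardinal Set

universe u

/-- `<κ`-closed posets are `<κ`-distributive. -/
theorem distributive {P : Type u} [Preorder P] {κ : Cardinal.{u}} (hκ : ℵ₀ ≤ κ)
    (hcl : ∀ C : Set P, IsChain (· ≤ ·) C → #C < κ → ∃ q, ∀ c ∈ C, q ≤ c)
    (p₀ : P) (J : Type u) (hJ : #J < κ) (D : J → P → Prop)
    (hopen : ∀ j p q, q ≤ p → D j p → D j q)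
    (hdense : ∀ j, ∀ p ≤ p₀, ∃ q ≤ p, D j q) : ∃ q ≤ p₀, ∀ j, D j q := by
  classical
  obtain ⟨instL, instW⟩ := exists_wellFoundedLT J
  let F : J → P := (wellFounded_lt (α := J)).fix (fun j rec =>
    if h : ∃ q, q ≤ p₀ ∧ D j q ∧ ∀ i (hi : i < j), q ≤ rec i hi then Classical.choose h else p₀)
  have hF : ∀ j, F j = if h : ∃ q, q ≤ p₀ ∧ D j q ∧ ∀ i (_ : i < j), q ≤ F i then
      Classical.choose h else p₀ := fun j => WellFounded.fix_eq _ _ j
  have hlow : ∀ I : Set J, (∀ i ∈ I, F i ≤ p₀ ∧ ∀ i' < i, F i ≤ F i') →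
      ∃ q ≤ p₀, ∀ i ∈ I, q ≤ F i := by
    intro I hI
    have hch : IsChain (· ≤ ·) (insert p₀ (F '' I)) := by
      apply IsChain.insert
      · rintro _ ⟨i, hi, rfl⟩ _ ⟨i', hi', rfl⟩ _
        rcases lt_trichotomy i i' with h | h | h
        · exact Or.inr ((hI i' hi').2 i h)
        · rw [h]
          exact Or.inl le_rfl
        · exact Or.inl ((hI i hi).2 i' h)
      · rintro _ ⟨i, hi, rfl⟩ _
        exact Or.inr (hI i hi).1
    have hcard : #(insert p₀ (F '' I) : Set P) < κ := by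
      refine mk_insert_le.trans_lt ?_
      refine add_lt_of_lt hκ ?_ (one_lt_aleph0.trans_le hκ)
      exact mk_image_le.trans_lt ((mk_set_le I).trans_lt hJ)
    obtain ⟨q, hq⟩ := hcl _ hch hcard
    exact ⟨q, hq _ (mem_insert _ _), fun i hi => hq _ (mem_insert_of_mem _ ⟨i, hi, rfl⟩)⟩
  have key : ∀ j, F j ≤ p₀ ∧ D j (F j) ∧ ∀ i < j, F j ≤ F i := by
    intro j
    induction j using WellFoundedLT.induction with
    | ind j ih =>
      have hex : ∃ q, q ≤ p₀ ∧ D j q ∧ ∀ i (_ : i < j), q ≤ F i := by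
        obtain ⟨q', hq'0, hq'⟩ := hlow (Iio j) (fun i hi => ⟨(ih i hi).1, (ih i hi).2.2⟩)
        obtain ⟨q, hq, hD⟩ := hdense j q' hq'0
        exact ⟨q, hq.trans hq'0, hD, fun i hi => hq.trans (hq' i hi)⟩
      have hs := Classical.choose_spec hex
      have e : F j = Classical.choose hex := by rw [hF j, dif_pos hex]
      rw [e]
      exact ⟨hs.1, hs.2.1, fun i hi => hs.2.2 i hi⟩
  obtain ⟨q, hq0, hq⟩ := hlow univ (fun i _ => ⟨(key i).1, (key i).2.2⟩)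
  exact ⟨q, hq0, fun j => hopen j _ _ (hq j (mem_univ j)) (key j).2.1⟩

/-- Closing off. -/
theorem closing_off {Λ : Type u} [LinearOrder Λ] [WellFoundedLT Λ] {κ : Cardinal.{u}}
    (hreg : κ.IsRegular) (hbdd : ∀ S : Set Λ, #S ≤ κ → ∃ b, ∀ x ∈ S, x < b)
    (hIio : ∀ b : Λ, #(Iio b) ≤ κ) (D : Λ → Λ) :
    ∃ a : Λ, (∀ b < a, D b < a) ∧ ∀ S : Set Λ, S ⊆ Iio a → #S < κ → ∃ b < a, ∀ x ∈ S, x < b := by
  classical
  have hκ : ℵ₀ ≤ κ := hreg.aleph0_le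
  have hup : ∀ S : Set Λ, ∃ b, #S ≤ κ → ∀ x ∈ S, x < b := by
    intro S
    by_cases h : #S ≤ κ
    · obtain ⟨b, hb⟩ := hbdd S h
      exact ⟨b, fun _ => hb⟩
    · obtain ⟨b, -⟩ := hbdd ∅ (by rw [mk_eq_zero]; exact zero_le)
      exact ⟨b, fun h' => absurd h' h⟩
  choose up hup using hup
  let T := κ.ord.ToType
  have hT : #T = κ := mk_ord_toType κ
  let b : T → Λ := (wellFounded_lt (α := T)).fix (fun ξ rec =>
    up {x | ∃ η, ∃ h : η < ξ, x = rec η h ∨ ∃ c ≤ rec η h, x = D c})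
  have hb : ∀ ξ, b ξ = up {x | ∃ η, ∃ _ : η < ξ, x = b η ∨ ∃ c ≤ b η, x = D c} :=
    fun ξ => WellFounded.fix_eq _ _ ξ
  have hIic : ∀ c : Λ, #(Iic c) ≤ κ := by
    intro c
    rw [← Iio_insert]
    refine mk_insert_le.trans ?_
    exact (add_le_add (hIio c) (one_le_aleph0.trans hκ)).trans (add_eq_self hκ).le
  have hcard : ∀ ξ, #{x | ∃ η, ∃ _ : η < ξ, x = b η ∨ ∃ c ≤ b η, x = D c} ≤ κ := by
    intro ξ
    have hsub : {x | ∃ η, ∃ _ : η < ξ, x = b η ∨ ∃ c ≤ b η, x = D c} ⊆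
        ⋃ η : T, insert (b η) (D '' Iic (b η)) := by
      rintro x ⟨η, -, h | ⟨c, hc, h⟩⟩
      · exact mem_iUnion.2 ⟨η, h ▸ mem_insert _ _⟩
      · exact mem_iUnion.2 ⟨η, mem_insert_of_mem _ ⟨c, hc, h.symm⟩⟩
    refine (mk_le_mk_of_subset hsub).trans ((mk_iUnion_le _).trans ?_)
    rw [hT]
    refine (mul_le_mul' le_rfl (ciSup_le' (a := κ) fun η => ?_)).trans (mul_eq_self hκ).le
    refine mk_insert_le.trans ?_
    exact (add_le_add (mk_image_le.trans (hIic _)) (one_le_aleph0.trans hκ)).trans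
      (add_eq_self hκ).le
  have hlt : ∀ ξ x, (∃ η, ∃ _ : η < ξ, x = b η ∨ ∃ c ≤ b η, x = D c) → x < b ξ := by
    intro ξ x hx
    rw [hb ξ]
    exact hup _ (hcard ξ) x hx
  have hne : {a : Λ | ∀ ξ, b ξ < a}.Nonempty := by
    obtain ⟨a, ha⟩ := hbdd (range b) (mk_range_le.trans hT.le)
    exact ⟨a, fun ξ => ha _ ⟨ξ, rfl⟩⟩
  obtain ⟨a, ha, hmin⟩ := (wellFounded_lt (α := Λ)).has_min _ hne
  have hcof : ∀ c < a, ∃ ξ, c ≤ b ξ := by
    intro c hc
    by_contra hcon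
    push Not at hcon
    exact hmin c hcon hc
  have : NoMaxOrder T := noMaxOrder hκ
  refine ⟨a, ?_, ?_⟩
  · intro c hc
    obtain ⟨ξ, hξ⟩ := hcof c hc
    obtain ⟨ξ', hξ'⟩ := exists_gt ξ
    exact (hlt ξ' (D c) ⟨ξ, hξ', Or.inr ⟨c, hξ, rfl⟩⟩).trans (ha ξ')
  · intro S hS hScard
    have hch : ∀ x : S, ∃ ξ, (x : Λ) ≤ b ξ := fun x => hcof x (hS x.2)
    choose g hg using hch
    have hnc : ¬ IsCofinal (range g) := by
      intro hcf
      have h1 : Order.cof T ≤ #(range g) := Order.cof_le hcf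
      have h2 : Order.cof T = κ := by
        rw [Ordinal.cof_toType, hreg.cof_ord]
      rw [h2] at h1
      exact absurd (h1.trans mk_range_le) (not_le.2 hScard)
    rw [not_isCofinal_iff] at hnc
    obtain ⟨ξ, hξ⟩ := hnc
    refine ⟨b ξ, ha ξ, fun x hx => ?_⟩
    exact (hg ⟨x, hx⟩).trans_lt
      (hlt ξ _ ⟨g ⟨x, hx⟩, hξ _ ⟨_, rfl⟩, Or.inl rfl⟩)

/-- Counting small subsets. -/
theorem card_small_subsets {Z : Type u} {κ : Cardinal.{u}} (hreg : κ.IsRegular)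
    (hpow : κ ^< κ ≤ κ) (S : Set Z) (hS : #S ≤ κ) :
    #{T : Set Z // T ⊆ S ∧ #T < κ} ≤ κ := by
  classical
  have hκ : ℵ₀ ≤ κ := hreg.aleph0_le
  let I := κ.ord.ToType
  have hI : #I = κ := mk_ord_toType κ
  have hIio : ∀ ξ : I, #(Iio ξ) < κ := by
    intro ξ
    have h := mk_Iio_lt (α := I) ξ (by rw [hI, Ordinal.type_toType])
    rwa [hI] at h
  have hsub : {T : Set Z | T ⊆ S ∧ #T < κ} ⊆
      ⋃ ξ : I, {T : Set Z | T ⊆ S ∧ #T ≤ #(Iio ξ)} := by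
    rintro T ⟨hT, hTc⟩
    have ho : (#T).ord < Ordinal.type (α := I) (· < ·) := by
      rw [Ordinal.type_toType]
      exact ord_lt_ord.2 hTc
    obtain ⟨ξ, hξ⟩ := Ordinal.typein_surj (α := I) (· < ·) ho
    refine mem_iUnion.2 ⟨ξ, hT, ?_⟩
    have h1 : #(Iio ξ) = (Ordinal.typein (α := I) (· < ·) ξ).card := rfl
    rw [h1, hξ, card_ord]
  refine (mk_le_mk_of_subset hsub).trans ((mk_iUnion_le _).trans ?_)
  rw [hI]
  refine (mul_le_mul' le_rfl (ciSup_le' (a := κ) fun ξ => ?_)).trans (mul_eq_self hκ).le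
  refine (mk_bounded_subset_le S #(Iio ξ)).trans ?_
  refine (power_le_power_right (max_le hS hκ)).trans ?_
  exact (le_powerlt κ (hIio ξ)).trans hpow

end Pool.Agent.H17MCG
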