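import Mathlib

/-!
# MP_a8709a_lc: locally finite higher maximal cofinitary groups — basic definitions
-/

namespace Pool.Agent.H17MCG

open Cardinal Set

universe u

/-- A group is locally finite if every finite subset generates a finite subgroup. -/
def LocFin (G : Type*) [Group G] : Prop :=
  ∀ T : Set G, T.Finite → (Subgroup.closure T : Set G).Finite

/-- words in the letters of `t` -/
def W {Λ : Type*} (t : Set Λ) : Subgroup (FreeGroup Λ) := Subgroup.closure (FreeGroup.of '' t)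

/-- The forcing conditions. -/
structure Cond (κ : Cardinal.{u}) (Λ X : Type u) [LinearOrder Λ] where
  s : Set Λ
  A : Set X
  f : Λ → Equiv.Perm X
  hs : #s < κ
  hA : #A < κ
  off : ∀ i ∉ s, f i = 1
  fix : ∀ i, ∀ x ∉ A, f i x = x
  lf : ∀ T : Set (FreeGroup Λ), T.Finite → T ⊆ W s →
    ((Subgroup.closure T).map (FreeGroup.lift f) : Set (Equiv.Perm X)).Finite
  pr1 : ∀ b ∈ s, ∀ u ∈ W (s ∩ Iio b), f b ≠ FreeGroup.lift f u
  pr2 : ∀ b ∈ s, ∀ u ∈ W (s ∩ Iio b), ∀ v ∈ W (s ∩ Iio b),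
    f b * FreeGroup.lift f u * (f b)⁻¹ = FreeGroup.lift f v → FreeGroup.lift f u = 1

namespace Cond

variable {κ : Cardinal.{u}} {Λ X : Type u} [LinearOrder Λ]

/-- the action of words -/
def φ (p : Cond κ Λ X) : FreeGroup Λ →* Equiv.Perm X := FreeGroup.lift p.f

/-- the order: `q` is stronger than `p` -/
def LE' (q p : Cond κ Λ X) : Prop :=
  p.s ⊆ q.s ∧ p.A ⊆ q.A ∧ (∀ i ∈ p.s, ∀ x ∈ p.A, q.f i x = p.f i x) ∧
    ∀ u ∈ W p.s, ∀ x ∈ q.A, x ∉ p.A → (q.φ u x = x ↔ p.φ u = 1)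

end Cond

end Pool.Agent.H17MCG
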