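import Pool.Agent.H17.MCG.AL

/-!
# Adding generators, the trivial condition, closure under chains
-/

namespace Pool.Agent.H17MCG

open Cardinal Set

universe u

/-- If the kernel of `a` on `S` is contained in the kernel of `b`, and `a '' S` is finite, then
`b '' S` is finite. -/
theorem finite_image_of_ker {G H H' : Type*} [Group G] [Group H] [Group H'] (S : Subgroup G)
    (a : G →* H) (b : G →* H') (h : ∀ u ∈ S, a u = 1 → b u = 1)
    (hfin : (a '' (S : Set G)).Finite) : (b '' (S : Set G)).Finite := by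
  classical
  have h1 : ∀ t : H, ∃ u : G, t ∈ a '' (S : Set G) → u ∈ S ∧ a u = t := by
    intro t
    by_cases ht : t ∈ a '' (S : Set G)
    · obtain ⟨u, hu, hut⟩ := ht
      exact ⟨u, fun _ => ⟨hu, hut⟩⟩
    · exact ⟨1, fun h => absurd h ht⟩
  choose w hw using h1
  refine (hfin.image (fun t => b (w t))).subset ?_
  rintro _ ⟨u, hu, rfl⟩
  refine ⟨a u, ⟨u, hu, rfl⟩, ?_⟩
  obtain ⟨h2, h3⟩ := hw (a u) ⟨u, hu, rfl⟩
  have h4 : b (u⁻¹ * w (a u)) = 1 := by
    apply h _ (mul_mem (inv_mem hu) h2)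
    rw [map_mul, map_inv, h3, inv_mul_cancel]
  rw [map_mul, map_inv, inv_mul_eq_one] at h4
  exact h4.symm

theorem exists_W_of_chain {Λ ι : Type*} (C : Set ι) (hC : C.Nonempty) (t : ι → Set Λ)
    (hdir : ∀ c ∈ C, ∀ d ∈ C, ∃ e ∈ C, t c ⊆ t e ∧ t d ⊆ t e) {u : FreeGroup Λ}
    (hu : u ∈ W (⋃ c ∈ C, t c)) : ∃ c ∈ C, u ∈ W (t c) := by
  refine Subgroup.closure_induction (p := fun u _ => ∃ c ∈ C, u ∈ W (t c)) ?_ ?_ ?_ ?_ hu
  · rintro _ ⟨i, hi, rfl⟩
    simp only [mem_iUnion] at hi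
    obtain ⟨c, hc, hi⟩ := hi
    exact ⟨c, hc, of_mem_W hi⟩
  · obtain ⟨c, hc⟩ := hC
    exact ⟨c, hc, one_mem _⟩
  · rintro a b _ _ ⟨c, hc, hac⟩ ⟨d, hd, hbd⟩
    obtain ⟨e, he, h1, h2⟩ := hdir c hc d hd
    exact ⟨e, he, mul_mem (W_mono h1 hac) (W_mono h2 hbd)⟩
  · rintro a _ ⟨c, hc, hac⟩
    exact ⟨c, hc, inv_mem hac⟩

theorem exists_W_of_chain_finite {Λ ι : Type*} (C : Set ι) (hC : C.Nonempty) (t : ι → Set Λ)
    (hdir : ∀ c ∈ C, ∀ d ∈ C, ∃ e ∈ C, t c ⊆ t e ∧ t d ⊆ t e) {T : Set (FreeGroup Λ)}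
    (hT : T.Finite) (hu : T ⊆ W (⋃ c ∈ C, t c)) : ∃ c ∈ C, T ⊆ W (t c) := by
  induction T, hT using Set.Finite.induction_on with
  | empty =>
    obtain ⟨c, hc⟩ := hC
    exact ⟨c, hc, empty_subset _⟩
  | insert _ _ ih =>
    rename_i a T _ _
    obtain ⟨c, hc, h1⟩ := ih (fun x hx => hu (mem_insert_of_mem _ hx))
    obtain ⟨d, hd, h2⟩ := exists_W_of_chain C hC t hdir (hu (mem_insert _ _))
    obtain ⟨e, he, h3, h4⟩ := hdir c hc d hd
    refine ⟨e, he, ?_⟩
    rintro x (rfl | hx)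
    · exact W_mono h4 h2
    · exact W_mono h3 (h1 hx)

namespace Cond

variable {κ : Cardinal.{u}} {Λ X : Type u} [LinearOrder Λ]

/-- the trivial condition -/
def triv (hκ : ℵ₀ < κ) : Cond κ Λ X where
  s := ∅
  A := ∅
  f := fun _ => 1
  hs := by rw [mk_eq_zero]; exact lt_trans aleph0_pos hκ
  hA := by rw [mk_eq_zero]; exact lt_trans aleph0_pos hκ
  off := fun _ _ => rfl
  fix := fun _ _ _ => rfl
  lf := by
    intro T _ _
    refine (Set.finite_singleton (1 : Equiv.Perm X)).subset ?_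
    rintro _ ⟨u, _, rfl⟩
    have : (FreeGroup.lift fun _ : Λ => (1 : Equiv.Perm X)) = 1 := by
      ext i
      simp
    rw [this]; rfl
  pr1 := fun b hb => absurd hb (notMem_empty _)
  pr2 := fun b hb => absurd hb (notMem_empty _)

theorem add_gen (hκ : ℵ₀ < κ) (hX : #X = κ) (p : Cond κ Λ X) (α : Λ) :
    ∃ q ≤ p, α ∈ q.s := by
  classical
  by_cases hα : α ∈ p.s
  · exact ⟨p, le_rfl, hα⟩
  obtain ⟨M, _, π, ι, v, hMlf, hMc, hπι, hπv, hvv, hvZ, hv1, hb, hc, hd, hvι⟩ :=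
    twist (locFin_range p) (⊥ : Subgroup p.φ.range)
  have hMcard : #M < κ := lt_of_le_of_lt hMc (max_lt hκ (p.card_range hκ))
  obtain ⟨j, hj, hjA⟩ := exists_emb hκ.le hX hMcard p.A p.hA
  have hι : Function.Injective ι := Function.LeftInverse.injective hπι
  let e : Λ → M := fun i => if i = α then v else ι (p.e i)
  have heα : e α = v := if_pos rfl
  have hei : ∀ i, i ≠ α → e i = ι (p.e i) := fun i hi => if_neg hi
  have hpe : ∀ i ∉ p.s, p.e i = 1 := fun i hi => Subtype.ext (p.off i hi)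
  have hps : ∀ i ∈ p.s, i ≠ α := by
    rintro i hi rfl
    exact hα hi
  have hlift : ∀ u ∈ W p.s, FreeGroup.lift e u = ι (FreeGroup.lift p.e u) := by
    intro u hu
    refine eqOn_W (a := FreeGroup.lift e) (b := ι.comp (FreeGroup.lift p.e)) ?_ hu
    intro i hi
    simp [hei i (hps i hi)]
  have hker : ∀ u ∈ W p.s, (FreeGroup.lift e u = 1 ↔ p.φ u = 1) := by
    intro u hu
    rw [hlift u hu, map_eq_one_iff ι hι, Subtype.ext_iff, lift_e]; rfl
  have hscard : #(insert α p.s : Set Λ) < κ := by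
    refine lt_of_le_of_lt (mk_insert_le) (add_lt_of_lt hκ.le p.hs ?_)
    exact lt_trans one_lt_aleph0 hκ
  have hπe : ∀ u, π (FreeGroup.lift e u) = FreeGroup.lift (fun i => if i = α then 1 else p.e i) u := by
    intro u
    have : π.comp (FreeGroup.lift e) = FreeGroup.lift (fun i => if i = α then 1 else p.e i) := by
      ext i
      by_cases hi : i = α
      · simp [hi, heα, hπv]
      · simp [hi, hei i hi, hπι]
    exact DFunLike.congr_fun this u
  -- R_b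
  have hR : ∀ b, ∀ w ∈ W ((insert α p.s) ∩ Iio b),
      FreeGroup.lift e w ∈ ((W (p.s ∩ Iio b)).map (FreeGroup.lift p.e)).map ι ⊔
        Subgroup.zpowers v := by
    intro b
    have : W ((insert α p.s) ∩ Iio b) ≤ (((W (p.s ∩ Iio b)).map (FreeGroup.lift p.e)).map ι ⊔
        Subgroup.zpowers v).comap (FreeGroup.lift e) := by
      rw [W_le_iff]
      rintro i ⟨hi, hib⟩
      rw [Subgroup.mem_comap, FreeGroup.lift_apply_of]
      rcases hi with rfl | hi
      · rw [heα]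
        exact Subgroup.mem_sup_right (Subgroup.mem_zpowers v)
      · rw [hei i (hps i hi)]
        exact Subgroup.mem_sup_left ⟨_, ⟨_, of_mem_W ⟨hi, hib⟩, by simp⟩, rfl⟩
    exact this
  have hRb : ∀ b ∈ p.s, p.e b ∉ (W (p.s ∩ Iio b)).map (FreeGroup.lift p.e) := by
    rintro b hb ⟨u, hu, h⟩
    apply p.pr1 b hb u hu
    have := congrArg Subtype.val h
    rw [lift_e] at this
    exact this.symm
  have hRp : ∀ b ∈ p.s, ∀ u ∈ (W (p.s ∩ Iio b)).map (FreeGroup.lift p.e),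
      ∀ w ∈ (W (p.s ∩ Iio b)).map (FreeGroup.lift p.e), p.e b * u * (p.e b)⁻¹ = w → u = 1 := by
    rintro b hb _ ⟨u, hu, rfl⟩ _ ⟨w, hw, rfl⟩ h
    have := congrArg Subtype.val h
    rw [Subgroup.coe_mul, Subgroup.coe_mul, Subgroup.coe_inv, lift_e, lift_e] at this
    apply Subtype.ext
    rw [lift_e]
    exact p.pr2 b hb u hu w hw this
  have hlow : (insert α p.s) ∩ Iio α ⊆ p.s := by
    rintro i ⟨rfl | hi, hi'⟩
    · exact absurd hi' (lt_irrefl _)
    · exact hi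
  have hpr1 : ∀ b ∈ insert α p.s, ∀ u ∈ W ((insert α p.s) ∩ Iio b), e b ≠ FreeGroup.lift e u := by
    rintro b (rfl | hb) u hu h
    · rw [heα, hlift u (W_mono hlow hu)] at h
      exact hvι ⟨_, h.symm⟩
    · have h1 := hR b u hu
      rw [← h, hei b (hps b hb)] at h1
      have h2 : π (ι (p.e b)) ∈ (((W (p.s ∩ Iio b)).map (FreeGroup.lift p.e)).map ι ⊔
        Subgroup.zpowers v).map π := ⟨_, h1, rfl⟩
      rw [hπι, Subgroup.map_sup, Subgroup.map_map, MonoidHom.map_zpowers, hπv] at h2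
      have h3 : π.comp ι = MonoidHom.id _ := by ext x; simp [hπι]
      rw [h3, Subgroup.map_id, Subgroup.zpowers_one_eq_bot, sup_bot_eq] at h2
      exact hRb b hb h2
  have hpr2 : ∀ b ∈ insert α p.s, ∀ u ∈ W ((insert α p.s) ∩ Iio b),
      ∀ w ∈ W ((insert α p.s) ∩ Iio b), e b * FreeGroup.lift e u * (e b)⁻¹ = FreeGroup.lift e w →
      FreeGroup.lift e u = 1 := by
    rintro b (rfl | hb) u hu w hw h
    · rw [heα, hlift u (W_mono hlow hu), hlift w (W_mono hlow hw)] at h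
      have h1 := (hv1 _ _ h).1
      rw [Subgroup.mem_bot] at h1
      rw [hlift u (W_mono hlow hu), h1, map_one]
    · rw [hei b (hps b hb)] at h
      exact hd _ bot_le (p.e b) (hRb b hb) (hRp b hb) _ (hR b u hu) _ (hR b w hw) h
  have hψ : ∀ m, (p.φ.range.subtype.comp π) m ∈ suppIn p.A := by
    intro m
    obtain ⟨u, hu⟩ := (π m).2
    show ((π m : p.φ.range) : Equiv.Perm X) ∈ _
    rw [← hu]
    exact p.φ_mem u
  obtain ⟨r, hrs, hrA, hr1, hr2, hr3⟩ := build hκ.le hMlf hMcard (insert α p.s) hscard e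
    (by
      intro i hi
      rw [mem_insert_iff, not_or] at hi
      rw [hei i hi.1, hpe i hi.2, map_one]) p.A p.hA (p.φ.range.subtype.comp π) hψ j hj hjA
    hpr1 hpr2
  refine ⟨r, ?_, ?_⟩
  · refine build_le hj hrA hr1 hr2 (by rw [hrs]; exact subset_insert _ _) subset_rfl ?_ hker ?_
    · intro i hi x _
      rw [hei i (hps i hi)]
      show ((π (ι (p.e i)) : p.φ.range) : Equiv.Perm X) x = _
      rw [hπι]; rfl
    · intro u _ x hx hx'
      exact absurd hx hx'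
  · rw [hrs]; exact mem_insert _ _

theorem chain_lb (hreg : κ.IsRegular) (hκ : ℵ₀ < κ) (C : Set (Cond κ Λ X))
    (hC : IsChain (· ≤ ·) C) (hCc : #C < κ) : ∃ q, ∀ c ∈ C, q ≤ c := by
  classical
  rcases C.eq_empty_or_nonempty with rfl | hne
  · exact ⟨triv hκ, fun c hc => absurd hc (notMem_empty _)⟩
  have hdir : ∀ c ∈ C, ∀ d ∈ C, ∃ e ∈ C, e ≤ c ∧ e ≤ d := by
    intro c hc d hd
    rcases hC.total hc hd with h | h
    · exact ⟨c, hc, le_rfl, h⟩
    · exact ⟨d, hd, h, le_rfl⟩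
  -- the coherent family
  have hcoh : ∀ c ∈ C, ∀ d ∈ C, ∀ i, i ∈ c.s → i ∈ d.s → ∀ x, x ∈ c.A → x ∈ d.A →
      c.f i x = d.f i x := by
    intro c hc d hd i hic hid x hxc hxd
    obtain ⟨e, _, h1, h2⟩ := hdir c hc d hd
    rw [← h1.2.2.1 i hic x hxc, h2.2.2.1 i hid x hxd]
  have hmem : ∀ (c : Cond κ Λ X) i x, c.f i x ∈ c.A ↔ x ∈ c.A := fun c i x =>
    suppIn_mem_iff (c.f_mem i) x
  have hmem' : ∀ (c : Cond κ Λ X) i x, (c.f i)⁻¹ x ∈ c.A ↔ x ∈ c.A := fun c i x =>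
    suppIn_mem_iff (inv_mem (c.f_mem i)) x
  have hcoh' : ∀ c ∈ C, ∀ d ∈ C, ∀ i, i ∈ c.s → i ∈ d.s → ∀ x, x ∈ c.A → x ∈ d.A →
      (c.f i)⁻¹ x = (d.f i)⁻¹ x := by
    intro c hc d hd i hic hid x hxc hxd
    obtain ⟨e, he, h1, h2⟩ := hdir c hc d hd
    have h3 : (e.f i)⁻¹ x = (c.f i)⁻¹ x := by
      rw [Equiv.Perm.inv_eq_iff_eq, h1.2.2.1 i hic _ ((hmem' c i x).2 hxc)]
      simp
    have h4 : (e.f i)⁻¹ x = (d.f i)⁻¹ x := by
      rw [Equiv.Perm.inv_eq_iff_eq, h2.2.2.1 i hid _ ((hmem' d i x).2 hxd)]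
      simp
    rw [← h3, h4]
  let F : Λ → X → X := fun i x =>
    if h : ∃ c, c ∈ C ∧ i ∈ c.s ∧ x ∈ c.A then (Classical.choose h).f i x else x
  let F' : Λ → X → X := fun i x =>
    if h : ∃ c, c ∈ C ∧ i ∈ c.s ∧ x ∈ c.A then ((Classical.choose h).f i)⁻¹ x else x
  have hF : ∀ c ∈ C, ∀ i ∈ c.s, ∀ x ∈ c.A, F i x = c.f i x := by
    intro c hc i hi x hx
    have h : ∃ c, c ∈ C ∧ i ∈ c.s ∧ x ∈ c.A := ⟨c, hc, hi, hx⟩
    simp only [F, dif_pos h]
    have hs := Classical.choose_spec h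
    exact hcoh _ hs.1 c hc i hs.2.1 hi x hs.2.2 hx
  have hF' : ∀ c ∈ C, ∀ i ∈ c.s, ∀ x ∈ c.A, F' i x = (c.f i)⁻¹ x := by
    intro c hc i hi x hx
    have h : ∃ c, c ∈ C ∧ i ∈ c.s ∧ x ∈ c.A := ⟨c, hc, hi, hx⟩
    simp only [F', dif_pos h]
    have hs := Classical.choose_spec h
    exact hcoh' _ hs.1 c hc i hs.2.1 hi x hs.2.2 hx
  have hF0 : ∀ i x, (¬ ∃ c, c ∈ C ∧ i ∈ c.s ∧ x ∈ c.A) → F i x = x := by
    intro i x h
    simp only [F, dif_neg h]
  have hF0' : ∀ i x, (¬ ∃ c, c ∈ C ∧ i ∈ c.s ∧ x ∈ c.A) → F' i x = x := by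
    intro i x h
    simp only [F', dif_neg h]
  let f : Λ → Equiv.Perm X := fun i =>
    { toFun := F i
      invFun := F' i
      left_inv := by
        intro x
        by_cases h : ∃ c, c ∈ C ∧ i ∈ c.s ∧ x ∈ c.A
        · obtain ⟨c, hc, hi, hx⟩ := h
          rw [hF c hc i hi x hx, hF' c hc i hi _ ((hmem c i x).2 hx)]
          simp
        · rw [hF0 i x h, hF0' i x h]
      right_inv := by
        intro x
        by_cases h : ∃ c, c ∈ C ∧ i ∈ c.s ∧ x ∈ c.A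
        · obtain ⟨c, hc, hi, hx⟩ := h
          rw [hF' c hc i hi x hx, hF c hc i hi _ ((hmem' c i x).2 hx)]
          simp
        · rw [hF0' i x h, hF0 i x h] }
  have hf : ∀ c ∈ C, ∀ i ∈ c.s, ∀ x ∈ c.A, f i x = c.f i x := hF
  set A : Set X := ⋃ c ∈ C, c.A with hAdef
  set s : Set Λ := ⋃ c ∈ C, c.s with hsdef
  have hfix : ∀ i, ∀ x ∉ A, f i x = x := by
    intro i x hx
    apply hF0
    rintro ⟨c, hc, _, hxc⟩
    exact hx (mem_biUnion hc hxc)
  have hfw : ∀ c ∈ C, ∀ u ∈ W c.s, ∀ x ∈ c.A, FreeGroup.lift f u x = c.φ u x := by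
    intro c hc u hu x hx
    exact agree_words c.f_mem (hf c hc) hu x hx
  have hfree : ∀ c ∈ C, ∀ u ∈ W c.s, ∀ x ∈ A, x ∉ c.A → (FreeGroup.lift f u x = x ↔ c.φ u = 1) := by
    intro c hc u hu x hx hxc
    rw [hAdef] at hx
    simp only [mem_iUnion] at hx
    obtain ⟨d, hd, hxd⟩ := hx
    rcases hC.total hc hd with h | h
    · exact absurd (h.2.1 hxd) hxc
    · rw [hfw d hd u (W_mono h.1 hu) x hxd]
      exact h.2.2.2 u hu x hxd hxc
  have hfixw : ∀ u, ∀ x ∉ A, FreeGroup.lift f u x = x := by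
    intro u
    exact lift_mem_suppIn (A := A) (fun i x hx => hfix i x hx) u
  have hker : ∀ c ∈ C, ∀ u ∈ W c.s, (FreeGroup.lift f u = 1 ↔ c.φ u = 1) := by
    intro c hc u hu
    constructor
    · intro h1
      ext x
      by_cases hx : x ∈ c.A
      · rw [← hfw c hc u hu x hx, h1]
      · rw [c.φ_fix u hx]; rfl
    · intro h1
      ext x
      by_cases hx : x ∈ c.A
      · rw [hfw c hc u hu x hx, h1]
      · by_cases hxq : x ∈ A
        · exact (hfree c hc u hu x hxq hx).2 h1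
        · rw [hfixw u x hxq]; rfl
  have hdirs : ∀ c ∈ C, ∀ d ∈ C, ∃ e ∈ C, c.s ⊆ e.s ∧ d.s ⊆ e.s := by
    intro c hc d hd
    obtain ⟨e, he, h1, h2⟩ := hdir c hc d hd
    exact ⟨e, he, h1.1, h2.1⟩
  -- words below b
  have hbelow : ∀ b ∈ s, ∀ u ∈ W (s ∩ Iio b), ∀ v ∈ W (s ∩ Iio b),
      ∃ c ∈ C, b ∈ c.s ∧ u ∈ W (c.s ∩ Iio b) ∧ v ∈ W (c.s ∩ Iio b) := by
    intro b hb u hu v hv
    have heq : s ∩ Iio b = ⋃ c ∈ C, (c.s ∩ Iio b) := by
      rw [hsdef, iUnion₂_inter]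
    have hdirs' : ∀ c ∈ C, ∀ d ∈ C, ∃ e ∈ C, c.s ∩ Iio b ⊆ e.s ∩ Iio b ∧
        d.s ∩ Iio b ⊆ e.s ∩ Iio b := by
      intro c hc d hd
      obtain ⟨e, he, h1, h2⟩ := hdirs c hc d hd
      exact ⟨e, he, inter_subset_inter_left _ h1, inter_subset_inter_left _ h2⟩
    rw [heq] at hu hv
    obtain ⟨c, hc, huc⟩ := exists_W_of_chain C hne (fun c => c.s ∩ Iio b) hdirs' hu
    obtain ⟨d, hd, hvd⟩ := exists_W_of_chain C hne (fun c => c.s ∩ Iio b) hdirs' hv
    rw [hsdef] at hb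
    simp only [mem_iUnion] at hb
    obtain ⟨e, he, hbe⟩ := hb
    obtain ⟨g, hg, h1, h2⟩ := hdirs c hc d hd
    obtain ⟨k, hk, h3, h4⟩ := hdirs g hg e he
    exact ⟨k, hk, h4 hbe, W_mono (inter_subset_inter_left _ (h1.trans h3)) huc,
      W_mono (inter_subset_inter_left _ (h2.trans h3)) hvd⟩
  have hsmall : ∀ {Y : Type u} (g : Cond κ Λ X → Set Y), (∀ c ∈ C, #(g c) < κ) →
      #(⋃ c ∈ C, g c : Set Y) < κ := by
    intro Y g hg
    exact (card_biUnion_lt_iff_forall_of_isRegular hreg hCc).2 (fun c hc => hg c hc)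
  let q : Cond κ Λ X :=
    { s := s
      A := A
      f := f
      hs := hsmall _ (fun c _ => c.hs)
      hA := hsmall _ (fun c _ => c.hA)
      off := by
        intro i hi
        ext x
        apply hF0
        rintro ⟨c, hc, hic, _⟩
        exact hi (mem_biUnion hc hic)
      fix := hfix
      lf := by
        intro T hT hTs
        obtain ⟨c, hc, hTc⟩ := exists_W_of_chain_finite C hne (fun c => c.s) hdirs hT hTs
        have h1 := c.lf T hT hTc
        rw [Subgroup.coe_map] at h1 ⊢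
        refine finite_image_of_ker _ _ _ ?_ h1
        intro u hu h
        have hu' : u ∈ W c.s := (Subgroup.closure_le _).2 hTc hu
        exact (hker c hc u hu').2 h
      pr1 := by
        intro b hb u hu h
        obtain ⟨c, hc, hbc, huc, _⟩ := hbelow b hb u hu u hu
        have hu' : u ∈ W c.s := W_mono inter_subset_left huc
        have h1 : FreeGroup.lift f (FreeGroup.of b * u⁻¹) = 1 := by
          rw [map_mul, map_inv, FreeGroup.lift_apply_of, h, mul_inv_cancel]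
        rw [hker c hc _ (mul_mem (of_mem_W hbc) (inv_mem hu')), map_mul, map_inv, mul_inv_eq_one,
          Cond.φ_of] at h1
        exact c.pr1 b hbc u huc h1
      pr2 := by
        intro b hb u hu v hv h
        obtain ⟨c, hc, hbc, huc, hvc⟩ := hbelow b hb u hu v hv
        have hu' : u ∈ W c.s := W_mono inter_subset_left huc
        have hv' : v ∈ W c.s := W_mono inter_subset_left hvc
        have hbW : FreeGroup.of b ∈ W c.s := of_mem_W hbc
        have h1 : FreeGroup.lift f (FreeGroup.of b * u * (FreeGroup.of b)⁻¹ * v⁻¹) = 1 := by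
          rw [map_mul, map_mul, map_mul, map_inv, map_inv, FreeGroup.lift_apply_of, h,
            mul_inv_cancel]
        rw [hker c hc _ (mul_mem (mul_mem (mul_mem hbW hu') (inv_mem hbW)) (inv_mem hv')), map_mul,
          map_mul, map_mul, map_inv, map_inv, mul_inv_eq_one, Cond.φ_of] at h1
        exact (hker c hc u hu').2 (c.pr2 b hbc u huc v hvc h1) }
  refine ⟨q, fun c hc => ⟨subset_biUnion_of_mem hc, subset_biUnion_of_mem hc, ?_, ?_⟩⟩
  · exact hf c hc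
  · exact hfree c hc

end Cond

end Pool.Agent.H17MCG
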