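import Pool.Agent.H17.MCG.Names

/-!
# The forcing adds a locally finite maximal cofinitary group
-/

namespace Pool.Agent.H17MCG

open Cardinal Set

universe u

variable {κ : Cardinal.{u}} {Λ X : Type u} [LinearOrder Λ]

namespace Cond

/-- a word acting trivially keeps acting trivially in all stronger conditions -/
theorem gname_dec_of_eq {q : Cond κ Λ X} {u v : FreeGroup Λ}
    (hu : u ∈ W q.s) (hv : v ∈ W q.s) (h : q.φ u = q.φ v) {r : Cond κ Λ X} (hr : r ≤ q) :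
    r.φ u = r.φ v := by
  have h1 : q.φ (u * v⁻¹) = 1 := by rw [map_mul, map_inv, h, mul_inv_cancel]
  have h2 := (hr.ker (mul_mem hu (inv_mem hv))).2 h1
  rwa [map_mul, map_inv, mul_inv_eq_one] at h2

theorem forced (hreg : κ.IsRegular) (hκ : ℵ₀ < κ) (hpow : κ ^< κ ≤ κ) (hX : #X = κ)
    [LinearOrder X] (hXb : ∀ S : Set X, #S < κ → ∃ b, ∀ x ∈ S, x < b)
    [WellFoundedLT Λ] (hΛ1 : ∀ S : Set Λ, #S ≤ κ → ∃ b, ∀ x ∈ S, x < b)
    (hΛ2 : ∀ b : Λ, #(Iio b) ≤ κ) (p₀ : Cond κ Λ X) :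
    ForcesCofinitaryGroup p₀ (gname (Λ := Λ) hκ hX) ∧
      ForcesLocallyFinite p₀ (gname (Λ := Λ) hκ hX) ∧
      ForcesAllAgree p₀ (gname (Λ := Λ) hκ hX) := by
  classical
  have hprep : ∀ (u : FreeGroup Λ) (p : Cond κ Λ X) (x : X), ∃ q ≤ p, u ∈ W q.s ∧ x ∈ q.A := by
    intro u p x
    obtain ⟨q, hq, h1⟩ := add_word hκ hX u p
    obtain ⟨r, hr, hrs, h2⟩ := add_point hκ hX q x
    exact ⟨r, hr.trans hq, W_mono hr.1 h1, h2⟩
  have hmul : ∀ (u v w : FreeGroup Λ) (p : Cond κ Λ X), (∀ q ≤ p, q.φ u * q.φ v = q.φ w) →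
      ForcesMul p (gname hκ hX u) (gname hκ hX v) (gname hκ hX w) := by
    intro u v w p hp x q hq
    obtain ⟨q1, hq1, h1⟩ := add_word hκ hX u q
    obtain ⟨q2, hq2, h2⟩ := add_word hκ hX v q1
    obtain ⟨q3, hq3, h3, hx⟩ := hprep w q2 x
    have hle : q3 ≤ q := hq3.trans (hq2.trans hq1)
    refine ⟨q3, hle, q3.φ v x, q3.φ w x,
      ⟨W_mono hq3.1 h2, hx, rfl⟩, ⟨W_mono (hq3.trans hq2).1 h1, ?_, ?_⟩, ⟨h3, hx, rfl⟩⟩
    · exact (q3.φ_mem_iff v x).2 hx
    · rw [← hp q3 (hle.trans hq)]; rfl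
  have hinv : ∀ (u v : FreeGroup Λ) (p : Cond κ Λ X), (∀ q ≤ p, q.φ v * q.φ u = 1) →
      ForcesInv p (gname hκ hX u) (gname hκ hX v) := by
    intro u v p hp x q hq
    obtain ⟨q1, hq1, h1⟩ := add_word hκ hX u q
    obtain ⟨q3, hq3, h3, hx⟩ := hprep v q1 x
    have hle : q3 ≤ q := hq3.trans hq1
    refine ⟨q3, hle, q3.φ u x, ⟨W_mono hq3.1 h1, hx, rfl⟩, ⟨h3, ?_, ?_⟩⟩
    · exact (q3.φ_mem_iff u x).2 hx
    · have := hp q3 (hle.trans hq)
      calc q3.φ v (q3.φ u x) = (q3.φ v * q3.φ u) x := rfl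
        _ = x := by rw [this]; rfl
  have hid : ∀ (u : FreeGroup Λ) (p : Cond κ Λ X), (∀ q ≤ p, q.φ u = 1) →
      ForcesId p (gname hκ hX u) := by
    intro u p hp x q hq
    obtain ⟨q3, hq3, h3, hx⟩ := hprep u q x
    refine ⟨q3, hq3, h3, hx, ?_⟩
    rw [hp q3 (hq3.trans hq)]; rfl
  have hagree := agree_densely hreg hκ hpow hX hXb hΛ1 hΛ2
  refine ⟨⟨fun p _ => ⟨p, le_rfl, 1, hid 1 p (fun q _ => map_one _)⟩,
    fun i j p _ => ⟨p, le_rfl, i * j, hmul i j (i * j) p (fun q _ => (map_mul _ _ _).symm)⟩,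
    fun i p _ => ⟨p, le_rfl, i⁻¹, hinv i i⁻¹ p (fun q _ => by rw [map_inv, inv_mul_cancel])⟩,
    ?_⟩, ?_, ?_⟩
  · -- cofinitary
    intro u p _
    obtain ⟨q, hq, hu⟩ := add_word hκ hX u p
    refine ⟨q, hq, ?_⟩
    by_cases h1 : q.φ u = 1
    · left
      exact hid u q (fun r hr => (hr.ker hu).2 h1)
    · right
      obtain ⟨b, hb⟩ := hXb q.A q.hA
      refine ⟨b, ?_⟩
      rintro x hbx r hr ⟨_, hxr, hx⟩
      have hxq : x ∉ q.A := fun hxq => absurd (lt_of_lt_of_le (hb x hxq) hbx) (lt_irrefl _)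
      exact h1 ((hr.2.2.2 u hu x hxr hxq).1 hx)
  · -- locally finite
    intro T p _
    have hT : ∀ T : Finset (FreeGroup Λ), ∃ q ≤ p, ∀ u ∈ T, u ∈ W q.s := by
      intro T
      induction T using Finset.induction_on with
      | empty => exact ⟨p, le_rfl, by simp⟩
      | insert a T _ ih =>
        obtain ⟨q, hq, h1⟩ := ih
        obtain ⟨r, hr, h2⟩ := add_word hκ hX a q
        refine ⟨r, hr.trans hq, ?_⟩
        intro u hu
        rw [Finset.mem_insert] at hu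
        rcases hu with rfl | hu
        · exact h2
        · exact W_mono hr.1 (h1 u hu)
    obtain ⟨q, hq, hTq⟩ := hT T
    let S : Subgroup (FreeGroup Λ) := Subgroup.closure (T : Set (FreeGroup Λ))
    have hS : S ≤ W q.s := (Subgroup.closure_le _).2 hTq
    have hfin : ((S.map q.φ : Subgroup (Equiv.Perm X)) : Set (Equiv.Perm X)).Finite :=
      q.lf T T.finite_toSet hTq
    have h1 : ∀ t : Equiv.Perm X, ∃ u : FreeGroup Λ, t ∈ S.map q.φ → u ∈ S ∧ q.φ u = t := by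
      intro t
      by_cases ht : t ∈ S.map q.φ
      · obtain ⟨u, hu, hut⟩ := ht
        exact ⟨u, fun _ => ⟨hu, hut⟩⟩
      · exact ⟨1, fun h => absurd h ht⟩
    choose rep hrep using h1
    let T' : Finset (FreeGroup Λ) := T ∪ hfin.toFinset.image rep
    have hT'S : ∀ u ∈ T', u ∈ S := by
      intro u hu
      rw [Finset.mem_union, Finset.mem_image] at hu
      rcases hu with hu | ⟨t, ht, rfl⟩
      · exact Subgroup.subset_closure hu
      · rw [Set.Finite.mem_toFinset] at ht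
        exact (hrep t ht).1
    have hT'rep : ∀ w ∈ S, ∃ k ∈ T', q.φ k = q.φ w := by
      intro w hw
      have h2 : q.φ w ∈ S.map q.φ := ⟨w, hw, rfl⟩
      refine ⟨rep (q.φ w), ?_, (hrep _ h2).2⟩
      rw [Finset.mem_union, Finset.mem_image]
      right
      refine ⟨q.φ w, ?_, rfl⟩
      rw [Set.Finite.mem_toFinset]
      exact h2
    refine ⟨q, hq, T', Finset.subset_union_left, ?_, ?_, ?_⟩
    · obtain ⟨k, hk, hk1⟩ := hT'rep 1 (one_mem _)
      refine ⟨k, hk, hid k q ?_⟩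
      intro r hr
      rw [map_one] at hk1
      exact (hr.ker (hS (hT'S k hk))).2 hk1
    · intro i hi j hj
      have hi' := hT'S i hi
      have hj' := hT'S j hj
      obtain ⟨k, hk, hk1⟩ := hT'rep (i * j) (mul_mem hi' hj')
      refine ⟨k, hk, hmul i j k q ?_⟩
      intro r hr
      rw [← map_mul]
      exact (gname_dec_of_eq (hS (hT'S k hk)) (hS (mul_mem hi' hj')) hk1 hr).symm
    · intro i hi
      have hi' := hT'S i hi
      obtain ⟨k, hk, hk1⟩ := hT'rep i⁻¹ (inv_mem hi')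
      refine ⟨k, hk, hinv i k q ?_⟩
      intro r hr
      have h3 := gname_dec_of_eq (hS (hT'S k hk)) (hS (inv_mem hi')) hk1 hr
      rw [h3, map_inv, inv_mul_cancel]
  · -- agreement
    exact fun h p _ => hagree h p

end Cond

theorem exists_strict_bound {μ : Cardinal.{u}} (hμ : μ.IsRegular) (S : Set μ.ord.ToType)
    (hS : #S < μ) : ∃ b, ∀ x ∈ S, x < b := by
  have hnc : ¬ IsCofinal S := by
    intro hcf
    have h1 : Order.cof μ.ord.ToType ≤ #S := Order.cof_le hcf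
    have h2 : Order.cof μ.ord.ToType = μ := by
      rw [Ordinal.cof_toType, hμ.cof_ord]
    rw [h2] at h1
    exact absurd h1 (not_le.2 hS)
  rw [not_isCofinal_iff] at hnc
  exact hnc

/-- For every regular uncountable `κ` with `κ ^{<κ} = κ` there is a non-empty `<κ`-closed poset
forcing a locally finite `κ`-maximal cofinitary group. -/
theorem main (κ : Cardinal.{u}) (hreg : κ.IsRegular) (hunc : ℵ₀ < κ) (hpow : κ ^< κ = κ) :
    ∃ (P : Type u) (_ : Preorder P) (I : Type u) (g : I → PermName P κ.ord.ToType),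
      Nonempty P ∧ IsLTClosed κ P ∧ ∀ p, ForcesCofinitaryGroup p g ∧ ForcesLocallyFinite p g ∧
        ForcesAllAgree p g ∧ ForcesMaximal p g := by
  have hsucc : (Order.succ κ).IsRegular := isRegular_succ hreg.aleph0_le
  have hX : #κ.ord.ToType = κ := mk_ord_toType κ
  refine ⟨Cond κ (Order.succ κ).ord.ToType κ.ord.ToType, inferInstance,
    FreeGroup (Order.succ κ).ord.ToType, Cond.gname hunc hX, ⟨Cond.triv hunc⟩,
    fun C hC hCc => Cond.chain_lb hreg hunc C hC hCc, fun p => ?_⟩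
  have h := Cond.forced (Λ := (Order.succ κ).ord.ToType) hreg hunc hpow.le hX
    (fun S hS => exists_strict_bound hreg S hS) ?_ ?_ p
  · exact ⟨h.1, h.2.1, h.2.2, h.2.2.maximal⟩
  · intro S hS
    exact exists_strict_bound hsucc S (Order.lt_succ_iff.2 hS)
  · intro b
    have h1 := mk_Iio_lt b (by rw [mk_ord_toType, Ordinal.type_toType])
    rw [mk_ord_toType] at h1
    exact Order.lt_succ_iff.1 h1

end Pool.Agent.H17MCG
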