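import Mathlib

/-!
# MP_a8709a_lc: the forcing vocabulary used in the final statement

`P` is a poset of forcing conditions (`q ≤ p` means that `q` is stronger than `p`) and `X` is the set
(in the application: the cardinal `κ`) on which the permutations act.
-/

namespace Pool.Agent.H17MCG

open Cardinal Set

universe u v w

/-- `P` is `<κ`-closed: every chain of conditions of size less than `κ` has a lower bound.
(In particular forcing with `P` adds no new sequences of length less than `κ` of ground model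
elements, so that `κ` stays regular and uncountable and `κ ^{<κ} = κ` is preserved.) -/
def IsLTClosed (κ : Cardinal.{u}) (P : Type u) [Preorder P] : Prop :=
  ∀ C : Set P, IsChain (· ≤ ·) C → #C < κ → ∃ q, ∀ c ∈ C, q ≤ c

/-- A `P`-name for a permutation of `X`: `dec p x y` says that the condition `p` decides that the
value at `x` is `y`. The axioms say that decisions persist to stronger conditions, are functional
and injective, and that densely many conditions decide the value and the preimage of every point.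
Every name `ḣ` with `⊩ ḣ ∈ Sym(X)` gives such a relation, namely `dec p x y :⇔ p ⊩ ḣ(x) = y`. -/
structure PermName (P : Type v) (X : Type w) [Preorder P] where
  dec : P → X → X → Prop
  mono : ∀ p q x y, q ≤ p → dec p x y → dec q x y
  func : ∀ p x y y', dec p x y → dec p x y' → y = y'
  inj : ∀ p x x' y, dec p x y → dec p x' y → x = x'
  total : ∀ p x, ∃ q ≤ p, ∃ y, dec q x y
  surj : ∀ p y, ∃ q ≤ p, ∃ x, dec q x y

section

variable {P : Type v} {X : Type w} [Preorder P]

/-- `p ⊩ g = h` -/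
def ForcesEq (p : P) (g h : PermName P X) : Prop :=
  ∀ x, ∀ q ≤ p, ∃ r ≤ q, ∃ y, g.dec r x y ∧ h.dec r x y

/-- `p ⊩ g = id` -/
def ForcesId (p : P) (g : PermName P X) : Prop :=
  ∀ x, ∀ q ≤ p, ∃ r ≤ q, g.dec r x x

/-- `p ⊩ g ∘ h = k` -/
def ForcesMul (p : P) (g h k : PermName P X) : Prop :=
  ∀ x, ∀ q ≤ p, ∃ r ≤ q, ∃ y z, h.dec r x y ∧ g.dec r y z ∧ k.dec r x z

/-- `p ⊩ k = g⁻¹` -/
def ForcesInv (p : P) (g k : PermName P X) : Prop :=
  ∀ x, ∀ q ≤ p, ∃ r ≤ q, ∃ y, g.dec r x y ∧ k.dec r y x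

/-- `p` forces that all fixed points of `g` are smaller than `b`. -/
def ForcesFixBelow [LE X] (p : P) (g : PermName P X) (b : X) : Prop :=
  ∀ x, b ≤ x → ∀ q ≤ p, ¬ g.dec q x x

/-- `p` forces that the set `{x | g x = h x}` is unbounded in `X`. -/
def ForcesAgreeUnbounded [LE X] (p : P) (g h : PermName P X) : Prop :=
  ∀ b : X, ∀ q ≤ p, ∃ r ≤ q, ∃ x, b ≤ x ∧ ∃ y, g.dec r x y ∧ h.dec r x y

/-- `p₀` forces that the family of permutations `g i` (`i : I`) is a `κ`-cofinitary subgroup of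
`Sym(X)`, `X = κ` (as `κ` is regular, a set of size less than `κ` is the same as a bounded set). -/
structure ForcesCofinitaryGroup [LE X] {I : Type v} (p₀ : P) (g : I → PermName P X) : Prop where
  /-- the identity belongs to the family -/
  one : ∀ p ≤ p₀, ∃ q ≤ p, ∃ i, ForcesId q (g i)
  /-- the family is closed under composition -/
  mul : ∀ i j, ∀ p ≤ p₀, ∃ q ≤ p, ∃ k, ForcesMul q (g i) (g j) (g k)
  /-- the family is closed under inverses -/
  inv : ∀ i, ∀ p ≤ p₀, ∃ q ≤ p, ∃ k, ForcesInv q (g i) (g k)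
  /-- every element is the identity or has boundedly many fixed points -/
  cofinitary : ∀ i, ∀ p ≤ p₀, ∃ q ≤ p, ForcesId q (g i) ∨ ∃ b, ForcesFixBelow q (g i) b

/-- `p₀` forces that every finite subset of the family `g i` (`i : I`) is contained in a finite
subset which is a group. -/
def ForcesLocallyFinite {I : Type v} (p₀ : P) (g : I → PermName P X) : Prop :=
  ∀ T : Finset I, ∀ p ≤ p₀, ∃ q ≤ p, ∃ T' : Finset I, T ⊆ T' ∧
    (∃ i ∈ T', ForcesId q (g i)) ∧
    (∀ i ∈ T', ∀ j ∈ T', ∃ k ∈ T', ForcesMul q (g i) (g j) (g k)) ∧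
    (∀ i ∈ T', ∃ k ∈ T', ForcesInv q (g i) (g k))

/-- `p₀` forces that every member of the family `g` is a member of the family `g'`. -/
def ForcesSubset {I J : Type v} (p₀ : P) (g : I → PermName P X) (g' : J → PermName P X) : Prop :=
  ∀ i, ∀ p ≤ p₀, ∃ q ≤ p, ∃ j, ForcesEq q (g i) (g' j)

/-- `p₀` forces that no `κ`-cofinitary subgroup of `Sym(X)` properly contains the family `g`:
whenever some `p ≤ p₀` forces that a family `g'` is a `κ`-cofinitary group containing `g`, then `p`
forces that `g'` is contained in `g`. -/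
def ForcesMaximal [LE X] {I : Type v} (p₀ : P) (g : I → PermName P X) : Prop :=
  ∀ (J : Type v) (g' : J → PermName P X), ∀ p ≤ p₀, ForcesCofinitaryGroup p g' →
    ForcesSubset p g g' → ForcesSubset p g' g

/-- `p₀` forces that every permutation `h` of `X = κ` agrees with some member of the family `g` at
unboundedly many points. -/
def ForcesAllAgree [LE X] {I : Type v} (p₀ : P) (g : I → PermName P X) : Prop :=
  ∀ (h : PermName P X), ∀ p ≤ p₀, ∃ q ≤ p, ∃ i, ForcesAgreeUnbounded q h (g i)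

/-- If every permutation agrees with a member of the group at unboundedly many points, then the
group is maximal. -/
theorem ForcesAllAgree.maximal [LE X] {I : Type v} {p₀ : P} {g : I → PermName P X}
    (hg : ForcesAllAgree p₀ g) : ForcesMaximal p₀ g := by
  intro J g' p hp hgrp hsub j p1 hp1
  obtain ⟨q1, hq1, i, hag⟩ := hg (g' j) p1 (hp1.trans hp)
  obtain ⟨q2, hq2, j2, heq⟩ := hsub i q1 (hq1.trans hp1)
  obtain ⟨q3, hq3, k, hinv⟩ := hgrp.inv j2 q2 (hq2.trans (hq1.trans hp1))
  obtain ⟨q4, hq4, l, hmul⟩ := hgrp.mul k j q3 (hq3.trans (hq2.trans (hq1.trans hp1)))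
  obtain ⟨q5, hq5, hcof⟩ := hgrp.cofinitary l q4 (hq4.trans (hq3.trans (hq2.trans (hq1.trans hp1))))
  have h54 : q5 ≤ q4 := hq5
  have h53 : q5 ≤ q3 := hq5.trans hq4
  have h52 : q5 ≤ q2 := h53.trans hq3
  have h51 : q5 ≤ q1 := h52.trans hq2
  -- the decisions at a point
  have key : ∀ x, ∀ q ≤ q5, ∃ r ≤ q, ∃ y z, (g' j).dec r x y ∧ (g' l).dec r x z ∧
      (g' k).dec r y z ∧ ∃ y', (g i).dec r x y' ∧ (g' k).dec r y' x := by
    intro x q hq
    obtain ⟨r1, hr1, y, z, h1, h2, h3⟩ := hmul x q (hq.trans h54)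
    obtain ⟨r2, hr2, y2, h4, h5⟩ := hinv x r1 (hr1.trans (hq.trans h53))
    obtain ⟨r3, hr3, y3, h6, h7⟩ := heq x r2 (hr2.trans (hr1.trans (hq.trans h52)))
    have hy : y2 = y3 := (g' j2).func r3 x y2 y3 ((g' j2).mono _ _ _ _ hr3 h4) h7
    subst hy
    have hr31 : r3 ≤ r1 := hr3.trans hr2
    exact ⟨r3, hr31.trans hr1, y, z, (g' j).mono _ _ _ _ hr31 h1, (g' l).mono _ _ _ _ hr31 h3,
      (g' k).mono _ _ _ _ hr31 h2, y2, h6, (g' k).mono _ _ _ _ hr3 h5⟩
  rcases hcof with hid | ⟨b, hb⟩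
  · refine ⟨q5, h51.trans hq1, i, ?_⟩
    intro x q hq
    obtain ⟨r1, hr1, h1⟩ := hid x q hq
    obtain ⟨r2, hr2, y, z, h2, h3, h4, y', h5, h6⟩ := key x r1 (hr1.trans hq)
    have hz : z = x := (g' l).func r2 x z x h3 ((g' l).mono _ _ _ _ hr2 h1)
    subst hz
    have hy : y = y' := (g' k).inj r2 y y' z h4 h6
    subst hy
    exact ⟨r2, hr2.trans hr1, y, h2, h5⟩
  · exfalso
    obtain ⟨r1, hr1, x, hbx, y, h1, h2⟩ := hag b q5 h51
    obtain ⟨r2, hr2, y1, z, h3, h4, h5, y2, h6, h7⟩ := key x r1 hr1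
    have hy1 : y1 = y := (g' j).func r2 x y1 y h3 ((g' j).mono _ _ _ _ hr2 h1)
    have hy2 : y2 = y := (g i).func r2 x y2 y h6 ((g i).mono _ _ _ _ hr2 h2)
    subst hy1
    subst hy2
    have hz : z = x := (g' k).func r2 _ z x h5 h7
    subst hz
    exact hb z hbx r2 (hr2.trans hr1) h4

end

end Pool.Agent.H17MCG
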