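import Pool.Agent.H17.MCG.Ext
import Pool.Agent.H17.MCG.Comb
import Pool.Agent.H17.MCG.Forcing

/-!
# Names for permutations and the maximality argument
-/

namespace Pool.Agent.H17MCG

open Cardinal Set

universe u

variable {κ : Cardinal.{u}} {Λ X : Type u} [LinearOrder Λ]

namespace Cond

theorem add_word (hκ : ℵ₀ < κ) (hX : #X = κ) (u : FreeGroup Λ) :
    ∀ p : Cond κ Λ X, ∃ q ≤ p, u ∈ W q.s := by
  induction u using FreeGroup.induction_on with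
  | C1 => exact fun p => ⟨p, le_rfl, one_mem _⟩
  | of i =>
    intro p
    obtain ⟨q, hq, hi⟩ := add_gen hκ hX p i
    exact ⟨q, hq, of_mem_W hi⟩
  | inv_of i _ =>
    intro p
    obtain ⟨q, hq, hi⟩ := add_gen hκ hX p i
    exact ⟨q, hq, inv_mem (of_mem_W hi)⟩
  | mul a b ha hb =>
    intro p
    obtain ⟨q, hq, h1⟩ := ha p
    obtain ⟨r, hr, h2⟩ := hb q
    exact ⟨r, hr.trans hq, mul_mem (W_mono hr.1 h1) h2⟩

/-- the name of the value of the word `u` -/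
def gname (hκ : ℵ₀ < κ) (hX : #X = κ) (u : FreeGroup Λ) : PermName (Cond κ Λ X) X where
  dec p x y := u ∈ W p.s ∧ x ∈ p.A ∧ p.φ u x = y
  mono := by
    rintro p q x y hqp ⟨h1, h2, h3⟩
    refine ⟨W_mono hqp.1 h1, hqp.2.1 h2, ?_⟩
    rw [hqp.agree h1 h2, h3]
  func := by
    rintro p x y y' ⟨_, _, h⟩ ⟨_, _, h'⟩
    exact h.symm.trans h'
  inj := by
    rintro p x x' y ⟨_, _, h⟩ ⟨_, _, h'⟩
    exact (p.φ u).injective (h.trans h'.symm)
  total := by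
    intro p x
    obtain ⟨q, hq, h1⟩ := add_word hκ hX u p
    obtain ⟨r, hr, hrs, h2⟩ := add_point hκ hX q x
    exact ⟨r, hr.trans hq, _, W_mono hr.1 h1, h2, rfl⟩
  surj := by
    intro p y
    obtain ⟨q, hq, h1⟩ := add_word hκ hX u p
    obtain ⟨r, hr, hrs, h2⟩ := add_point hκ hX q y
    refine ⟨r, hr.trans hq, (r.φ u)⁻¹ y, W_mono hr.1 h1, ?_, by simp⟩
    exact (suppIn_mem_iff (inv_mem (r.φ_mem u)) y).2 h2

theorem agree_densely (hreg : κ.IsRegular) (hκ : ℵ₀ < κ) (hpow : κ ^< κ ≤ κ) (hX : #X = κ)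
    [LinearOrder X] (hXb : ∀ S : Set X, #S < κ → ∃ b, ∀ x ∈ S, x < b)
    [WellFoundedLT Λ] (hΛ1 : ∀ S : Set Λ, #S ≤ κ → ∃ b, ∀ x ∈ S, x < b)
    (hΛ2 : ∀ b : Λ, #(Iio b) ≤ κ) (h : PermName (Cond κ Λ X) X) (p : Cond κ Λ X) :
    ∃ q ≤ p, ∃ u : FreeGroup Λ, ∀ b : X, ∀ r ≤ q, ∃ s ≤ r, ∃ x, b ≤ x ∧ ∃ y, h.dec s x y ∧
      (gname hκ hX u).dec s x y := by
  classical
  by_contra hcon
  let NoAg : Cond κ Λ X → FreeGroup Λ → X → Prop := fun r u b =>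
    ∀ s ≤ r, ∀ x, b ≤ x → ∀ y, h.dec s x y → ¬ (gname hκ hX u).dec s x y
  have NoAg_mono : ∀ r r' u b, r' ≤ r → NoAg r u b → NoAg r' u b :=
    fun r r' u b hr hN s hs => hN s (hs.trans hr)
  have H : ∀ q ≤ p, ∀ u, ∃ b, ∃ r ≤ q, NoAg r u b := by
    intro q hq u
    by_contra h1
    apply hcon
    refine ⟨q, hq, u, ?_⟩
    intro b r hr
    by_contra h2
    apply h1
    refine ⟨b, r, hr, ?_⟩
    intro s hs x hx y hy hg
    exact h2 ⟨s, hs, x, hx, y, hy, hg⟩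
  have hXne : Nonempty X := by
    rw [← mk_ne_zero_iff, hX]
    exact (lt_trans aleph0_pos hκ).ne'
  obtain ⟨x₀⟩ := hXne
  have h1 : ∀ i : Λ, ∃ q : Cond κ Λ X, q ≤ p ∧ i ∈ q.s ∧ x₀ ∈ q.A ∧
      ∃ b, NoAg q (FreeGroup.of i) b := by
    intro i
    obtain ⟨q, hq, hi⟩ := add_gen hκ hX p i
    obtain ⟨r, hr, hrs, hx⟩ := add_point hκ hX q x₀
    obtain ⟨b, t, ht, hN⟩ := H r (hr.trans hq) (FreeGroup.of i)
    exact ⟨t, ht.trans (hr.trans hq), ht.1 (hr.1 hi), ht.2.1 hx, b, hN⟩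
  choose Q hQp hQi hQx B hB using h1
  have h2 : ∀ i : Λ, ∃ g : Λ → X, InjOn g (Q i).s := by
    intro i
    obtain ⟨j, hj, _⟩ := exists_emb (M := (Q i).s) hκ.le hX (Q i).hs (∅ : Set X)
      (by rw [mk_eq_zero]; exact lt_trans aleph0_pos hκ)
    refine ⟨fun k => if hk : k ∈ (Q i).s then j ⟨k, hk⟩ else x₀, ?_⟩
    intro k hk l hl hkl
    simp only [dif_pos hk, dif_pos hl] at hkl
    exact congrArg Subtype.val (hj hkl)
  choose en hen using h2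
  let c : Λ → Set ((Λ ⊕ X) × X × X) := fun i =>
    ((fun j => ((Sum.inl j : Λ ⊕ X), en i j, en i j)) '' ((Q i).s ∩ Iio i)) ∪
      ((fun z : Λ × X => ((Sum.inr (en i z.1) : Λ ⊕ X), z.2, (Q i).f z.1 z.2)) ''
        ((Q i).s ×ˢ (Q i).A))
  have hccard : ∀ i, #(c i) < κ := by
    intro i
    refine lt_of_le_of_lt (mk_union_le _ _) (add_lt_of_lt hκ.le ?_ ?_)
    · refine lt_of_le_of_lt mk_image_le ?_
      exact lt_of_le_of_lt (mk_le_mk_of_subset inter_subset_left) (Q i).hs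
    · refine lt_of_le_of_lt mk_image_le ?_
      rw [mk_setProd]
      exact mul_lt_of_lt hκ.le (Q i).hs (Q i).hA
  have c_inl : ∀ i j, j ∈ (Q i).s → j < i → ((Sum.inl j : Λ ⊕ X), en i j, en i j) ∈ c i :=
    fun i j hj hji => Or.inl ⟨j, ⟨hj, hji⟩, rfl⟩
  have c_inr : ∀ i j x, j ∈ (Q i).s → x ∈ (Q i).A →
      ((Sum.inr (en i j) : Λ ⊕ X), x, (Q i).f j x) ∈ c i :=
    fun i j x hj hx => Or.inr ⟨(j, x), ⟨hj, hx⟩, rfl⟩
  have c_inl' : ∀ i j y z, ((Sum.inl j : Λ ⊕ X), y, z) ∈ c i → j ∈ (Q i).s ∧ j < i ∧ y = en i j := by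
    rintro i j y z (⟨k, ⟨hk, hki⟩, hk2⟩ | ⟨k, hk, hk2⟩)
    · simp only [Prod.mk.injEq, Sum.inl.injEq] at hk2
      obtain ⟨rfl, h1, _⟩ := hk2
      exact ⟨hk, hki, h1.symm⟩
    · simp at hk2
  have c_inr' : ∀ i t y z, ((Sum.inr t : Λ ⊕ X), y, z) ∈ c i →
      ∃ j ∈ (Q i).s, en i j = t ∧ y ∈ (Q i).A ∧ (Q i).f j y = z := by
    rintro i t y z (⟨k, hk, hk2⟩ | ⟨⟨k, l⟩, ⟨hk, hl⟩, hk2⟩)
    · simp at hk2
    · simp only [Prod.mk.injEq, Sum.inr.injEq] at hk2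
      obtain ⟨h1, rfl, h2⟩ := hk2
      exact ⟨k, hk, h1, hl, h2⟩
  let Cd : Λ → Set ((Λ ⊕ X) × X × X) × X := fun i => (c i, B i)
  let S : Λ → Set ((Λ ⊕ X) × X × X) := fun b => {z | ∀ j, z.1 = Sum.inl j → j < b}
  have hScard : ∀ b, #(S b) ≤ κ := by
    intro b
    have h3 : #(S b) ≤ #((Iio b ⊕ X) × X × X) := by
      have hsub : S b ⊆ range (fun z : (Iio b ⊕ X) × X × X =>
          ((Sum.map Subtype.val id z.1 : Λ ⊕ X), z.2)) := by
        rintro ⟨z1, z2⟩ hz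
        rcases z1 with j | t
        · exact ⟨(Sum.inl ⟨j, hz j rfl⟩, z2), rfl⟩
        · exact ⟨(Sum.inr t, z2), rfl⟩
      exact (mk_le_mk_of_subset hsub).trans mk_range_le
    refine h3.trans ?_
    simp only [mk_prod, mk_sum, lift_id, hX]
    have hκκ : κ * κ = κ := mul_eq_self hκ.le
    rw [hκκ]
    calc (#(Iio b) + κ) * κ ≤ (κ + κ) * κ := by gcongr; exact hΛ2 b
      _ = κ := by rw [add_eq_self hκ.le, hκκ]
  let T : Λ → Set (Set ((Λ ⊕ X) × X × X) × X) := fun b => {t | t.1 ⊆ S b ∧ #t.1 < κ}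
  have hTcard : ∀ b, #(T b) ≤ κ := by
    intro b
    have h3 : #(T b) ≤ #({t : Set ((Λ ⊕ X) × X × X) // t ⊆ S b ∧ #t < κ} × X) := by
      refine mk_le_of_injective (f := fun t : T b => (⟨t.1.1, t.2⟩, t.1.2)) ?_
      rintro ⟨⟨t, x⟩, ht⟩ ⟨⟨t', x'⟩, ht'⟩ htt
      simp only [Prod.mk.injEq, Subtype.mk.injEq] at htt
      simp [htt.1, htt.2]
    refine h3.trans ?_
    rw [mk_prod, lift_id, lift_id, hX]
    calc _ ≤ κ * κ := by gcongr; exact card_small_subsets hreg hpow (S b) (hScard b)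
      _ = κ := mul_eq_self hκ.le
  let bd : Set ((Λ ⊕ X) × X × X) × X → Λ := fun t =>
    if ht : ∃ δ, ∀ i, Cd i = t → i ≤ δ then Classical.choose ht
    else Classical.choose (hΛ1 ∅ (by rw [mk_eq_zero]; exact zero_le))
  have hbd : ∀ t, (∃ δ, ∀ i, Cd i = t → i ≤ δ) → ∀ i, Cd i = t → i ≤ bd t := by
    intro t ht
    have : bd t = Classical.choose ht := dif_pos ht
    rw [this]
    exact Classical.choose_spec ht
  have h4 : ∀ b : Λ, ∃ d : Λ, ∀ t ∈ T b, bd t < d := by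
    intro b
    obtain ⟨d, hd⟩ := hΛ1 (bd '' (T b)) (mk_image_le.trans (hTcard b))
    exact ⟨d, fun t ht => hd _ ⟨t, ht, rfl⟩⟩
  choose D hD using h4
  obtain ⟨α, hα1, hα2⟩ := closing_off hreg hΛ1 hΛ2 D
  have hunb : ∀ δ, ∃ i, δ < i ∧ Cd i = Cd α := by
    by_contra hc
    push Not at hc
    obtain ⟨δ, hδ⟩ := hc
    have hex : ∃ δ, ∀ i, Cd i = Cd α → i ≤ δ := by
      refine ⟨δ, fun i hi => ?_⟩
      by_contra hlt
      exact hδ i (not_le.1 hlt) hi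
    obtain ⟨β, hβα, hβ⟩ := hα2 ((Q α).s ∩ Iio α) inter_subset_right
      (lt_of_le_of_lt (mk_le_mk_of_subset inter_subset_left) (Q α).hs)
    have hT : Cd α ∈ T β := by
      refine ⟨?_, hccard α⟩
      rintro ⟨z1, z2, z3⟩ hz j hj
      simp only at hj
      rw [hj] at hz
      obtain ⟨h5, h6, _⟩ := c_inl' α j z2 z3 hz
      exact hβ j ⟨h5, h6⟩
    have h7 := hbd (Cd α) hex α rfl
    have h8 := hD β (Cd α) hT
    exact absurd (lt_of_le_of_lt h7 (lt_trans h8 (hα1 β hβα))) (lt_irrefl _)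
  -- decisions
  set s₀ : Set Λ := (Q α).s ∩ Iio α with hs₀
  have hs₀c : #s₀ < κ := lt_of_le_of_lt (mk_le_mk_of_subset inter_subset_left) (Q α).hs
  obtain ⟨a₀, ha₀, hdec⟩ := distributive hκ.le
    (fun C hC hCc => chain_lb hreg hκ C hC hCc) (Q α) ((Q α).A ⊕ W s₀)
    (by
      rw [mk_sum, lift_id, lift_id]
      exact add_lt_of_lt hκ.le (Q α).hA (card_W hκ hs₀c))
    (fun j r => match j with
      | Sum.inl z => ∃ w, h.dec r w z.1
      | Sum.inr u => ∃ b, NoAg r u.1 b)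
    (by
      rintro (z | u) r r' hr
      · rintro ⟨w, hw⟩
        exact ⟨w, h.mono _ _ _ _ hr hw⟩
      · rintro ⟨b, hb⟩
        exact ⟨b, NoAg_mono _ _ _ _ hr hb⟩)
    (by
      rintro (z | u) r hr
      · exact h.surj r z.1
      · obtain ⟨b, t, ht, hN⟩ := H r (hr.trans (hQp α)) u.1
        exact ⟨t, ht, b, hN⟩)
  have hd1 : ∀ z : (Q α).A, ∃ w, h.dec a₀ w z.1 := fun z => hdec (Sum.inl z)
  have hd2 : ∀ u : W s₀, ∃ b, NoAg a₀ u.1 b := fun u => hdec (Sum.inr u)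
  choose w hw using hd1
  choose bu hbu using hd2
  obtain ⟨x, hx⟩ := hXb ((Q α).A ∪ range w ∪ range bu ∪ {B α})
    (by
      refine lt_of_le_of_lt (mk_union_le _ _) (add_lt_of_lt hκ.le ?_ ?_)
      · refine lt_of_le_of_lt (mk_union_le _ _) (add_lt_of_lt hκ.le ?_ ?_)
        · refine lt_of_le_of_lt (mk_union_le _ _) (add_lt_of_lt hκ.le (Q α).hA ?_)
          exact lt_of_le_of_lt mk_range_le (Q α).hA
        · exact lt_of_le_of_lt mk_range_le (card_W hκ hs₀c)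
      · rw [mk_singleton]; exact lt_trans one_lt_aleph0 hκ)
  have hxA : x ∉ (Q α).A := fun hxA => lt_irrefl _ (hx x (Or.inl (Or.inl (Or.inl hxA))))
  have hxw : ∀ z, x ≠ w z := fun z hz =>
    (hx (w z) (Or.inl (Or.inl (Or.inr ⟨z, rfl⟩)))).ne hz.symm
  have hxbu : ∀ u, bu u ≤ x := fun u => (hx (bu u) (Or.inl (Or.inr ⟨u, rfl⟩))).le
  have hxB : B α ≤ x := (hx (B α) (Or.inr rfl)).le
  obtain ⟨a₁, ha₁, y, hy⟩ := h.total a₀ x
  obtain ⟨a₂, ha₂, ha₂s, hxa₂⟩ := add_point hκ hX a₁ x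
  obtain ⟨a, ha, has, hya⟩ := add_point hκ hX a₂ y
  have hxa : x ∈ a.A := ha.2.1 hxa₂
  have haa₀ : a ≤ a₀ := ha.trans (ha₂.trans ha₁)
  have haQ : a ≤ Q α := haa₀.trans ha₀
  have hyd : h.dec a x y := h.mono _ _ _ _ (ha.trans ha₂) hy
  have hyA : y ∉ (Q α).A := by
    intro hyA
    have h9 := h.mono _ _ _ _ haa₀ (hw ⟨y, hyA⟩)
    exact hxw ⟨y, hyA⟩ (h.inj _ _ _ _ hyd h9)
  have hne : ∀ u ∈ W s₀, a.φ u x ≠ y := by
    intro u hu hux
    apply hbu ⟨u, hu⟩ a haa₀ x (hxbu _) y hyd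
    exact ⟨W_mono (inter_subset_left.trans haQ.1) hu, hxa, hux⟩
  obtain ⟨δ, hδ⟩ := hΛ1 a.s a.hs.le
  obtain ⟨i, hi, hCd⟩ := hunb δ
  have hci : c i = c α := congrArg Prod.fst hCd
  have hBi : B i = B α := congrArg Prod.snd hCd
  have hAi : (Q i).A = (Q α).A := by
    apply Subset.antisymm
    · intro z hz
      have h9 := c_inr i i z (hQi i) hz
      rw [hci] at h9
      obtain ⟨_, _, _, h10, _⟩ := c_inr' _ _ _ _ h9
      exact h10
    · intro z hz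
      have h9 := c_inr α α z (hQi α) hz
      rw [← hci] at h9
      obtain ⟨_, _, _, h10, _⟩ := c_inr' _ _ _ _ h9
      exact h10
  have hσex : ∀ j, ∃ k, j ∈ (Q i).s → k ∈ (Q α).s ∧ en α k = en i j := by
    intro j
    by_cases hj : j ∈ (Q i).s
    · have h9 := c_inr i j x₀ hj (hQx i)
      rw [hci] at h9
      obtain ⟨k, hk, h10, _⟩ := c_inr' _ _ _ _ h9
      exact ⟨k, fun _ => ⟨hk, h10⟩⟩
    · exact ⟨j, fun hj' => absurd hj' hj⟩
  choose σ hσ using hσex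
  have hlow : ∀ j ∈ (Q i).s, j < i → j ∈ (Q α).s ∧ j < α ∧ en i j = en α j := by
    intro j hj hji
    have h9 := c_inl i j hj hji
    rw [hci] at h9
    exact c_inl' _ _ _ _ h9
  obtain ⟨r, hra, hrq, hxr, hir, hrx⟩ := amalgamate hκ hX a (Q i) (Q α) haQ hAi i (hQi i)
    (fun k hk => lt_trans (hδ k hk) hi) σ
    (by
      intro j hj hji
      obtain ⟨h9, h10, h11⟩ := hlow j hj hji
      obtain ⟨h12, h13⟩ := hσ j hj
      exact hen α h12 h9 (h13.trans h11))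
    (fun j hj => (hσ j hj).1)
    (by
      intro j hj
      obtain ⟨h12, h13⟩ := hσ j hj
      ext z
      by_cases hz : z ∈ (Q i).A
      · have h9 := c_inr i j z hj hz
        rw [hci] at h9
        obtain ⟨k, hk, h14, _, h15⟩ := c_inr' _ _ _ _ h9
        have : σ j = k := hen α h12 hk (h13.trans h14.symm)
        rw [this, h15]
      · rw [(Q i).fix j z hz, (Q α).fix _ z (hAi ▸ hz)])
    x y hxa (hAi ▸ hxA) hya (hAi ▸ hyA)
    (by
      intro u hu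
      apply hne u
      refine W_mono ?_ hu
      rintro j ⟨hj, hji⟩
      obtain ⟨h9, h10, _⟩ := hlow j hj hji
      exact ⟨h9, h10⟩)
  refine hB i r hrq x (hBi ▸ hxB) y (h.mono _ _ _ _ hra hyd) ?_
  refine ⟨of_mem_W hir, hxr, ?_⟩
  rw [Cond.φ_of]
  exact hrx

end Cond

end Pool.Agent.H17MCG
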