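import Pool.Agent.H17.MCG.Defs

/-!
# The order on conditions
-/

namespace Pool.Agent.H17MCG

open Cardinal Set

universe u

theorem W_mono {Λ : Type*} {s t : Set Λ} (h : s ⊆ t) : W s ≤ W t :=
  Subgroup.closure_mono (image_mono h)

theorem of_mem_W {Λ : Type*} {s : Set Λ} {i : Λ} (h : i ∈ s) : FreeGroup.of i ∈ W s :=
  Subgroup.subset_closure ⟨i, h, rfl⟩

/-- permutations moving only points of `A` -/
def suppIn {X : Type*} (A : Set X) : Subgroup (Equiv.Perm X) where
  carrier := {g | ∀ x ∉ A, g x = x}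
  mul_mem' := by
    intro a b ha hb x hx
    rw [Equiv.Perm.mul_apply, hb x hx, ha x hx]
  one_mem' := fun x _ => rfl
  inv_mem' := by
    intro a ha x hx
    rw [Equiv.Perm.inv_eq_iff_eq]
    exact (ha x hx).symm

theorem mem_suppIn {X : Type*} {A : Set X} {g : Equiv.Perm X} :
    g ∈ suppIn A ↔ ∀ x ∉ A, g x = x := Iff.rfl

theorem suppIn_mem_iff {X : Type*} {A : Set X} {g : Equiv.Perm X} (hg : g ∈ suppIn A) (x : X) :
    g x ∈ A ↔ x ∈ A := by
  constructor
  · intro h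
    by_contra hx
    rw [hg x hx] at h
    exact hx h
  · intro h
    by_contra hx
    have h1 := hg (g x) hx
    have h2 := g.injective h1
    rw [h2] at hx
    exact hx h

theorem lift_mem_suppIn {Λ X : Type*} {A : Set X} {f : Λ → Equiv.Perm X}
    (hf : ∀ i, f i ∈ suppIn A) (u : FreeGroup Λ) : FreeGroup.lift f u ∈ suppIn A := by
  have : (FreeGroup.lift f).range ≤ suppIn A := by
    rw [FreeGroup.range_lift_eq_closure, Subgroup.closure_le]
    rintro _ ⟨i, rfl⟩
    exact hf i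
  exact this ⟨u, rfl⟩

/-- If two families agree on `s × A` then their words in `s` agree on `A`. -/
theorem agree_words {Λ X : Type*} {A : Set X} {s : Set Λ} {f f' : Λ → Equiv.Perm X}
    (hf : ∀ i, f i ∈ suppIn A) (hff : ∀ i ∈ s, ∀ x ∈ A, f' i x = f i x)
    {u : FreeGroup Λ} (hu : u ∈ W s) : ∀ x ∈ A, FreeGroup.lift f' u x = FreeGroup.lift f u x := by
  refine Subgroup.closure_induction (p := fun u _ => ∀ x ∈ A, FreeGroup.lift f' u x = FreeGroup.lift f u x)
    ?_ ?_ ?_ ?_ hu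
  · rintro _ ⟨i, hi, rfl⟩ x hx
    simp only [FreeGroup.lift_apply_of]
    exact hff i hi x hx
  · intro x _
    simp
  · intro a b _ _ ha hb x hx
    rw [map_mul, map_mul, Equiv.Perm.mul_apply, Equiv.Perm.mul_apply, hb x hx, ha]
    exact (suppIn_mem_iff (lift_mem_suppIn hf b) x).2 hx
  · intro a _ ha x hx
    rw [map_inv, map_inv, Equiv.Perm.inv_eq_iff_eq]
    have hy : (FreeGroup.lift f a)⁻¹ x ∈ A := by
      have h1 : (FreeGroup.lift f a)⁻¹ ∈ suppIn A := inv_mem (lift_mem_suppIn hf a)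
      exact (suppIn_mem_iff h1 x).2 hx
    rw [ha _ hy]
    simp

namespace Cond

variable {κ : Cardinal.{u}} {Λ X : Type u} [LinearOrder Λ]

theorem f_mem (p : Cond κ Λ X) (i : Λ) : p.f i ∈ suppIn p.A := fun x hx => p.fix i x hx

theorem φ_mem (p : Cond κ Λ X) (u : FreeGroup Λ) : p.φ u ∈ suppIn p.A :=
  lift_mem_suppIn p.f_mem u

theorem φ_mem_iff (p : Cond κ Λ X) (u : FreeGroup Λ) (x : X) : p.φ u x ∈ p.A ↔ x ∈ p.A :=
  suppIn_mem_iff (p.φ_mem u) x

theorem φ_fix (p : Cond κ Λ X) (u : FreeGroup Λ) {x : X} (hx : x ∉ p.A) : p.φ u x = x :=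
  p.φ_mem u x hx

@[simp] theorem φ_of (p : Cond κ Λ X) (i : Λ) : p.φ (FreeGroup.of i) = p.f i := by
  simp [φ]

theorem LE'.agree {p q : Cond κ Λ X} (h : LE' q p) {u : FreeGroup Λ} (hu : u ∈ W p.s) {x : X}
    (hx : x ∈ p.A) : q.φ u x = p.φ u x :=
  agree_words p.f_mem h.2.2.1 hu x hx

theorem LE'.ker {p q : Cond κ Λ X} (h : LE' q p) {u : FreeGroup Λ} (hu : u ∈ W p.s) :
    q.φ u = 1 ↔ p.φ u = 1 := by
  constructor
  · intro h1
    ext x
    by_cases hx : x ∈ p.A
    · rw [← h.agree hu hx, h1]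
    · rw [p.φ_fix u hx]; rfl
  · intro h1
    ext x
    by_cases hx : x ∈ p.A
    · rw [h.agree hu hx, h1]
    · by_cases hxq : x ∈ q.A
      · exact (h.2.2.2 u hu x hxq hx).2 h1
      · rw [q.φ_fix u hxq]; rfl

theorem LE'.refl (p : Cond κ Λ X) : LE' p p :=
  ⟨subset_rfl, subset_rfl, fun _ _ _ _ => rfl, fun _ _ _ hx hx' => absurd hx hx'⟩

theorem LE'.trans {p q r : Cond κ Λ X} (h1 : LE' r q) (h2 : LE' q p) : LE' r p := by
  refine ⟨h2.1.trans h1.1, h2.2.1.trans h1.2.1, ?_, ?_⟩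
  · intro i hi x hx
    rw [h1.2.2.1 i (h2.1 hi) x (h2.2.1 hx), h2.2.2.1 i hi x hx]
  · intro u hu x hxr hxp
    have hu' : u ∈ W q.s := W_mono h2.1 hu
    by_cases hxq : x ∈ q.A
    · rw [h1.agree hu' hxq]
      exact h2.2.2.2 u hu x hxq hxp
    · rw [h1.2.2.2 u hu' x hxr hxq]
      exact h2.ker hu

instance : Preorder (Cond κ Λ X) where
  le := LE'
  le_refl := LE'.refl
  le_trans := fun _ _ _ h1 h2 => LE'.trans h1 h2

theorem le_def {p q : Cond κ Λ X} : q ≤ p ↔ LE' q p := Iff.rfl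

end Cond

/-- the action by left multiplication on an embedded copy of the group, together with a given
action supported off this copy -/
theorem exists_combined_action {X M : Type*} [Group M] (A : Set X) (ψ : M →* Equiv.Perm X)
    (hψ : ∀ m, ψ m ∈ suppIn A) (j : M → X) (hj : Function.Injective j) (hjA : ∀ m, j m ∉ A) :
    ∃ Ψ : M →* Equiv.Perm X, (∀ m, ∀ x ∈ A, Ψ m x = ψ m x) ∧ (∀ m n, Ψ m (j n) = j (m * n)) ∧
      (∀ m x, x ∉ A → x ∉ range j → Ψ m x = x) := by
  classical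
  let J : M ↪ X := ⟨j, hj⟩
  let V : M →* Equiv.Perm X := (Equiv.Perm.viaEmbeddingHom J).comp (MulAction.toPermHom M M)
  have hV1 : ∀ m n, V m (j n) = j (m * n) := by
    intro m n
    exact Equiv.Perm.viaEmbedding_apply (MulAction.toPerm m : Equiv.Perm M) J n
  have hV2 : ∀ m x, x ∉ range j → V m x = x := by
    intro m x hx
    exact Equiv.Perm.viaEmbedding_apply_of_notMem (MulAction.toPerm m : Equiv.Perm M) J x hx
  have hdis : ∀ m n, Commute (ψ m) (V n) := by
    intro m n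
    apply Equiv.Perm.Disjoint.commute
    intro x
    by_cases hx : x ∈ A
    · right
      apply hV2
      rintro ⟨k, rfl⟩
      exact hjA k hx
    · left
      exact hψ m x hx
  refine ⟨⟨⟨fun m => ψ m * V m, by simp⟩, ?_⟩, ?_, ?_, ?_⟩
  · intro a b
    simp only [map_mul]
    have := (hdis b a).eq
    calc ψ a * ψ b * (V a * V b) = ψ a * (ψ b * V a) * V b := by group
      _ = ψ a * (V a * ψ b) * V b := by rw [this]
      _ = ψ a * V a * (ψ b * V b) := by group
  · intro m x hx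
    show ψ m (V m x) = ψ m x
    rw [hV2 m x (by rintro ⟨k, rfl⟩; exact hjA k hx)]
  · intro m n
    show ψ m (V m (j n)) = _
    rw [hV1, hψ m _ (hjA _)]
  · intro m x hx hx'
    show ψ m (V m x) = _
    rw [hV2 m x hx', hψ m x hx]

end Pool.Agent.H17MCG
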